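import Mathlib

/-!
Interface of the proof of MP_5c4bc0_an (polynomials `L_{n,k}`).

`S_A`  : expansion of `(1-D) ∏_{j=2}^{m+1} (1-D/j) X^N` near `X = N + H_m`
`S_B1` : `H_m^{(r)}` (r ≥ 2) and `H_m - log n - γ` have expansions in `1/n` (`n = m+2`)
`S_B2` : extraction of the coefficient polynomials from the class `Cl`
-/

namespace R308.LNK

open Polynomial Filter Asymptotics Finset

open scoped Polynomial.Bivariate

/-- `∏_{j=1}^{m} (1 - X/j)` -/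
noncomputable def G (m : ℕ) : ℝ[X] := ∏ j ∈ Finset.range m, (1 - C (1 / ((j : ℝ) + 1)) * X)

/-- differentiation as an endomorphism -/
noncomputable def Dm : Module.End ℝ ℝ[X] := Polynomial.derivative

/-- `P m N = ∏_{j=1}^{m} (1 - D/j) X^N` -/
noncomputable def P (m N : ℕ) : ℝ[X] := (aeval Dm (G m)) (X ^ N)

/-- `H m = 1 + 1/2 + ... + 1/m` -/
noncomputable def H (m : ℕ) : ℝ := ∑ i ∈ Finset.range m, 1 / ((i : ℝ) + 1)

/-- `Hr r m = 1 + 1/2^r + ... + 1/m^r` -/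
noncomputable def Hr (r m : ℕ) : ℝ := ∑ i ∈ Finset.range m, 1 / ((i : ℝ) + 1) ^ r

/-- `q x N l = ((D-1)^l X^N)(x) / x^N` (Charlier type), given by its recursion in `l` -/
noncomputable def q (x : ℝ) (N : ℕ) : ℕ → ℝ
  | 0 => 1
  | 1 => (N - x) / x
  | (l + 2) => ((N - ((l : ℝ) + 1) - x) * q x N (l + 1) - ((l : ℝ) + 1) * q x N l) / x

/-- `β m l` is the coefficient of `t^l` in `e^{H_m t} ∏_{i=1}^m (1 - t/i)` -/
noncomputable def β (m l : ℕ) : ℝ :=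
  ∑ p ∈ antidiagonal l, (G m).coeff p.1 * H m ^ p.2 / (p.2.factorial : ℝ)

/-- Part A (remainder estimate): with `N = m+2+κ`, `Z = N + w`, `-1 ≤ w ≤ 0`. -/
def S_A : Prop := ∀ κ L : ℕ, ∃ K : ℝ, ∀ᶠ m : ℕ in atTop, ∀ w ∈ Set.Icc (-1 : ℝ) 0,
  |((m : ℝ) + 1) * (P (m + 1) (m + 2 + κ)).eval (((m + 2 + κ : ℕ) : ℝ) + w + H m)
        * Real.exp (-(H m)) / (((m + 2 + κ : ℕ) : ℝ) + w) ^ (m + 2 + κ)
      + ∑ l ∈ Finset.range L, β m l * q (((m + 2 + κ : ℕ) : ℝ) + w) (m + 2 + κ) (l + 1)|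
    ≤ K * (m : ℝ) ^ 12 / (m : ℝ) ^ (L / 2)

/-- The class of functions `a(n,κ)` which for every fixed `κ` equal, up to `O(n^{-j})`, a fixed
polynomial in `u = 1/n` and `v = κ/n`; the polynomial reduces to `s(v)` for `u = 0`. -/
def Cl (j : ℕ) (s : ℝ[X]) (a : ℕ → ℕ → ℝ) : Prop :=
  ∃ Q : ℝ[X][Y], Q.coeff 0 = s ∧ ∀ κ : ℕ,
    (fun n : ℕ => a n κ - Q.evalEval ((κ : ℝ) / (n : ℝ)) (1 / (n : ℝ))) =O[atTop]
      fun n : ℕ => (1 / (n : ℝ)) ^ j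

/-- Part B1: power sums and harmonic numbers. -/
def S_B1 : Prop :=
  (∀ r : ℕ, 2 ≤ r → ∀ j : ℕ,
    Cl j (C (∑' i : ℕ, 1 / ((i : ℝ) + 1) ^ r)) (fun n _ => Hr r (n - 2))) ∧
  (∀ j : ℕ, Cl j (C (-3 / 2 : ℝ))
    (fun n _ => (n : ℝ) * (H (n - 2) - Real.log n - Real.eulerMascheroniConstant)))

/-- Part B2: extraction of the coefficient polynomials. -/
def S_B2 : Prop :=
  ∀ (a : ℕ → ℕ → ℝ) (s : ℕ → ℝ[X]) (σ : ℕ → ℝ), (∀ j m : ℕ, m < j → (s j).coeff m = σ m) →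
    (∀ j, Cl j (s j) a) →
    ∃ c : ℕ → ℝ[X], (∀ m, (c m).natDegree ≤ m ∧ (c m).coeff m = σ m) ∧
      ∀ κ M : ℕ, (fun n : ℕ => a n κ - ∑ m ∈ Finset.range M, (c m).eval (κ : ℝ) / (n : ℝ) ^ m)
        =O[atTop] fun n : ℕ => (1 / (n : ℝ)) ^ M

end R308.LNK
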