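import Mathlib
import Pool.Agent.R308.LNK.Defs

/-!
Closure properties of the class `Cl`, and extraction of coefficient polynomials.
-/

namespace R308.LNK

open Polynomial Filter Asymptotics Finset

open scoped Polynomial.Bivariate Topology

/-- `u = 1/n` -/
noncomputable abbrev uu (n : ℕ) : ℝ := 1 / (n : ℝ)

lemma uu_tendsto : Tendsto uu atTop (𝓝 0) :=
  tendsto_one_div_atTop_nhds_zero_nat (𝕜 := ℝ)

lemma vv_tendsto (κ : ℕ) : Tendsto (fun n : ℕ => (κ : ℝ) / (n : ℝ)) atTop (𝓝 0) :=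
  tendsto_const_div_atTop_nhds_zero_nat (κ : ℝ)

lemma uu_pow_mono {i j : ℕ} (h : i ≤ j) :
    (fun n : ℕ => (uu n) ^ j) =O[atTop] fun n : ℕ => (uu n) ^ i := by
  refine IsBigO.of_bound 1 ?_
  filter_upwards [eventually_ge_atTop 1] with n hn
  have h1 : (1 : ℝ) ≤ n := by exact_mod_cast hn
  have h0 : (0 : ℝ) ≤ uu n := by unfold uu; positivity
  have h2 : uu n ≤ 1 := by
    unfold uu; exact (div_le_one (by linarith)).2 h1
  rw [one_mul, Real.norm_of_nonneg (pow_nonneg h0 _), Real.norm_of_nonneg (pow_nonneg h0 _)]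
  exact pow_le_pow_of_le_one h0 h2 h

lemma uu_pow_one (j : ℕ) :
    (fun n : ℕ => (uu n) ^ j) =O[atTop] fun _ : ℕ => (1 : ℝ) := by
  simpa using uu_pow_mono (Nat.zero_le j)

lemma evalEval_sum' (Q : ℝ[X][Y]) (x y : ℝ) :
    Q.evalEval x y = ∑ i ∈ range (Q.natDegree + 1), (Q.coeff i).eval x * y ^ i := by
  rw [evalEval, eval_eq_sum_range (p := Q), eval_finsetSum]
  refine Finset.sum_congr rfl fun i _ => ?_
  simp

lemma evalEval_tendsto (Q : ℝ[X][Y]) (κ : ℕ) :
    Tendsto (fun n : ℕ => Q.evalEval ((κ : ℝ) / (n : ℝ)) (1 / (n : ℝ))) atTop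
      (𝓝 (Q.evalEval 0 0)) := by
  simp only [evalEval_sum']
  refine tendsto_finsetSum _ fun i _ => ?_
  refine Tendsto.mul ?_ ?_
  · exact ((Q.coeff i).continuous.tendsto 0).comp (vv_tendsto κ)
  · exact uu_tendsto.pow i

lemma evalEval_O (Q : ℝ[X][Y]) (κ : ℕ) :
    (fun n : ℕ => Q.evalEval ((κ : ℝ) / (n : ℝ)) (1 / (n : ℝ))) =O[atTop] fun _ => (1 : ℝ) :=
  (evalEval_tendsto Q κ).isBigO_one ℝ

lemma Cl.bdd {j : ℕ} {s : ℝ[X]} {a : ℕ → ℕ → ℝ} (h : Cl j s a) (κ : ℕ) :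
    (fun n => a n κ) =O[atTop] fun _ => (1 : ℝ) := by
  obtain ⟨Q, -, hQ⟩ := h
  have := ((hQ κ).trans (uu_pow_one j)).add (evalEval_O Q κ)
  simpa using this

lemma Cl.add {j : ℕ} {s t : ℝ[X]} {a b : ℕ → ℕ → ℝ} (ha : Cl j s a) (hb : Cl j t b) :
    Cl j (s + t) (fun n κ => a n κ + b n κ) := by
  obtain ⟨Q, hQ, hQ'⟩ := ha
  obtain ⟨R, hR, hR'⟩ := hb
  refine ⟨Q + R, by rw [coeff_add, hQ, hR], fun κ => ?_⟩
  refine ((hQ' κ).add (hR' κ)).congr_left fun n => ?_
  rw [evalEval_add]; ring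

lemma Cl.mul {j : ℕ} {s t : ℝ[X]} {a b : ℕ → ℕ → ℝ} (ha : Cl j s a) (hb : Cl j t b) :
    Cl j (s * t) (fun n κ => a n κ * b n κ) := by
  have hb1 := hb.bdd
  obtain ⟨Q, hQ, hQ'⟩ := ha
  obtain ⟨R, hR, hR'⟩ := hb
  refine ⟨Q * R, by rw [mul_coeff_zero, hQ, hR], fun κ => ?_⟩
  have h1 := (hQ' κ).mul (hb1 κ)
  have h2 := (evalEval_O Q κ).mul (hR' κ)
  simp only [mul_one, one_mul] at h1 h2
  refine (h1.add h2).congr_left fun n => ?_
  rw [evalEval_mul]; ring

lemma Cl.const (j : ℕ) (c : ℝ) : Cl j (C c) (fun _ _ => c) := by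
  refine ⟨C (C c), by simp, fun κ => ?_⟩
  have : (fun n : ℕ => c - (C (C c) : ℝ[X][Y]).evalEval ((κ : ℝ) / (n : ℝ)) (1 / (n : ℝ))) =
      fun _ => 0 := by
    ext n; simp [evalEval_C]
  rw [this]
  exact isBigO_zero _ _

lemma Cl.v (j : ℕ) : Cl j X (fun n κ => (κ : ℝ) / (n : ℝ)) := by
  refine ⟨C X, by simp, fun κ => ?_⟩
  have : (fun n : ℕ => (κ : ℝ) / (n : ℝ) -
      (C X : ℝ[X][Y]).evalEval ((κ : ℝ) / (n : ℝ)) (1 / (n : ℝ))) = fun _ => 0 := by
    ext n; simp [evalEval_C]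
  rw [this]
  exact isBigO_zero _ _

lemma Cl.umul {j : ℕ} {s : ℝ[X]} {a : ℕ → ℕ → ℝ} (ha : Cl j s a) :
    Cl (j + 1) 0 (fun n κ => 1 / (n : ℝ) * a n κ) := by
  obtain ⟨Q, hQ, hQ'⟩ := ha
  refine ⟨X * Q, by rw [mul_coeff_zero]; simp, fun κ => ?_⟩
  have h1 := (isBigO_refl (fun n : ℕ => (1 / (n : ℝ))) atTop).mul (hQ' κ)
  refine (h1.congr_left fun n => ?_).congr_right fun n => ?_
  · rw [evalEval_mul, evalEval_X]; ring
  · ring

lemma Cl.mono {i j : ℕ} (hij : i ≤ j) {s : ℝ[X]} {a : ℕ → ℕ → ℝ} (ha : Cl j s a) : Cl i s a := by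
  obtain ⟨Q, hQ, hQ'⟩ := ha
  exact ⟨Q, hQ, fun κ => (hQ' κ).trans (uu_pow_mono hij)⟩

lemma Cl.congr {j : ℕ} {s : ℝ[X]} {a b : ℕ → ℕ → ℝ} (ha : Cl j s a)
    (h : ∀ κ, (fun n => a n κ - b n κ) =O[atTop] fun n : ℕ => (1 / (n : ℝ)) ^ j) : Cl j s b := by
  obtain ⟨Q, hQ, hQ'⟩ := ha
  refine ⟨Q, hQ, fun κ => ?_⟩
  refine ((hQ' κ).sub (h κ)).congr_left fun n => ?_
  ring

lemma Cl.congr' {j : ℕ} {s : ℝ[X]} {a b : ℕ → ℕ → ℝ} (ha : Cl j s a)
    (h : ∀ κ, ∀ᶠ n in atTop, a n κ = b n κ) : Cl j s b := by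
  refine ha.congr fun κ => ?_
  refine (isBigO_zero _ _).congr' ?_ EventuallyEq.rfl
  filter_upwards [h κ] with n hn
  rw [hn, sub_self]

lemma Cl.of_O {j : ℕ} {a : ℕ → ℕ → ℝ}
    (h : ∀ κ, (fun n => a n κ) =O[atTop] fun n : ℕ => (1 / (n : ℝ)) ^ j) : Cl j 0 a := by
  have := (Cl.const j 0).congr (b := a) fun κ => by simpa using (h κ)
  simpa using this

lemma Cl.cmul {j : ℕ} (c : ℝ) {s : ℝ[X]} {a : ℕ → ℕ → ℝ} (ha : Cl j s a) :
    Cl j (C c * s) (fun n κ => c * a n κ) := (Cl.const j c).mul ha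

lemma Cl.neg {j : ℕ} {s : ℝ[X]} {a : ℕ → ℕ → ℝ} (ha : Cl j s a) :
    Cl j (-s) (fun n κ => -a n κ) := by
  have := ha.cmul (-1)
  simpa using this

lemma Cl.sub {j : ℕ} {s t : ℝ[X]} {a b : ℕ → ℕ → ℝ} (ha : Cl j s a) (hb : Cl j t b) :
    Cl j (s - t) (fun n κ => a n κ - b n κ) := by
  have := ha.add hb.neg
  simpa [sub_eq_add_neg] using this

lemma Cl.pow {j : ℕ} {s : ℝ[X]} {a : ℕ → ℕ → ℝ} (ha : Cl j s a) (i : ℕ) :
    Cl j (s ^ i) (fun n κ => a n κ ^ i) := by
  induction i with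
  | zero => simpa using Cl.const j 1
  | succ i ih => simpa [pow_succ] using ih.mul ha

lemma Cl.sum {j : ℕ} {ι : Type*} (S : Finset ι) {s : ι → ℝ[X]} {a : ι → ℕ → ℕ → ℝ}
    (ha : ∀ i ∈ S, Cl j (s i) (a i)) : Cl j (∑ i ∈ S, s i) (fun n κ => ∑ i ∈ S, a i n κ) := by
  classical
  induction S using Finset.induction_on with
  | empty => simpa using Cl.const j 0
  | insert i S hi ih =>
    simp only [Finset.sum_insert hi]
    exact (ha i (Finset.mem_insert_self i S)).add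
      (ih fun k hk => ha k (Finset.mem_insert_of_mem hk))

/-- if the leading polynomial vanishes at `0` then `a = O(u)` -/
lemma Cl.O_u {j : ℕ} (hj : 1 ≤ j) {s : ℝ[X]} (hs : s.coeff 0 = 0) {a : ℕ → ℕ → ℝ}
    (ha : Cl j s a) (κ : ℕ) : (fun n => a n κ) =O[atTop] fun n : ℕ => (1 / (n : ℝ)) := by
  obtain ⟨Q, hQ, hQ'⟩ := ha
  have e : ∀ n : ℕ, Q.evalEval ((κ : ℝ) / (n : ℝ)) (1 / (n : ℝ)) =
      (1 / (n : ℝ)) * ((divX Q).evalEval ((κ : ℝ) / (n : ℝ)) (1 / (n : ℝ)) +
        κ * (C (divX s) : ℝ[X][Y]).evalEval ((κ : ℝ) / (n : ℝ)) (1 / (n : ℝ))) := by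
    intro n
    conv_lhs => rw [← divX_mul_X_add Q, hQ, ← divX_mul_X_add s, hs]
    rw [evalEval_add, evalEval_mul, evalEval_X, evalEval_C, evalEval_C, eval_add, eval_mul,
      eval_X, C_0, eval_zero]
    ring
  have h1 : (fun n : ℕ => Q.evalEval ((κ : ℝ) / (n : ℝ)) (1 / (n : ℝ))) =O[atTop]
      fun n : ℕ => (1 / (n : ℝ)) := by
    have := (isBigO_refl (fun n : ℕ => (1 / (n : ℝ))) atTop).mul
      ((evalEval_O (divX Q) κ).add ((evalEval_O (C (divX s)) κ).const_mul_left (κ : ℝ)))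
    simp only [mul_one] at this
    exact this.congr_left fun n => (e n).symm
  have h2 := (hQ' κ).trans (uu_pow_mono hj)
  simp only [uu, pow_one] at h2
  have := h2.add h1
  simpa using this

/-- inverse -/
lemma Cl.inv {j : ℕ} (hj : 1 ≤ j) {s : ℝ[X]} (hs : s.coeff 0 = 0) {r : ℕ → ℕ → ℝ}
    (hr : Cl j s r) : Cl j (∑ i ∈ range j, (-s) ^ i) (fun n κ => 1 / (1 + r n κ)) := by
  have h1 : Cl j (∑ i ∈ range j, (-s) ^ i) (fun n κ => ∑ i ∈ range j, (-(r n κ)) ^ i) :=
    Cl.sum _ fun i _ => hr.neg.pow i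
  refine h1.congr fun κ => ?_
  have hO := hr.O_u hj hs κ
  have hlim : Tendsto (fun n => r n κ) atTop (𝓝 0) := hO.trans_tendsto uu_tendsto
  have hev : ∀ᶠ n in atTop, |r n κ| < 1 / 2 := by
    have := hlim.abs
    rw [abs_zero] at this
    exact this.eventually (gt_mem_nhds (by norm_num))
  have hb : (fun n : ℕ => 1 / (1 + r n κ)) =O[atTop] fun _ => (1 : ℝ) := by
    refine IsBigO.of_bound 2 ?_
    filter_upwards [hev] with n hn
    have := abs_lt.1 hn
    rw [Real.norm_eq_abs, abs_of_pos (by apply one_div_pos.2; linarith)]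
    simp only [norm_one, mul_one]
    rw [div_le_iff₀ (by linarith)]
    linarith
  have hO2 : (fun n => -((-(r n κ)) ^ j) * (1 / (1 + r n κ))) =O[atTop]
      fun n : ℕ => (1 / (n : ℝ)) ^ j := by
    have := ((hO.neg_left).pow j).neg_left.mul hb
    simpa only [mul_one] using this
  refine hO2.congr' ?_ EventuallyEq.rfl
  filter_upwards [hev] with n hn
  have := abs_lt.1 hn
  have hne : 1 + r n κ ≠ 0 := by linarith
  have hg := geom_sum_mul (-(r n κ)) j
  have : (∑ i ∈ range j, (-(r n κ)) ^ i) * (1 + r n κ) = 1 - (-(r n κ)) ^ j := by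
    linear_combination -hg
  field_simp
  linear_combination -this

/-! ### extraction -/

/-- the coefficient of `u^m` of `Q(κ u, u)`, as a polynomial in `κ` -/
noncomputable def cf (Q : ℝ[X][Y]) (m : ℕ) : ℝ[X] :=
  ∑ b ∈ range (m + 1), monomial b ((Q.coeff (m - b)).coeff b)

lemma cf_add (Q R : ℝ[X][Y]) (m : ℕ) : cf (Q + R) m = cf Q m + cf R m := by
  simp [cf, Finset.sum_add_distrib]

lemma cf_natDegree (Q : ℝ[X][Y]) (m : ℕ) : (cf Q m).natDegree ≤ m := by
  unfold cf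
  refine natDegree_sum_le_of_forall_le _ _ fun b hb => ?_
  have : b < m + 1 := Finset.mem_range.1 hb
  exact (natDegree_monomial_le _).trans (by omega)

lemma cf_coeff (Q : ℝ[X][Y]) (m : ℕ) : (cf Q m).coeff m = (Q.coeff 0).coeff m := by
  unfold cf
  rw [finsetSum_coeff, Finset.sum_eq_single m]
  · simp
  · intro b _ hb
    rw [coeff_monomial, if_neg hb]
  · intro h; simp at h

lemma cf_monomial (a b : ℕ) (r : ℝ) (m : ℕ) :
    cf (monomial a (monomial b r)) m = if m = a + b then monomial b r else 0 := by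
  unfold cf
  split_ifs with h
  · rw [Finset.sum_eq_single b]
    · rw [coeff_monomial, if_pos (by omega), coeff_monomial, if_pos rfl]
    · intro c _ hc
      rw [coeff_monomial]
      split_ifs
      · rw [coeff_monomial, if_neg (Ne.symm hc)]; simp
      · simp
    · intro hb; simp at hb; omega
  · refine Finset.sum_eq_zero fun c hc => ?_
    have hc' := Finset.mem_range.1 hc
    rw [coeff_monomial]
    split_ifs with h1
    · rw [coeff_monomial]
      split_ifs with h2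
      · exfalso; omega
      · simp
    · simp

lemma cf_O (Q : ℝ[X][Y]) (κ M : ℕ) :
    (fun n : ℕ => Q.evalEval ((κ : ℝ) / (n : ℝ)) (1 / (n : ℝ)) -
      ∑ m ∈ range M, (cf Q m).eval (κ : ℝ) * (1 / (n : ℝ)) ^ m) =O[atTop]
      fun n : ℕ => (1 / (n : ℝ)) ^ M := by
  induction Q using Polynomial.induction_on' with
  | add P Q hP hQ =>
    refine (hP.add hQ).congr_left fun n => ?_
    simp only [evalEval_add, cf_add, eval_add, add_mul, Finset.sum_add_distrib]
    ring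
  | monomial a p =>
    induction p using Polynomial.induction_on' with
    | add p q hp hq =>
      refine (hp.add hq).congr_left fun n => ?_
      simp only [map_add, evalEval_add, cf_add, eval_add, add_mul, Finset.sum_add_distrib]
      ring
    | monomial b r =>
      have e1 : ∀ n : ℕ, (monomial a (monomial b r) : ℝ[X][Y]).evalEval
          ((κ : ℝ) / (n : ℝ)) (1 / (n : ℝ)) = r * (κ : ℝ) ^ b * (1 / (n : ℝ)) ^ (a + b) := by
        intro n
        rw [evalEval, eval_monomial, eval_mul, eval_monomial, ← C_pow, eval_C, div_pow, pow_add]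
        ring
      by_cases h : a + b < M
      · refine (isBigO_zero _ _).congr_left fun n => ?_
        rw [e1, Finset.sum_eq_single (a + b)]
        · rw [cf_monomial, if_pos rfl, eval_monomial]; ring
        · intro m _ hm
          rw [cf_monomial, if_neg hm]; simp
        · intro hh; exact absurd (Finset.mem_range.2 h) hh
      · have e2 : ∀ n : ℕ, ∑ m ∈ range M, (cf (monomial a (monomial b r)) m).eval (κ : ℝ) *
            (1 / (n : ℝ)) ^ m = 0 := by
          intro n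
          refine Finset.sum_eq_zero fun m hm => ?_
          have := Finset.mem_range.1 hm
          rw [cf_monomial, if_neg (by omega)]; simp
        simp only [e1, e2, sub_zero]
        refine IsBigO.const_mul_left ?_ _
        exact uu_pow_mono (by omega)

lemma u_unique (M : ℕ) : ∀ c : ℕ → ℝ, ((fun n : ℕ => ∑ m ∈ range M, c m * (1 / (n : ℝ)) ^ m)
    =O[atTop] fun n : ℕ => (1 / (n : ℝ)) ^ M) → ∀ m < M, c m = 0 := by
  induction M with
  | zero => intro c _ m hm; omega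
  | succ M ih =>
    intro c hc
    have e : ∀ n : ℕ, ∑ m ∈ range (M + 1), c m * (1 / (n : ℝ)) ^ m =
        1 / (n : ℝ) * (∑ m ∈ range M, c (m + 1) * (1 / (n : ℝ)) ^ m) + c 0 := by
      intro n
      rw [Finset.sum_range_succ', Finset.mul_sum]
      simp only [pow_zero, mul_one, pow_succ]
      congr 1
      refine Finset.sum_congr rfl fun m _ => ?_
      ring
    have hlim0 : Tendsto (fun n : ℕ => (1 / (n : ℝ)) ^ (M + 1)) atTop (𝓝 0) := by
      have := uu_tendsto.pow (M + 1)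
      simpa using this
    have hlim := hc.trans_tendsto hlim0
    have hlim2 : Tendsto (fun n : ℕ => ∑ m ∈ range (M + 1), c m * (1 / (n : ℝ)) ^ m) atTop
        (𝓝 (c 0)) := by
      have h1 : Tendsto (fun n : ℕ => ∑ m ∈ range M, c (m + 1) * (1 / (n : ℝ)) ^ m) atTop
          (𝓝 (∑ m ∈ range M, c (m + 1) * (0 : ℝ) ^ m)) :=
        tendsto_finsetSum _ fun m _ => (uu_tendsto.pow m).const_mul _
      have h2 := (uu_tendsto.mul h1).add_const (c 0)
      rw [zero_mul, zero_add] at h2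
      exact h2.congr fun n => (e n).symm
    have hc0 : c 0 = 0 := tendsto_nhds_unique hlim2 hlim
    have h3 : (fun n : ℕ => ∑ m ∈ range M, c (m + 1) * (1 / (n : ℝ)) ^ m) =O[atTop]
        fun n : ℕ => (1 / (n : ℝ)) ^ M := by
      have h4 := (isBigO_refl (fun n : ℕ => (n : ℝ)) atTop).mul hc
      refine (h4.congr' ?_ ?_)
      · filter_upwards [eventually_ge_atTop 1] with n hn
        have : (n : ℝ) ≠ 0 := by positivity
        rw [e, hc0, add_zero]
        field_simp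
      · filter_upwards [eventually_ge_atTop 1] with n hn
        have : (n : ℝ) ≠ 0 := by positivity
        rw [pow_succ]
        field_simp
    intro m hm
    rcases m with _ | m
    · exact hc0
    · exact ih (fun m => c (m + 1)) h3 m (by omega)

theorem partB2 : S_B2 := by
  intro a s σ hs ha
  choose Q hQ hQ' using ha
  refine ⟨fun m => cf (Q (m + 1)) m, fun m => ⟨cf_natDegree _ _, ?_⟩, fun κ M => ?_⟩
  · rw [cf_coeff, hQ, hs (m + 1) m (Nat.lt_succ_self m)]
  · have key : ∀ i M, i ≤ M → ∀ m < i, (cf (Q i) m).eval (κ : ℝ) = (cf (Q M) m).eval (κ : ℝ) := by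
      intro i M hiM m hm
      have h1 := ((hQ' i κ).add (cf_O (Q i) κ i))
      have h2 := ((hQ' M κ).trans (uu_pow_mono hiM)).add
        (cf_O (Q M) κ i)
      have h3 := h2.sub h1
      have h4 := u_unique i (fun m => (cf (Q i) m).eval (κ : ℝ) - (cf (Q M) m).eval (κ : ℝ)) (by
        refine h3.congr_left fun n => ?_
        simp only [sub_mul, Finset.sum_sub_distrib]
        ring) m hm
      linarith
    have h5 := (hQ' M κ).add (cf_O (Q M) κ M)
    refine h5.congr_left fun n => ?_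
    have e : ∑ m ∈ range M, (cf (Q (m + 1)) m).eval (κ : ℝ) / (n : ℝ) ^ m =
        ∑ m ∈ range M, (cf (Q M) m).eval (κ : ℝ) * (1 / (n : ℝ)) ^ m := by
      refine Finset.sum_congr rfl fun m hm => ?_
      rw [key (m + 1) M (Finset.mem_range.1 hm) m (Nat.lt_succ_self m), one_div_pow]
      ring
    rw [e]
    ring

end R308.LNK
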