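import Mathlib
import Pool.Agent.R308.LNK.PartB2

/-!
The recursion `(l+1) β_{l+1} = -∑_{r ≥ 1} H^{(r+1)}_m β_{l-r}` and the expansion of `β (n-2) l`.
-/

namespace R308.LNK

open Polynomial Filter Asymptotics Finset

open scoped Polynomial.Bivariate Topology PowerSeries

/-- the power series with coefficients `β m l` -/
noncomputable def bser (m : ℕ) : ℝ⟦X⟧ :=
  ((G m : ℝ[X]) : ℝ⟦X⟧) * PowerSeries.rescale (H m) (PowerSeries.exp ℝ)

lemma coeff_bser (m l : ℕ) : PowerSeries.coeff l (bser m) = β m l := by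
  unfold bser β
  rw [PowerSeries.coeff_mul]
  refine Finset.sum_congr rfl fun p _ => ?_
  rw [Polynomial.coeff_coe, PowerSeries.coeff_rescale, PowerSeries.coeff_exp]
  simp
  ring

/-- `∑_{r ≥ 1} H_m^{(r+1)} t^r` -/
noncomputable def hser (m : ℕ) : ℝ⟦X⟧ := PowerSeries.mk fun r => if r = 0 then 0 else Hr (r + 1) m

lemma rescale_exp_deriv (c : ℝ) : PowerSeries.derivative ℝ (PowerSeries.rescale c (PowerSeries.exp ℝ)) =
    PowerSeries.C c * PowerSeries.rescale c (PowerSeries.exp ℝ) := by
  ext n
  rw [PowerSeries.coeff_derivative, PowerSeries.coeff_C_mul, PowerSeries.coeff_rescale,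
    PowerSeries.coeff_rescale, PowerSeries.coeff_exp, PowerSeries.coeff_exp, Nat.factorial_succ]
  simp only [map_div₀, map_one, map_natCast]
  have h1 : (n.factorial : ℝ) ≠ 0 := by positivity
  have h2 : ((n : ℝ) + 1) ≠ 0 := by positivity
  push_cast
  field_simp
  ring

lemma bser_deriv (m : ℕ) : PowerSeries.derivative ℝ (bser m) = -(bser m * hser m) := by
  induction m with
  | zero =>
    have h1 : bser 0 = 1 := by
      unfold bser G H
      simp only [Finset.range_zero, Finset.prod_empty, Finset.sum_empty, Polynomial.coe_one, one_mul]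
      ext n
      rw [PowerSeries.coeff_rescale, PowerSeries.coeff_exp, PowerSeries.coeff_one]
      rcases n with _ | n <;> simp
    have h2 : hser 0 = 0 := by
      ext n; simp [hser, Hr]
    rw [h1, h2]
    simp
  | succ m ih =>
    set c : ℝ := 1 / ((m : ℝ) + 1) with hc
    have e1 : bser (m + 1) = bser m * ((1 - PowerSeries.C c * PowerSeries.X) *
        PowerSeries.rescale c (PowerSeries.exp ℝ)) := by
      unfold bser
      have hH : H (m + 1) = H m + c := by unfold H; rw [Finset.sum_range_succ]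
      have hG : G (m + 1) = G m * (1 - C c * X) := by unfold G; rw [Finset.prod_range_succ]
      rw [hH, ← PowerSeries.exp_mul_exp_eq_exp_add, hG]
      push_cast
      ring
    have e2 : hser (m + 1) = hser m + PowerSeries.mk (fun r => if r = 0 then 0 else c ^ (r + 1)) := by
      ext r
      simp only [hser, map_add, PowerSeries.coeff_mk]
      split_ifs with h
      · simp
      · unfold Hr
        rw [Finset.sum_range_succ, hc, one_div_pow]
    have e3 : (1 - PowerSeries.C c * PowerSeries.X) *
        (PowerSeries.mk (fun r => if r = 0 then 0 else c ^ (r + 1)) : ℝ⟦X⟧) =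
        PowerSeries.C (c ^ 2) * PowerSeries.X := by
      ext n
      rw [sub_mul, one_mul, map_sub, mul_assoc, PowerSeries.coeff_C_mul, PowerSeries.coeff_C_mul,
        PowerSeries.coeff_mk]
      rcases n with _ | n
      · simp
      · rw [PowerSeries.coeff_succ_X_mul, PowerSeries.coeff_mk, PowerSeries.coeff_X]
        rcases n with _ | n
        · simp
        · simp
          ring
    rw [e1, Derivation.leibniz, ih, Derivation.leibniz, e2]
    simp only [smul_eq_mul, rescale_exp_deriv]
    have e4 : PowerSeries.derivative ℝ (1 - PowerSeries.C c * PowerSeries.X) = -PowerSeries.C c := by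
      rw [map_sub, Derivation.leibniz]
      simp
    have e5 : (PowerSeries.C (c ^ 2) : ℝ⟦X⟧) = PowerSeries.C c * PowerSeries.C c := by
      rw [← map_mul]; congr 1; ring
    rw [e4]
    rw [e5] at e3
    linear_combination (bser m * PowerSeries.rescale c (PowerSeries.exp ℝ)) * e3

lemma β_rec (m l : ℕ) : ((l : ℝ) + 1) * β m (l + 1) =
    -∑ r ∈ range l, Hr (r + 2) m * β m (l - 1 - r) := by
  have h := congrArg (PowerSeries.coeff l) (bser_deriv m)
  rw [PowerSeries.coeff_derivative, coeff_bser, map_neg, mul_comm (bser m), PowerSeries.coeff_mul,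
    Finset.Nat.sum_antidiagonal_eq_sum_range_succ_mk, Finset.sum_range_succ'] at h
  simp only [hser, PowerSeries.coeff_mk, coeff_bser] at h
  simp only [Nat.add_eq_zero_iff, one_ne_zero, and_false, if_false, if_true, zero_mul,
    add_zero] at h
  rw [mul_comm, h]
  congr 1
  refine Finset.sum_congr rfl fun r _ => ?_
  have : l - (r + 1) = l - 1 - r := by omega
  rw [this]

lemma β_zero (m : ℕ) : β m 0 = 1 := by
  have : (G m).coeff 0 = 1 := by
    unfold G
    rw [Polynomial.coeff_zero_prod]
    simp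
  simp [β, this]

lemma β_one (m : ℕ) : β m 1 = 0 := by
  have := β_rec m 0
  simpa using this

/-- expansion of the `β (n-2) l` -/
theorem β_class (hB1 : S_B1) : ∃ b : ℕ → ℝ,
    (∀ l j, Cl j (C (b l)) (fun n _ => β (n - 2) l)) ∧ b 0 = 1 ∧ b 1 = 0 ∧
    b 2 = -(∑' i : ℕ, 1 / ((i : ℝ) + 1) ^ 2) / 2 ∧ b 3 = -(∑' i : ℕ, 1 / ((i : ℝ) + 1) ^ 3) / 3 := by
  have key : ∀ l, ∃ c : ℝ, ∀ j, Cl j (C c) (fun n _ => β (n - 2) l) := by
    intro l
    induction l using Nat.strong_induction_on with
    | _ l ih =>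
      rcases l with _ | l
      · refine ⟨1, fun j => ?_⟩
        simp only [β_zero]
        exact Cl.const j 1
      · choose! c hc using ih
        refine ⟨1 / ((l : ℝ) + 1) * -(∑ r ∈ range l,
          (∑' i : ℕ, 1 / ((i : ℝ) + 1) ^ (r + 2)) * c (l - 1 - r)), fun j => ?_⟩
        have h1 : Cl j (∑ r ∈ range l, (C (∑' i : ℕ, 1 / ((i : ℝ) + 1) ^ (r + 2)) *
            C (c (l - 1 - r)))) (fun n _ => ∑ r ∈ range l, Hr (r + 2) (n - 2) *
              β (n - 2) (l - 1 - r)) := by
          refine Cl.sum _ fun r hr => ?_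
          have := Finset.mem_range.1 hr
          exact (hB1.1 (r + 2) (by omega) j).mul (hc (l - 1 - r) (by omega) j)
        have h2 := (h1.neg).cmul (1 / ((l : ℝ) + 1))
        have e : (C (1 / ((l : ℝ) + 1) * -(∑ r ∈ range l,
            (∑' i : ℕ, 1 / ((i : ℝ) + 1) ^ (r + 2)) * c (l - 1 - r))) : ℝ[X]) =
            C (1 / ((l : ℝ) + 1)) * -(∑ r ∈ range l, (C (∑' i : ℕ, 1 / ((i : ℝ) + 1) ^ (r + 2)) *
            C (c (l - 1 - r)))) := by
          rw [C_mul, C_neg, map_sum]
          simp only [C_mul]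
        rw [e]
        refine h2.congr' fun κ => Filter.Eventually.of_forall fun n => ?_
        have hl : ((l : ℝ) + 1) ≠ 0 := by positivity
        rw [← β_rec]
        field_simp
  choose b hb using key
  have huniq : ∀ (x y : ℝ) (a : ℕ → ℕ → ℝ), Cl 1 (C x) a → Cl 1 (C y) a → x = y := by
    intro x y a hx hy
    have h1 : Cl 1 (C x - C y) (fun _ _ => (0 : ℝ)) := by simpa using hx.sub hy
    obtain ⟨Q, hQ, hQ'⟩ := h1
    have h2 := (hQ' 0).neg_left
    simp only [zero_sub, neg_neg] at h2
    have h3' : Tendsto (fun n : ℕ => (1 / (n : ℝ)) ^ 1) atTop (𝓝 0) := by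
      simp only [pow_one]; exact uu_tendsto
    have h3 := h2.trans_tendsto h3'
    have h4 := tendsto_nhds_unique h3 (evalEval_tendsto Q 0)
    have h5 : Q.evalEval 0 0 = (Q.coeff 0).eval 0 := by
      rw [evalEval, C_0, ← coeff_zero_eq_eval_zero Q]
    rw [h5, hQ] at h4
    simp at h4
    linarith
  have b0 : b 0 = 1 := by
    have h1 := hb 0 1
    simp only [β_zero] at h1
    exact huniq _ _ _ h1 (Cl.const 1 1)
  have b1 : b 1 = 0 := by
    have h1 := hb 1 1
    simp only [β_one] at h1
    exact huniq _ _ _ h1 (Cl.const 1 0)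
  refine ⟨b, hb, b0, b1, ?_, ?_⟩
  · have h1 := hb 2 1
    have h2 := ((hB1.1 2 le_rfl 1).cmul (-1 / 2))
    have e : ∀ n : ℕ, β (n - 2) 2 = -1 / 2 * Hr 2 (n - 2) := by
      intro n
      have := β_rec (n - 2) 1
      simp [β_zero] at this
      linarith
    simp only [e] at h1
    rw [← C_mul] at h2
    have := huniq _ _ _ h1 h2
    rw [this]; ring
  · have h1 := hb 3 1
    have h2 := ((hB1.1 3 (by norm_num) 1).cmul (-1 / 3))
    have e : ∀ n : ℕ, β (n - 2) 3 = -1 / 3 * Hr 3 (n - 2) := by
      intro n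
      have := β_rec (n - 2) 2
      simp [Finset.sum_range_succ, β_zero, β_one] at this
      linarith
    simp only [e] at h1
    rw [← C_mul] at h2
    have := huniq _ _ _ h1 h2
    rw [this]; ring

end R308.LNK
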