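import Mathlib
import Pool.Agent.R308.LNK.Beta

/-!
Bootstrapping: from the truncated equation to the full expansion of `n w`.
-/

namespace R308.LNK

open Polynomial Filter Asymptotics Finset

open scoped Polynomial.Bivariate Topology

/-- `q_l = Q f_l(Q,w)` for `l ≥ 1`, with `Q = 1/x`, `x = N + w` -/
noncomputable def fF (Q w : ℝ) : ℕ → ℝ
  | 0 => 0
  | 1 => -w
  | 2 => w * (w + 1) * Q - 1
  | (l + 3) => Q * (-(w + ((l : ℝ) + 2)) * fF Q w (l + 2) - ((l : ℝ) + 2) * fF Q w (l + 1))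

/-- `q_{l+3} = Q^2 g_l(Q,w)` -/
noncomputable def gF (Q w : ℝ) (l : ℕ) : ℝ :=
  -(w + ((l : ℝ) + 2)) * fF Q w (l + 2) - ((l : ℝ) + 2) * fF Q w (l + 1)

lemma q_eq_f (N : ℕ) (w : ℝ) (h : (N : ℝ) + w ≠ 0) : ∀ l : ℕ,
    q ((N : ℝ) + w) N (l + 1) = 1 / ((N : ℝ) + w) * fF (1 / ((N : ℝ) + w)) w (l + 1) ∧
    q ((N : ℝ) + w) N (l + 2) = 1 / ((N : ℝ) + w) * fF (1 / ((N : ℝ) + w)) w (l + 2) := by
  intro l
  induction l with
  | zero =>
    refine ⟨?_, ?_⟩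
    · simp only [q, fF]; field_simp; ring
    · simp only [q, fF]; push_cast; field_simp; ring
  | succ l ih =>
    refine ⟨ih.2, ?_⟩
    change q ((N : ℝ) + w) N ((l + 1) + 2) = 1 / ((N : ℝ) + w) * fF (1 / ((N : ℝ) + w)) w (l + 3)
    rw [q, fF, ih.1, show l + 1 + 1 = l + 2 from rfl, ih.2]
    push_cast
    field_simp
    ring

lemma q_eq_g (N : ℕ) (w : ℝ) (h : (N : ℝ) + w ≠ 0) (l : ℕ) :
    q ((N : ℝ) + w) N (l + 3) = (1 / ((N : ℝ) + w)) ^ 2 * gF (1 / ((N : ℝ) + w)) w l := by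
  have h1 := (q_eq_f N w h (l + 1)).2
  rw [show l + 1 + 2 = l + 3 from rfl] at h1
  rw [h1, fF, gF]
  ring

/-- leading constants of `f_l` -/
noncomputable def ef : ℕ → ℝ
  | 2 => -1
  | _ => 0

lemma fF_class {j : ℕ} {w Q : ℕ → ℕ → ℝ} (hw : Cl j 0 w) (hQ : Cl j 0 Q) : ∀ l : ℕ,
    Cl j (C (ef (l + 1))) (fun n κ => fF (Q n κ) (w n κ) (l + 1)) ∧
    Cl j (C (ef (l + 2))) (fun n κ => fF (Q n κ) (w n κ) (l + 2)) := by
  intro l
  induction l with
  | zero =>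
    refine ⟨?_, ?_⟩
    · have := hw.neg
      simp only [ef, fF]
      simpa using this
    · have := ((hw.mul (hw.add (Cl.const j 1))).mul hQ).sub (Cl.const j 1)
      simp only [ef, fF]
      simpa using this
  | succ l ih =>
    refine ⟨ih.2, ?_⟩
    change Cl j (C (ef (l + 3))) (fun n κ => fF (Q n κ) (w n κ) (l + 3))
    have h1 := hQ.mul (((hw.add (Cl.const j ((l : ℝ) + 2))).neg.mul ih.2).sub
      (ih.1.cmul ((l : ℝ) + 2)))
    rw [zero_mul] at h1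
    simp only [ef, fF, C_0]
    exact h1

/-- leading constants of `g_l` -/
noncomputable def eg (l : ℕ) : ℝ := -((l : ℝ) + 2) * ef (l + 2) - ((l : ℝ) + 2) * ef (l + 1)

lemma gF_class {j : ℕ} {w Q : ℕ → ℕ → ℝ} (hw : Cl j 0 w) (hQ : Cl j 0 Q) (l : ℕ) :
    Cl j (C (eg l)) (fun n κ => gF (Q n κ) (w n κ) l) := by
  have ih := fF_class hw hQ l
  have h1 := (((hw.add (Cl.const j ((l : ℝ) + 2))).neg.mul ih.2).sub
      (ih.1.cmul ((l : ℝ) + 2)))
  rw [zero_add, ← C_neg, ← C_mul, ← C_mul, ← C_sub] at h1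
  exact h1

lemma eg_sum (b : ℕ → ℝ) (K : ℕ) :
    ∑ l ∈ range (K + 2), b (l + 2) * eg l = 2 * b 2 + 3 * b 3 := by
  rw [Finset.sum_range_succ', Finset.sum_range_succ']
  have : ∑ l ∈ range K, b (l + 1 + 1 + 2) * eg (l + 1 + 1) = 0 := by
    refine Finset.sum_eq_zero fun l _ => ?_
    simp [eg, ef]
  rw [this]
  simp [eg, ef]
  ring

section
variable (w : ℕ → ℕ → ℝ)

/-- one bootstrapping step -/
theorem boot_step (hB1 : S_B1)
    (hW2 : ∀ κ, ∀ᶠ n : ℕ in atTop, w n κ ∈ Set.Icc (-1 : ℝ) 0)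
    (hW3 : ∀ κ L : ℕ, (fun n : ℕ => ∑ l ∈ range L, β (n - 2) l *
      q (((n + κ : ℕ) : ℝ) + w n κ) (n + κ) (l + 1)) =O[atTop]
      fun n : ℕ => (n : ℝ) ^ 12 / (n : ℝ) ^ (L / 2))
    (j : ℕ) (hw : Cl j 0 w) :
    Cl j (C (-((∑' i : ℕ, 1 / ((i : ℝ) + 1) ^ 2) + ∑' i : ℕ, 1 / ((i : ℝ) + 1) ^ 3)) *
      ∑ i ∈ range (j + 1), (-X) ^ i) (fun n κ => (n : ℝ) * w n κ) := by
  obtain ⟨b, hb, hb0, hb1, hb2, hb3⟩ := β_class hB1
  have hr : Cl (j + 1) X (fun n κ => (κ : ℝ) / (n : ℝ) + 1 / (n : ℝ) * w n κ) := by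
    have := (Cl.v (j + 1)).add hw.umul
    simpa using this
  have hq' := Cl.inv (by omega : 1 ≤ j + 1) (by simp) hr
  have hQ0 : Cl (j + 2) 0 (fun n κ => 1 / (((n + κ : ℕ) : ℝ) + w n κ)) := by
    refine hq'.umul.congr' fun κ => ?_
    filter_upwards [eventually_ge_atTop 1] with n hn
    have hn' : (n : ℝ) ≠ 0 := by positivity
    rw [one_div_mul_one_div]
    congr 1
    push_cast
    field_simp
    ring
  have hQ : Cl j 0 (fun n κ => 1 / (((n + κ : ℕ) : ℝ) + w n κ)) := hQ0.mono (by omega)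
  set K := 2 * j + 24 with hK
  have hS : Cl j (∑ l ∈ range (K + 2), C (b (l + 2)) * C (eg l))
      (fun n κ => ∑ l ∈ range (K + 2), β (n - 2) (l + 2) *
        gF (1 / (((n + κ : ℕ) : ℝ) + w n κ)) (w n κ) l) :=
    Cl.sum _ fun l _ => (hb (l + 2) j).mul (gF_class hw hQ l)
  have hlead : (∑ l ∈ range (K + 2), (C (b (l + 2)) * C (eg l) : ℝ[X])) =
      C (-((∑' i : ℕ, 1 / ((i : ℝ) + 1) ^ 2) + ∑' i : ℕ, 1 / ((i : ℝ) + 1) ^ 3)) := by
    have : (∑ l ∈ range (K + 2), (C (b (l + 2)) * C (eg l) : ℝ[X])) =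
        C (∑ l ∈ range (K + 2), b (l + 2) * eg l) := by
      rw [map_sum]; simp only [C_mul]
    rw [this, eg_sum, hb2, hb3]
    congr 1
    ring
  rw [hlead] at hS
  have hω := hS.mul (hq'.mono (Nat.le_succ j))
  refine hω.congr fun κ => ?_
  -- the difference is `n (n+κ+w) E`
  have hE := hW3 κ (K + 4)
  have hb1' : (fun n : ℕ => (((n + κ : ℕ) : ℝ) + w n κ)) =O[atTop] fun n : ℕ => (n : ℝ) := by
    refine IsBigO.of_bound (κ + 2) ?_
    filter_upwards [hW2 κ, eventually_ge_atTop 1] with n hn hn1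
    have h1 : (1 : ℝ) ≤ n := by exact_mod_cast hn1
    have hk : (0 : ℝ) ≤ κ := Nat.cast_nonneg κ
    rw [Real.norm_eq_abs, Real.norm_eq_abs, abs_of_nonneg (by linarith : (0 : ℝ) ≤ n), abs_le]
    push_cast
    constructor <;> nlinarith [hn.1, hn.2]
  have hnE := ((isBigO_refl (fun n : ℕ => (n : ℝ)) atTop).mul hb1').mul hE
  refine (hnE.congr' ?_ ?_)
  · filter_upwards [hW2 κ, eventually_ge_atTop 2] with n hn hn2
    have h1 : (2 : ℝ) ≤ n := by exact_mod_cast hn2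
    have hk : (0 : ℝ) ≤ κ := Nat.cast_nonneg κ
    have hpos : 0 < ((n + κ : ℕ) : ℝ) + w n κ := by push_cast; linarith [hn.1]
    have hn0 : (n : ℝ) ≠ 0 := by positivity
    have e1 : ∑ l ∈ range (K + 4), β (n - 2) l * q (((n + κ : ℕ) : ℝ) + w n κ) (n + κ) (l + 1) =
        (1 / (((n + κ : ℕ) : ℝ) + w n κ)) ^ 2 * (∑ l ∈ range (K + 2), β (n - 2) (l + 2) *
        gF (1 / (((n + κ : ℕ) : ℝ) + w n κ)) (w n κ) l) - w n κ * (1 / (((n + κ : ℕ) : ℝ) + w n κ)) := by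
      rw [show K + 4 = (K + 2) + 1 + 1 from rfl, Finset.sum_range_succ', Finset.sum_range_succ',
        β_zero, show 0 + 1 = 1 from rfl, β_one, Finset.mul_sum]
      have e2 : q (((n + κ : ℕ) : ℝ) + w n κ) (n + κ) 1 =
          -(w n κ * (1 / (((n + κ : ℕ) : ℝ) + w n κ))) := by
        simp only [q]; field_simp; ring
      rw [e2, zero_mul, add_zero, one_mul, ← sub_eq_add_neg]
      congr 1
      refine Finset.sum_congr rfl fun l _ => ?_
      rw [show l + 1 + 1 + 1 = l + 3 from rfl, q_eq_g _ _ hpos.ne']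
      ring
    rw [e1]
    set S := ∑ l ∈ range (K + 2), β (n - 2) (l + 2) *
        gF (1 / (((n + κ : ℕ) : ℝ) + w n κ)) (w n κ) l with hSdef
    have e3 : 1 + ((κ : ℝ) / (n : ℝ) + 1 / (n : ℝ) * w n κ) =
        (((n + κ : ℕ) : ℝ) + w n κ) / n := by
      push_cast; field_simp; ring
    rw [e3]
    field_simp
  · filter_upwards [eventually_ge_atTop 1] with n hn
    have hn0 : (n : ℝ) ≠ 0 := by positivity
    have : (K + 4) / 2 = j + 14 := by omega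
    rw [this, one_div_pow, show j + 14 = 14 + j by ring, pow_add]
    field_simp

theorem boot (hB1 : S_B1)
    (hW2 : ∀ κ, ∀ᶠ n : ℕ in atTop, w n κ ∈ Set.Icc (-1 : ℝ) 0)
    (hW3 : ∀ κ L : ℕ, (fun n : ℕ => ∑ l ∈ range L, β (n - 2) l *
      q (((n + κ : ℕ) : ℝ) + w n κ) (n + κ) (l + 1)) =O[atTop]
      fun n : ℕ => (n : ℝ) ^ 12 / (n : ℝ) ^ (L / 2)) (j : ℕ) :
    Cl j (C (-((∑' i : ℕ, 1 / ((i : ℝ) + 1) ^ 2) + ∑' i : ℕ, 1 / ((i : ℝ) + 1) ^ 3)) *
      ∑ i ∈ range (j + 1), (-X) ^ i) (fun n κ => (n : ℝ) * w n κ) := by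
  have hw : ∀ j, Cl j 0 w := by
    intro j
    induction j with
    | zero =>
      refine Cl.of_O fun κ => ?_
      simp only [pow_zero]
      refine IsBigO.of_bound 1 ?_
      filter_upwards [hW2 κ] with n hn
      rw [Real.norm_eq_abs, norm_one, mul_one, abs_le]
      constructor <;> linarith [hn.1, hn.2]
    | succ j ih =>
      have h1 := (boot_step w hB1 hW2 hW3 j ih).umul
      refine h1.congr' fun κ => ?_
      filter_upwards [eventually_ge_atTop 1] with n hn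
      have hn0 : (n : ℝ) ≠ 0 := by positivity
      field_simp
  exact boot_step w hB1 hW2 hW3 j (hw j)

end

end R308.LNK
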