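import Mathlib
import Pool.Agent.R308.LNK.Defs

/-!
The explicit formula
`L_{n,k}(X) = (-1)^{k+1} (k/n) ∏_{j=1}^{n-1} (1 - D/j) X^{n+k-1}` for `n, k ≥ 1`.
-/

namespace R308.LNK

open Polynomial Finset

/-- the antiderivative `∫_0^X p` -/
noncomputable def antideriv (p : ℚ[X]) : ℚ[X] :=
  p.sum fun i a => monomial (i + 1) (a / ((i : ℚ) + 1))

/-- `L_0 = -X`, `L_{n+1} = -L_n + n ∫_0^X L_n` -/
noncomputable def L : ℕ → ℚ[X]
  | 0 => -X
  | (n + 1) => -L n + C (n : ℚ) * antideriv (L n)

/-- `F = ∑ L_n T^n` -/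
noncomputable def F : PowerSeries ℚ[X] := PowerSeries.mk L

/-- `L_{n,k}`: the coefficient of `T^n` in `F^k` -/
noncomputable def Lk (n k : ℕ) : ℚ[X] := PowerSeries.coeff n (F ^ k)

lemma derivative_antideriv (p : ℚ[X]) : derivative (antideriv p) = p := by
  unfold antideriv
  rw [Polynomial.sum_def, derivative_sum]
  conv_rhs => rw [p.as_sum_support]
  refine Finset.sum_congr rfl fun i _ => ?_
  rw [derivative_monomial]
  congr 1
  have : ((i : ℚ) + 1) ≠ 0 := by positivity
  push_cast
  field_simp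

lemma coeff_antideriv (p : ℚ[X]) : (antideriv p).coeff 0 = 0 := by
  unfold antideriv
  rw [Polynomial.sum_def, finsetSum_coeff]
  refine Finset.sum_eq_zero fun i _ => ?_
  rw [coeff_monomial, if_neg (by omega)]

lemma L_coeff (n : ℕ) : (L n).coeff 0 = 0 := by
  induction n with
  | zero => simp [L]
  | succ n ih => simp [L, ih, coeff_antideriv]

lemma L_deriv (n : ℕ) : derivative (L (n + 1)) = -derivative (L n) + C (n : ℚ) * L n := by
  simp only [L, derivative_add, derivative_neg, derivative_mul, derivative_C, zero_mul, zero_add,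
    derivative_antideriv]

/-- coefficientwise derivative -/
noncomputable def dX (f : PowerSeries ℚ[X]) : PowerSeries ℚ[X] :=
  PowerSeries.mk fun n => derivative (PowerSeries.coeff n f)

/-- `T d/dT` -/
noncomputable def th (f : PowerSeries ℚ[X]) : PowerSeries ℚ[X] :=
  PowerSeries.mk fun n => (n : ℚ[X]) * PowerSeries.coeff n f

lemma dX_add (f g : PowerSeries ℚ[X]) : dX (f + g) = dX f + dX g := by
  ext n : 1; simp [dX]

lemma th_add (f g : PowerSeries ℚ[X]) : th (f + g) = th f + th g := by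
  ext n : 1; simp [th, mul_add]

lemma dX_mul (f g : PowerSeries ℚ[X]) : dX (f * g) = dX f * g + f * dX g := by
  ext n : 1
  simp only [dX, PowerSeries.coeff_mk, PowerSeries.coeff_mul, map_add, derivative_sum,
    derivative_mul, Finset.sum_add_distrib]

lemma th_mul (f g : PowerSeries ℚ[X]) : th (f * g) = th f * g + f * th g := by
  ext n : 1
  simp only [th, PowerSeries.coeff_mk, PowerSeries.coeff_mul, map_add]
  rw [Finset.mul_sum, ← Finset.sum_add_distrib]
  refine Finset.sum_congr rfl fun p hp => ?_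
  rw [← Finset.HasAntidiagonal.mem_antidiagonal.1 hp]
  push_cast
  ring

lemma dX_th (f : PowerSeries ℚ[X]) : dX (th f) = th (dX f) := by
  ext n : 1
  simp [dX, th]

lemma dX_one : dX 1 = 0 := by
  ext n : 1
  rcases n with _ | n <;> simp [dX, PowerSeries.coeff_one]

lemma th_one : th 1 = 0 := by
  ext n : 1
  rcases n with _ | n <;> simp [th, PowerSeries.coeff_one]

lemma dX_X : dX (PowerSeries.X) = 0 := by
  ext n : 1
  simp only [dX, PowerSeries.coeff_mk, PowerSeries.coeff_X]
  split_ifs <;> simp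

lemma th_X : th (PowerSeries.X) = PowerSeries.X := by
  ext n : 1
  simp only [th, PowerSeries.coeff_mk, PowerSeries.coeff_X]
  split_ifs with h
  · simp [h]
  · simp

lemma eqA : (1 + PowerSeries.X) * dX F + 1 = PowerSeries.X * th F := by
  ext n : 1
  rcases n with _ | n
  · simp [add_mul, dX, F, L, th]
  · simp only [add_mul, one_mul, map_add, PowerSeries.coeff_succ_X_mul, dX, th, F,
      PowerSeries.coeff_mk, PowerSeries.coeff_one, L_deriv]
    simp

lemma eqA_dX : (1 + PowerSeries.X) * dX (dX F) = PowerSeries.X * th (dX F) := by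
  have h := congrArg dX eqA
  rw [dX_add, dX_mul, dX_mul, dX_add, dX_one, dX_X, dX_th] at h
  linear_combination h

lemma eqA_th : PowerSeries.X * dX F + (1 + PowerSeries.X) * th (dX F) =
    PowerSeries.X * th F + PowerSeries.X * th (th F) := by
  have h := congrArg th eqA
  rw [th_add, th_mul, th_mul, th_add, th_one, th_X] at h
  linear_combination h

lemma poly_zero {K : Type*} [Field K] [CharZero K] {p : K[X]} (h : derivative p = 0)
    (h0 : p.coeff 0 = 0) : p = 0 := by
  have := derivative_eq_zero.1 h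
  rw [eq_C_of_natDegree_eq_zero this, h0, C_0]

lemma eqB : F * dX F + F + th F = 0 := by
  set E := F * dX F + F + th F with hE
  have h1 : (1 + PowerSeries.X) * dX E = PowerSeries.X * th E := by
    rw [hE]
    simp only [dX_add, dX_mul, th_add, th_mul, dX_th]
    linear_combination dX F * eqA + F * eqA_dX + eqA_th
  have h0 : ∀ n, (PowerSeries.coeff n E).coeff 0 = 0 := by
    intro n
    rw [hE, map_add, map_add, PowerSeries.coeff_mul, coeff_add, coeff_add, finsetSum_coeff]
    have : ∀ x ∈ antidiagonal n, ((PowerSeries.coeff x.1 F) *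
        (PowerSeries.coeff x.2 (dX F))).coeff 0 = 0 := by
      intro x _
      rw [mul_coeff_zero]
      simp [F, L_coeff]
    rw [Finset.sum_eq_zero this]
    simp [th, F, L_coeff, mul_coeff_zero]
  have h2 : ∀ n, PowerSeries.coeff n E = 0 := by
    intro n
    induction n with
    | zero =>
      refine poly_zero ?_ (h0 0)
      have := congrArg (PowerSeries.coeff 0) h1
      simpa [add_mul, dX] using this
    | succ n ih =>
      refine poly_zero ?_ (h0 _)
      have := congrArg (PowerSeries.coeff (n + 1)) h1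
      simp only [add_mul, one_mul, map_add, PowerSeries.coeff_succ_X_mul, dX, th,
        PowerSeries.coeff_mk, ih] at this
      simpa using this
  ext n : 1
  rw [h2 n]
  simp

lemma Fpow (j : ℕ) : (j + 1 : PowerSeries ℚ[X]) * dX (F ^ (j + 2)) =
    -((j + 2 : PowerSeries ℚ[X]) * ((j + 1 : PowerSeries ℚ[X]) * F ^ (j + 1) + th (F ^ (j + 1)))) := by
  have hd : ∀ i : ℕ, dX (F ^ (i + 1)) = ((i : PowerSeries ℚ[X]) + 1) * F ^ i * dX F := by
    intro i
    induction i with
    | zero => simp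
    | succ i ih => rw [pow_succ, dX_mul, ih]; push_cast; ring
  have ht : ∀ i : ℕ, th (F ^ (i + 1)) = ((i : PowerSeries ℚ[X]) + 1) * F ^ i * th F := by
    intro i
    induction i with
    | zero => simp
    | succ i ih => rw [pow_succ, th_mul, ih]; push_cast; ring
  rw [hd, ht]
  push_cast
  linear_combination ((j : PowerSeries ℚ[X]) + 1) * ((j : PowerSeries ℚ[X]) + 2) * F ^ j * eqB

lemma Lk_deriv (n j : ℕ) : (j + 1 : ℚ[X]) * derivative (Lk n (j + 2)) =
    -((j + 2 : ℚ[X]) * ((n : ℚ[X]) + j + 1) * Lk n (j + 1)) := by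
  have h := congrArg (PowerSeries.coeff n) (Fpow j)
  have e1 : ∀ (a : ℕ) (f : PowerSeries ℚ[X]),
      PowerSeries.coeff n ((a : PowerSeries ℚ[X]) * f) = (a : ℚ[X]) * PowerSeries.coeff n f := by
    intro a f
    rw [← nsmul_eq_mul, map_nsmul, nsmul_eq_mul]
  have c1 : (j + 1 : PowerSeries ℚ[X]) = ((j + 1 : ℕ) : PowerSeries ℚ[X]) := by push_cast; ring
  have c2 : (j + 2 : PowerSeries ℚ[X]) = ((j + 2 : ℕ) : PowerSeries ℚ[X]) := by push_cast; ring
  rw [c1, c2, e1, map_neg, e1, map_add, e1] at h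
  simp only [dX, th, PowerSeries.coeff_mk] at h
  change ((j + 1 : ℕ) : ℚ[X]) * derivative (Lk n (j + 2)) = -(((j + 2 : ℕ) : ℚ[X]) *
    (((j + 1 : ℕ) : ℚ[X]) * Lk n (j + 1) + (n : ℚ[X]) * Lk n (j + 1))) at h
  push_cast at h
  linear_combination h

lemma Lk_coeff (n k : ℕ) : (Lk n (k + 1)).coeff 0 = 0 := by
  unfold Lk
  rw [pow_succ, PowerSeries.coeff_mul, finsetSum_coeff]
  refine Finset.sum_eq_zero fun x _ => ?_
  rw [mul_coeff_zero]
  simp [F, L_coeff]

lemma Lk_one (n : ℕ) : Lk n 1 = L n := by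
  simp [Lk, F]

/-! ### the polynomials `P m N` -/

lemma P_def' (m N : ℕ) : P m N = ∑ a ∈ range (m + 1),
    C ((G m).coeff a * (N.descFactorial a : ℝ)) * X ^ (N - a) := by
  have hdeg : (G m).natDegree < m + 1 := by
    unfold G
    refine lt_of_le_of_lt (natDegree_prod_le _ _) (Nat.lt_succ_of_le ?_)
    refine (Finset.sum_le_card_nsmul _ _ 1 fun i _ => ?_).trans (by simp)
    refine (natDegree_sub_le _ _).trans ?_
    simp only [natDegree_one]
    refine max_le (by norm_num) ((natDegree_C_mul_le _ _).trans natDegree_X_le)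
  unfold P
  rw [aeval_eq_sum_range' hdeg, LinearMap.sum_apply]
  refine Finset.sum_congr rfl fun a _ => ?_
  have h1 : (Dm ^ a) (X ^ N) = derivative^[a] (X ^ N : ℝ[X]) := by
    rw [Module.End.pow_apply]; rfl
  rw [LinearMap.smul_apply, h1, iterate_derivative_X_pow_eq_C_mul, smul_eq_C_mul, ← mul_assoc, ← C_mul]

lemma P_coeff_zero {m N : ℕ} (h : m < N) : (P m N).coeff 0 = 0 := by
  rw [P_def', finsetSum_coeff]
  refine Finset.sum_eq_zero fun a ha => ?_
  have : a < m + 1 := Finset.mem_range.1 ha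
  rw [coeff_C_mul, coeff_X_pow, if_neg (by omega), mul_zero]

lemma P_derivative (m N : ℕ) : derivative (P m (N + 1)) = C ((N : ℝ) + 1) * P m N := by
  have hcomm : Dm * aeval Dm (G m) = aeval Dm (G m) * Dm := by
    have := congrArg (aeval Dm) (mul_comm (X : ℝ[X]) (G m))
    rwa [map_mul, map_mul, aeval_X] at this
  have h2 : derivative (P m (N + 1)) = (Dm * aeval Dm (G m)) (X ^ (N + 1)) := rfl
  rw [h2, hcomm]
  change (aeval Dm (G m)) (derivative (X ^ (N + 1))) = _
  rw [derivative_X_pow, Nat.add_sub_cancel, ← smul_eq_C_mul, map_smul, smul_eq_C_mul]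
  unfold P
  push_cast
  rfl

lemma P_succ (m N : ℕ) :
    P (m + 1) N = P m N - C (1 / ((m : ℝ) + 1)) * derivative (P m N) := by
  unfold P
  have : G (m + 1) = (1 - C (1 / ((m : ℝ) + 1)) * X) * G m := by
    unfold G; rw [Finset.prod_range_succ, mul_comm]
  rw [this, aeval_mul, Module.End.mul_apply]
  simp only [map_sub, map_one, map_mul, aeval_X, aeval_C, LinearMap.sub_apply,
    Module.End.one_apply, Module.End.mul_apply, Module.algebraMap_end_apply]
  rw [smul_eq_C_mul]
  rfl

lemma P_zero (N : ℕ) : P 0 N = X ^ N := by simp [P, G]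

/-- the real polynomial `L_{n,k}` -/
noncomputable def LkR (n k : ℕ) : ℝ[X] := (Lk n k).map (algebraMap ℚ ℝ)

lemma LR_deriv (n : ℕ) : derivative (LkR (n + 1) 1) =
    -derivative (LkR n 1) + C (n : ℝ) * LkR n 1 := by
  unfold LkR
  rw [Lk_one, Lk_one, derivative_map, L_deriv]
  simp [derivative_map]

lemma LkR_coeff (n k : ℕ) : (LkR n (k + 1)).coeff 0 = 0 := by
  simp [LkR, Lk_coeff]

theorem formula_one (m : ℕ) : LkR (m + 1) 1 = C (1 / ((m : ℝ) + 1)) * P m (m + 1) := by
  induction m with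
  | zero => simp [LkR, Lk_one, L, P_zero]
  | succ m ih =>
    have hm : ((m : ℝ) + 1) ≠ 0 := by positivity
    have hm2 : ((m : ℝ) + 2) ≠ 0 := by positivity
    refine sub_eq_zero.1 (poly_zero ?_ ?_)
    · have hd1 : derivative (P (m + 1) (m + 1 + 1)) =
          C (((m + 1 : ℕ) : ℝ) + 1) * P (m + 1) (m + 1) := P_derivative _ _
      have hs := P_succ m (m + 1)
      rw [derivative_sub, LR_deriv, ih, derivative_mul, derivative_mul, derivative_C, derivative_C,
        hd1]
      simp only [zero_mul, zero_add]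
      have e1 : C (1 / (((m + 1 : ℕ) : ℝ) + 1)) * (C (((m + 1 : ℕ) : ℝ) + 1) : ℝ[X]) = 1 := by
        rw [← C_mul]; push_cast
        rw [show (1 : ℝ) / (m + 1 + 1) * (m + 1 + 1) = 1 by field_simp, C_1]
      have e2 : (C (1 / ((m : ℝ) + 1)) : ℝ[X]) * C ((m : ℝ) + 1) = 1 := by
        rw [← C_mul, one_div_mul_cancel hm, C_1]
      have e3 : (C (((m + 1 : ℕ) : ℝ)) : ℝ[X]) = C ((m : ℝ) + 1) := by push_cast; rfl
      rw [e3]
      linear_combination (P m (m + 1)) * e2 - P (m + 1) (m + 1) * e1 - hs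
    · rw [coeff_sub, LkR_coeff, coeff_C_mul, P_coeff_zero (by omega)]
      simp

/-- the explicit formula for `L_{n,k}` -/
theorem formula (m k : ℕ) : LkR (m + 1) (k + 1) =
    C ((-1) ^ k * ((k : ℝ) + 1) / ((m : ℝ) + 1)) * P m (m + 1 + k) := by
  induction k with
  | zero => simpa using formula_one m
  | succ k ih =>
    have hk : ((k : ℝ) + 1) ≠ 0 := by positivity
    have hm : ((m : ℝ) + 1) ≠ 0 := by positivity
    have h := congrArg (Polynomial.map (algebraMap ℚ ℝ)) (Lk_deriv (m + 1) k)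
    simp only [Polynomial.map_mul, Polynomial.map_neg, Polynomial.map_add, Polynomial.map_natCast,
      Polynomial.map_one, Polynomial.map_ofNat, ← derivative_map] at h
    change ((k : ℝ[X]) + 1) * derivative (LkR (m + 1) (k + 2)) =
      -(((k : ℝ[X]) + 2) * (((m + 1 : ℕ) : ℝ[X]) + k + 1) * LkR (m + 1) (k + 1)) at h
    refine sub_eq_zero.1 (poly_zero ?_ ?_)
    · have hk' : ((k : ℝ[X]) + 1) ≠ 0 := by
        have : ((k : ℝ[X]) + 1) = C ((k : ℝ) + 1) := by simp
        rw [this]; exact C_ne_zero.2 hk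
      refine (mul_eq_zero.1 ?_).resolve_left hk'
      rw [derivative_sub, mul_sub, h, ih, derivative_mul, derivative_C, zero_mul, zero_add,
        show m + 1 + (k + 1) = (m + 1 + k) + 1 by ring, P_derivative]
      have e : (k : ℝ[X]) = C (k : ℝ) := by simp
      have e2 : ((m + 1 : ℕ) : ℝ[X]) = C ((m : ℝ) + 1) := by simp
      rw [e, e2]
      have : (C ((k : ℝ) + 1) : ℝ[X]) * (C ((-1) ^ (k + 1) * (((k + 1 : ℕ) : ℝ) + 1) /
          ((m : ℝ) + 1)) * (C (((m + 1 + k : ℕ) : ℝ) + 1))) =
          -(C ((k : ℝ) + 2) * C ((m : ℝ) + 1 + k + 1) *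
            C ((-1) ^ k * ((k : ℝ) + 1) / ((m : ℝ) + 1))) := by
        rw [← C_mul, ← C_mul, ← C_mul, ← C_mul, ← C_neg]
        congr 1
        push_cast
        field_simp
        ring
      have e5 : (C (k : ℝ) : ℝ[X]) + 1 = C ((k : ℝ) + 1) := by simp
      have e6 : (C (k : ℝ) : ℝ[X]) + 2 = C ((k : ℝ) + 2) := by
        rw [C_add]; congr 1
      have e7 : (C ((m : ℝ) + 1) : ℝ[X]) + C (k : ℝ) + 1 = C ((m : ℝ) + 1 + k + 1) := by simp
      rw [e5, e6, e7]
      linear_combination (-P m (m + 1 + k)) * this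
    · rw [coeff_sub, LkR_coeff, coeff_C_mul, P_coeff_zero (by omega)]
      simp

end R308.LNK
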