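import Mathlib
import Pool.Agent.R308.LNK.Formula

/-!
Real-rootedness of `P m N` (all roots real and nonnegative), and the barrier bound: all roots of
`P (m+1) N` are at most `N + H m`.
-/

namespace R308.LNK

open Polynomial Finset

/-- `∏ (X - a)` -/
noncomputable def pr {K : Type*} [Field K] (s : Multiset K) : K[X] := (s.map fun a => X - C a).prod

/-- `∑ 1/(y-a)` -/
noncomputable def S1 {K : Type*} [Field K] (s : Multiset K) (y : K) : K :=
  (s.map fun a => 1 / (y - a)).sum

/-- `∑ 1/(y-a)^2` -/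
noncomputable def S2 (s : Multiset ℝ) (y : ℝ) : ℝ := (s.map fun a => 1 / (y - a) ^ 2).sum

lemma pr_cons {K : Type*} [Field K] (a : K) (s : Multiset K) :
    pr (a ::ₘ s) = (X - C a) * pr s := by
  simp [pr]

lemma S1_cons {K : Type*} [Field K] (a : K) (s : Multiset K) (y : K) :
    S1 (a ::ₘ s) y = 1 / (y - a) + S1 s y := by
  simp [S1]

lemma S2_cons (a : ℝ) (s : Multiset ℝ) (y : ℝ) :
    S2 (a ::ₘ s) y = 1 / (y - a) ^ 2 + S2 s y := by
  simp [S2]

lemma eval_pr_deriv {K : Type*} [Field K] (s : Multiset K) (y : K) (h : ∀ a ∈ s, y ≠ a) :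
    eval y (derivative (pr s)) = eval y (pr s) * S1 s y := by
  induction s using Multiset.induction_on with
  | empty => simp [pr, S1]
  | cons a s ih =>
    have ha : y - a ≠ 0 := sub_ne_zero.2 (h a (Multiset.mem_cons_self a s))
    rw [pr_cons, S1_cons, derivative_mul, eval_add, eval_mul, eval_mul, eval_mul,
      ih fun b hb => h b (Multiset.mem_cons_of_mem hb)]
    simp only [derivative_sub, derivative_X, derivative_C, sub_zero, eval_one, eval_sub, eval_X,
      eval_C]
    field_simp

lemma eval_pr_deriv2 (s : Multiset ℝ) (y : ℝ) (h : ∀ a ∈ s, y ≠ a) :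
    eval y (derivative (derivative (pr s))) = eval y (pr s) * ((S1 s y) ^ 2 - S2 s y) := by
  induction s using Multiset.induction_on with
  | empty => simp [pr, S1, S2]
  | cons a s ih =>
    have ha : y - a ≠ 0 := sub_ne_zero.2 (h a (Multiset.mem_cons_self a s))
    have hs : ∀ b ∈ s, y ≠ b := fun b hb => h b (Multiset.mem_cons_of_mem hb)
    rw [pr_cons, S1_cons, S2_cons, derivative_mul, derivative_add, derivative_mul, derivative_mul]
    simp only [derivative_sub, derivative_X, derivative_C, sub_zero, eval_one, eval_sub, eval_X,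
      eval_C, derivative_one, zero_mul, one_mul, zero_add, eval_add, eval_mul, ih hs,
      eval_pr_deriv s y hs]
    field_simp
    ring

lemma pr_ne_zero {K : Type*} [Field K] {s : Multiset K} {y : K} (h : ∀ a ∈ s, y ≠ a) :
    eval y (pr s) ≠ 0 := by
  induction s using Multiset.induction_on with
  | empty => simp [pr]
  | cons a s ih =>
    rw [pr_cons, eval_mul]
    refine mul_ne_zero ?_ (ih fun b hb => h b (Multiset.mem_cons_of_mem hb))
    simpa using sub_ne_zero.2 (h a (Multiset.mem_cons_self a s))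

lemma pr_pos {s : Multiset ℝ} {y : ℝ} (h : ∀ a ∈ s, a < y) : 0 < eval y (pr s) := by
  induction s using Multiset.induction_on with
  | empty => simp [pr]
  | cons a s ih =>
    rw [pr_cons, eval_mul]
    refine mul_pos ?_ (ih fun b hb => h b (Multiset.mem_cons_of_mem hb))
    simpa using h a (Multiset.mem_cons_self a s)

lemma pr_root {K : Type*} [Field K] {s : Multiset K} {y : K} (h : y ∈ s) : eval y (pr s) = 0 := by
  unfold pr
  rw [eval_multiset_prod, Multiset.prod_eq_zero_iff, Multiset.map_map, Multiset.mem_map]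
  exact ⟨y, h, by simp⟩

lemma pr_monic {K : Type*} [Field K] (s : Multiset K) : (pr s).Monic :=
  monic_multisetProd_X_sub_C s

lemma pr_map (s : Multiset ℝ) : (pr s).map Complex.ofRealHom = pr (s.map (fun a : ℝ => (a : ℂ))) := by
  unfold pr
  rw [Polynomial.map_multiset_prod, Multiset.map_map, Multiset.map_map]
  congr 1
  refine Multiset.map_congr rfl fun a _ => ?_
  simp

lemma S1_im (s : Multiset ℝ) (z : ℂ) (hz : z.im ≠ 0) :
    ∃ t : ℝ, 0 ≤ t ∧ (S1 (s.map (fun a : ℝ => (a : ℂ))) z).im = -z.im * t ∧ (t = 0 → s = 0) := by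
  induction s using Multiset.induction_on with
  | empty => exact ⟨0, le_rfl, by simp [S1], fun _ => rfl⟩
  | cons a s ih =>
    obtain ⟨t, ht0, ht, -⟩ := ih
    have hne : z - a ≠ 0 := by
      intro h
      apply hz
      have := congrArg Complex.im h
      simpa using this
    have hpos : 0 < Complex.normSq (z - a) := Complex.normSq_pos.2 hne
    refine ⟨1 / Complex.normSq (z - a) + t, by positivity, ?_, fun h => ?_⟩
    · rw [Multiset.map_cons, S1_cons, Complex.add_im, ht]
      rw [one_div, Complex.inv_im]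
      simp only [Complex.sub_im, Complex.ofReal_im, sub_zero]
      ring
    · have : 0 < 1 / Complex.normSq (z - a) := by positivity
      linarith

/-- the operator `p ↦ p - c p'` preserves real-rootedness -/
lemma step_real (s : Multiset ℝ) (c : ℝ) :
    ∃ s' : Multiset ℝ, pr s - C c * derivative (pr s) = pr s' := by
  set p := pr s - C c * derivative (pr s) with hp
  have hmon : p.Monic := by
    refine Monic.sub_of_left (pr_monic s) ?_
    refine lt_of_le_of_lt ?_ (degree_derivative_lt (pr_monic s).ne_zero)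
    refine (degree_mul_le _ _).trans ?_
    calc (C c).degree + (derivative (pr s)).degree ≤ 0 + (derivative (pr s)).degree :=
          add_le_add degree_C_le le_rfl
      _ = _ := zero_add _
  have hroot : ∀ z : ℂ, eval z (p.map Complex.ofRealHom) = 0 → z.im = 0 := by
    intro z hz
    by_contra him
    have hne : ∀ a ∈ s.map (fun a : ℝ => (a : ℂ)), z ≠ a := by
      intro a ha h
      obtain ⟨b, -, rfl⟩ := Multiset.mem_map.1 ha
      apply him
      rw [h]; simp
    have h1 := eval_pr_deriv _ z hne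
    have h2 := pr_ne_zero hne
    rw [hp, Polynomial.map_sub, Polynomial.map_mul, map_C, ← derivative_map, pr_map, eval_sub,
      eval_mul, eval_C, h1] at hz
    have h3 : (1 : ℂ) - c * S1 (s.map (fun a : ℝ => (a : ℂ))) z = 0 := by
      have : eval z (pr (s.map fun a : ℝ => (a : ℂ))) *
          ((1 : ℂ) - c * S1 (s.map (fun a : ℝ => (a : ℂ))) z) = 0 := by
        have e : (Complex.ofRealHom c) = (c : ℂ) := rfl
        rw [e] at hz
        linear_combination hz
      exact (mul_eq_zero.1 this).resolve_left h2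
    obtain ⟨t, ht0, ht, hts⟩ := S1_im s z him
    have h4 := congrArg Complex.im h3
    simp only [Complex.sub_im, Complex.one_im, Complex.re_ofReal_mul, Complex.im_ofReal_mul,
      Complex.zero_im, ht] at h4
    have h5 : c * (z.im * t) = 0 := by linarith
    rcases mul_eq_zero.1 h5 with h | h
    · rw [h] at h3; simp at h3
    · rcases mul_eq_zero.1 h with h | h
      · exact him h
      · have := hts h
        rw [this] at h3
        simp [S1] at h3
  refine ⟨(p.map Complex.ofRealHom).roots.map Complex.re, ?_⟩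
  apply Polynomial.map_injective Complex.ofRealHom Complex.ofRealHom.injective
  rw [pr_map]
  have hsp := (IsAlgClosed.splits (p.map Complex.ofRealHom)).eq_prod_roots_of_monic
    (hmon.map _)
  conv_lhs => rw [hsp]
  unfold pr
  rw [Multiset.map_map, Multiset.map_map]
  congr 1
  refine Multiset.map_congr rfl fun z hz => ?_
  have h0 : eval z (p.map Complex.ofRealHom) = 0 := (mem_roots'.1 hz).2
  have := hroot z h0
  simp only [Function.comp]
  congr 2
  exact Complex.ext rfl (by simpa using this)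

lemma S1_nonpos {s : Multiset ℝ} {y : ℝ} (h : ∀ a ∈ s, y < a) : S1 s y ≤ 0 := by
  induction s using Multiset.induction_on with
  | empty => simp [S1]
  | cons a s ih =>
    rw [S1_cons]
    have h1 := ih fun b hb => h b (Multiset.mem_cons_of_mem hb)
    have h2 := h a (Multiset.mem_cons_self a s)
    have h3 : 1 / (y - a) ≤ 0 := one_div_nonpos.2 (by linarith)
    linarith

lemma step_nonneg {s s' : Multiset ℝ} {c : ℝ} (hc : 0 ≤ c) (hs : ∀ a ∈ s, 0 ≤ a)
    (h : pr s - C c * derivative (pr s) = pr s') : ∀ a ∈ s', 0 ≤ a := by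
  intro a ha
  by_contra hneg
  push Not at hneg
  have hlt : ∀ b ∈ s, a < b := fun b hb => lt_of_lt_of_le hneg (hs b hb)
  have hne : ∀ b ∈ s, a ≠ b := fun b hb => (hlt b hb).ne
  have h1 := pr_root ha
  rw [← h, eval_sub, eval_mul, eval_C, eval_pr_deriv s a hne] at h1
  have h2 := pr_ne_zero hne
  have h3 : 1 - c * S1 s a = 0 := by
    have : eval a (pr s) * (1 - c * S1 s a) = 0 := by linear_combination h1
    exact (mul_eq_zero.1 this).resolve_left h2
  have := mul_nonpos_of_nonneg_of_nonpos hc (S1_nonpos hlt)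
  linarith

/-- all roots of `P m N` are real and nonnegative -/
theorem P_real (m N : ℕ) : ∃ s : Multiset ℝ, (∀ a ∈ s, 0 ≤ a) ∧ P m N = pr s := by
  induction m with
  | zero =>
    refine ⟨Multiset.replicate N 0, fun a ha => ?_, ?_⟩
    · rw [Multiset.eq_of_mem_replicate ha]
    · rw [P_zero]; simp [pr]
  | succ m ih =>
    obtain ⟨s, hs, h⟩ := ih
    obtain ⟨s', hs'⟩ := step_real s (1 / ((m : ℝ) + 1))
    refine ⟨s', step_nonneg (by positivity) hs hs', ?_⟩
    rw [P_succ, h, hs']

/-! ### the barrier argument -/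

lemma S1_anti {s : Multiset ℝ} {x y : ℝ} (h : ∀ a ∈ s, a < x) (hxy : x ≤ y) :
    S1 s y ≤ S1 s x := by
  unfold S1
  refine Multiset.sum_map_le_sum_map _ _ fun a ha => ?_
  have := h a ha
  exact one_div_le_one_div_of_le (by linarith) (by linarith)

lemma S1_nonneg {s : Multiset ℝ} {x : ℝ} (h : ∀ a ∈ s, a < x) : 0 ≤ S1 s x := by
  unfold S1
  refine Multiset.sum_nonneg fun y hy => ?_
  obtain ⟨a, ha, rfl⟩ := Multiset.mem_map.1 hy
  have := h a ha
  exact one_div_nonneg.2 (by linarith)

lemma S2_nonneg {s : Multiset ℝ} {x : ℝ} : 0 ≤ S2 s x := by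
  unfold S2
  refine Multiset.sum_nonneg fun y hy => ?_
  obtain ⟨a, ha, rfl⟩ := Multiset.mem_map.1 hy
  positivity

lemma S1_convex {s : Multiset ℝ} {x h : ℝ} (hs : ∀ a ∈ s, a < x) (hh : 0 ≤ h) :
    S1 s (x + h) + h * S2 s (x + h) ≤ S1 s x := by
  induction s using Multiset.induction_on with
  | empty => simp [S1, S2]
  | cons a s ih =>
    have h1 := ih fun b hb => hs b (Multiset.mem_cons_of_mem hb)
    rw [S1_cons, S1_cons, S2_cons]
    have ha : 0 < x - a := by linarith [hs a (Multiset.mem_cons_self a s)]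
    have h2 : 1 / (x + h - a) + h * (1 / (x + h - a) ^ 2) ≤ 1 / (x - a) := by
      have e : x + h - a = (x - a) + h := by ring
      rw [e]
      set d := x - a
      have hd : 0 < d + h := by linarith
      rw [div_add' _ _ _ hd.ne', div_le_div_iff₀ hd ha]
      have : (h * (1 / (d + h) ^ 2) * (d + h)) = h / (d + h) := by field_simp
      rw [this]
      have h3 : (1 + h / (d + h)) = (d + 2 * h) / (d + h) := by field_simp; ring
      rw [h3, div_mul_eq_mul_div, div_le_iff₀ hd]
      nlinarith [sq_nonneg h]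
    nlinarith

lemma barrier_step {s s' : Multiset ℝ} {x : ℝ} (j : ℕ) (hs : ∀ a ∈ s, a < x) (h1 : S1 s x ≤ 1)
    (h : pr s - C (1 / ((j : ℝ) + 2)) * derivative (pr s) = pr s') :
    (∀ a ∈ s', a < x + 1 / ((j : ℝ) + 1)) ∧ S1 s' (x + 1 / ((j : ℝ) + 1)) ≤ 1 := by
  set c : ℝ := 1 / ((j : ℝ) + 2) with hc
  have hc0 : 0 < c := by positivity
  have hj : (0 : ℝ) ≤ j := Nat.cast_nonneg j
  have hc1 : c ≤ 1 / 2 := by
    rw [hc]; exact one_div_le_one_div_of_le (by norm_num) (by linarith)
  have hlt : ∀ a ∈ s', a < x := by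
    intro a ha
    by_contra hge
    push Not at hge
    have hlt' : ∀ b ∈ s, b < a := fun b hb => lt_of_lt_of_le (hs b hb) hge
    have hne : ∀ b ∈ s, a ≠ b := fun b hb => (hlt' b hb).ne'
    have h2 := pr_root ha
    rw [← h, eval_sub, eval_mul, eval_C, eval_pr_deriv s a hne] at h2
    have h3 : 1 - c * S1 s a = 0 := by
      have : eval a (pr s) * (1 - c * S1 s a) = 0 := by linear_combination h2
      exact (mul_eq_zero.1 this).resolve_left (pr_ne_zero hne)
    have h4 : S1 s a ≤ 1 := (S1_anti hs hge).trans h1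
    nlinarith
  set g : ℝ := 1 / ((j : ℝ) + 1) with hg
  have hg0 : 0 < g := by positivity
  refine ⟨fun a ha => by linarith [hlt a ha], ?_⟩
  set y := x + g with hy
  have hxy : x ≤ y := by linarith
  have hsy : ∀ a ∈ s, a < y := fun a ha => lt_of_lt_of_le (hs a ha) hxy
  have hsy' : ∀ a ∈ s', a < y := fun a ha => lt_of_lt_of_le (hlt a ha) hxy
  have hne : ∀ a ∈ s, y ≠ a := fun a ha => (hsy a ha).ne'
  have hne' : ∀ a ∈ s', y ≠ a := fun a ha => (hsy' a ha).ne'
  have e1 := eval_pr_deriv s' y hne'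
  have e0 := eval_pr_deriv s y hne
  have e2 := eval_pr_deriv2 s y hne
  have p0 := pr_pos hsy
  have e3 : eval y (pr s') = eval y (pr s) * (1 - c * S1 s y) := by
    rw [← h, eval_sub, eval_mul, eval_C, e0]; ring
  have e4 : eval y (derivative (pr s')) =
      eval y (pr s) * (S1 s y - c * ((S1 s y) ^ 2 - S2 s y)) := by
    rw [← h, derivative_sub, derivative_mul, derivative_C, zero_mul, zero_add, eval_sub, eval_mul,
      eval_C, e0, e2]; ring
  have hS := (S1_anti hs hxy).trans h1
  have hS0 := S1_nonneg hsy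
  have hV : 0 ≤ S2 s y := S2_nonneg
  have hconv := S1_convex hs hg0.le
  rw [← hy] at hconv
  have e5 : S1 s' y * (1 - c * S1 s y) = S1 s y - c * ((S1 s y) ^ 2 - S2 s y) := by
    have : eval y (pr s) * (S1 s' y * (1 - c * S1 s y)) =
        eval y (pr s) * (S1 s y - c * ((S1 s y) ^ 2 - S2 s y)) := by
      rw [← e4, e1, e3]; ring
    exact mul_left_cancel₀ p0.ne' this
  have hpos : 0 < 1 - c * S1 s y := by nlinarith
  have hcg : c = g * (1 - c) := by
    rw [hc, hg]; field_simp; ring
  have key : S1 s y - c * ((S1 s y) ^ 2 - S2 s y) ≤ 1 * (1 - c * S1 s y) := by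
    have h7 : g * S2 s y ≤ 1 - S1 s y := by linarith
    have h8 : c * S2 s y = (1 - c) * (g * S2 s y) := by
      calc c * S2 s y = (g * (1 - c)) * S2 s y := by rw [← hcg]
        _ = _ := by ring
    nlinarith [mul_le_mul_of_nonneg_left h7 (by linarith : (0 : ℝ) ≤ 1 - c),
      mul_nonneg (by linarith : (0 : ℝ) ≤ 1 - S1 s y) (mul_nonneg hc0.le (by linarith : (0 : ℝ) ≤ 1 - S1 s y))]
  rw [← e5] at key
  exact le_of_mul_le_mul_right key hpos

/-- `B m N = ∏_{j=2}^{m+1} (1 - D/j) X^N` -/
noncomputable def B : ℕ → ℕ → ℝ[X]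
  | 0, N => X ^ N
  | (m + 1), N => B m N - C (1 / ((m : ℝ) + 2)) * derivative (B m N)

lemma P_eq_B (m N : ℕ) : P (m + 1) N = B m N - derivative (B m N) := by
  induction m with
  | zero => rw [P_succ, P_zero]; simp [B]
  | succ m ih =>
    rw [P_succ, ih]
    have e : (((m + 1 : ℕ) : ℝ) + 1) = (m : ℝ) + 2 := by push_cast; ring
    simp only [B, e, derivative_sub, derivative_mul, derivative_C]
    ring

lemma B_barrier (m : ℕ) {N : ℕ} (hN : 1 ≤ N) : ∃ s : Multiset ℝ, B m N = pr s ∧
    (∀ a ∈ s, a < (N : ℝ) + H m) ∧ S1 s ((N : ℝ) + H m) ≤ 1 := by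
  have hN' : (0 : ℝ) < N := by exact_mod_cast hN
  induction m with
  | zero =>
    refine ⟨Multiset.replicate N 0, by simp [B, pr], fun a ha => ?_, ?_⟩
    · rw [Multiset.eq_of_mem_replicate ha]
      simpa [H] using hN'
    · simp [S1, H, hN'.ne']
  | succ m ih =>
    obtain ⟨s, hB, hs, h1⟩ := ih
    obtain ⟨s', hs'⟩ := step_real s (1 / ((m : ℝ) + 2))
    obtain ⟨h2, h3⟩ := barrier_step m hs h1 hs'
    have e : (N : ℝ) + H (m + 1) = (N : ℝ) + H m + 1 / ((m : ℝ) + 1) := by
      unfold H; rw [Finset.sum_range_succ]; ring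
    refine ⟨s', ?_, ?_, ?_⟩
    · simp only [B]; rw [hB, hs']
    · rw [e]; exact h2
    · rw [e]; exact h3

/-- barrier bound: `P (m+1) N` is positive to the right of `N + H m` -/
theorem P_pos (m : ℕ) {N : ℕ} (hN : 1 ≤ N) {x : ℝ} (hx : (N : ℝ) + H m < x) :
    0 < (P (m + 1) N).eval x := by
  obtain ⟨s, hB, hs, h1⟩ := B_barrier m hN
  have hsx : ∀ a ∈ s, a < x := fun a ha => (hs a ha).trans hx
  have hne : ∀ a ∈ s, x ≠ a := fun a ha => (hsx a ha).ne'
  rw [P_eq_B, hB, eval_sub, eval_pr_deriv s x hne]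
  have hlt : S1 s x < 1 := by
    rcases Multiset.empty_or_exists_mem s with h0 | ⟨a, ha⟩
    · rw [h0]; simp [S1]
    · obtain ⟨t, rfl⟩ := Multiset.exists_cons_of_mem ha
      have h2 : S1 t x ≤ S1 t ((N : ℝ) + H m) :=
        S1_anti (fun b hb => hs b (Multiset.mem_cons_of_mem hb)) hx.le
      rw [S1_cons] at h1 ⊢
      have h3 : 1 / (x - a) < 1 / ((N : ℝ) + H m - a) :=
        one_div_lt_one_div_of_lt (by linarith [hs a ha]) (by linarith)
      linarith
  have := pr_pos hsx
  nlinarith

end R308.LNK
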