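import Mathlib
import Pool.Agent.R308.LNK.Boot
import Pool.Agent.R308.LNK.Roots

/-!
Assembly of the full answer to MP_5c4bc0_an from `S_A` and `S_B1`.
-/

namespace R308.LNK

open Polynomial Filter Asymptotics Finset

open scoped Polynomial.Bivariate Topology

/-- the largest real root of `L_{n,k}` -/
noncomputable def rho (n k : ℕ) : ℝ := sSup {x : ℝ | aeval x (Lk n k) = 0}

lemma aeval_Lk {A : Type*} [CommRing A] [Algebra ℚ A] [Algebra ℝ A] [IsScalarTower ℚ ℝ A]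
    (m κ : ℕ) (x : A) : aeval x (Lk (m + 1) (κ + 1)) =
      algebraMap ℝ A ((-1) ^ κ * ((κ : ℝ) + 1) / ((m : ℝ) + 1)) * aeval x (P m (m + 1 + κ)) := by
  have h : aeval x (LkR (m + 1) (κ + 1)) = aeval x (Lk (m + 1) (κ + 1)) := by
    unfold LkR
    rw [aeval_map_algebraMap]
  rw [← h, formula, map_mul, aeval_C]

lemma cst_ne (m κ : ℕ) : ((-1 : ℝ) ^ κ * ((κ : ℝ) + 1) / ((m : ℝ) + 1)) ≠ 0 := by
  have h1 : ((κ : ℝ) + 1) ≠ 0 := by positivity
  have h2 : ((m : ℝ) + 1) ≠ 0 := by positivity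
  have h3 : ((-1 : ℝ) ^ κ) ≠ 0 := pow_ne_zero _ (by norm_num)
  exact div_ne_zero (mul_ne_zero h3 h1) h2

lemma P_ne_zero (m N : ℕ) : P m N ≠ 0 := by
  obtain ⟨s, -, h⟩ := P_real m N
  rw [h]
  exact (pr_monic s).ne_zero

lemma root_set (m κ : ℕ) : {x : ℝ | aeval x (Lk (m + 1) (κ + 1)) = 0} =
    {x : ℝ | (P m (m + 1 + κ)).eval x = 0} := by
  ext x
  simp only [Set.mem_ofPred_eq]
  rw [aeval_Lk, mul_eq_zero, coe_aeval_eq_eval]
  simp only [Algebra.algebraMap_self, RingHom.id_apply, cst_ne m κ, false_or]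

lemma greatest (m κ : ℕ) :
    IsGreatest {x : ℝ | aeval x (Lk (m + 1) (κ + 1)) = 0} (rho (m + 1) (κ + 1)) := by
  have hfin : {x : ℝ | aeval x (Lk (m + 1) (κ + 1)) = 0}.Finite := by
    rw [root_set]
    exact Polynomial.finite_setOfPred_isRoot (P_ne_zero _ _)
  have hne : {x : ℝ | aeval x (Lk (m + 1) (κ + 1)) = 0}.Nonempty := by
    rw [root_set]
    refine ⟨0, ?_⟩
    simp only [Set.mem_ofPred_eq]
    rw [← coeff_zero_eq_eval_zero, P_coeff_zero (by omega)]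
  exact ⟨hne.csSup_mem hfin, fun x hx => le_csSup hfin.bddAbove hx⟩

lemma all_roots (m κ : ℕ) : Lk (m + 1) (κ + 1) ≠ 0 ∧
    ∀ z : ℂ, aeval z (Lk (m + 1) (κ + 1)) = 0 → ∃ r : ℝ, 0 ≤ r ∧ z = r := by
  constructor
  · intro h
    have h1 : aeval (X : ℝ[X]) (Lk (m + 1) (κ + 1)) = 0 := by rw [h]; simp
    rw [aeval_Lk, mul_eq_zero] at h1
    rcases h1 with h1 | h1
    · have := (C_eq_zero (a := ((-1 : ℝ) ^ κ * ((κ : ℝ) + 1) / ((m : ℝ) + 1)))).1 h1
      exact cst_ne m κ this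
    · rw [aeval_X_left_apply] at h1
      exact P_ne_zero _ _ h1
  · intro z hz
    rw [aeval_Lk, mul_eq_zero] at hz
    have hc : algebraMap ℝ ℂ ((-1) ^ κ * ((κ : ℝ) + 1) / ((m : ℝ) + 1)) ≠ 0 := by
      rw [Ne, map_eq_zero]
      exact cst_ne m κ
    have h1 := hz.resolve_left hc
    obtain ⟨s, hs, h⟩ := P_real m (m + 1 + κ)
    rw [h] at h1
    by_contra hcon
    push Not at hcon
    have h2 : eval z (pr (s.map fun a : ℝ => (a : ℂ))) = 0 := by
      rw [← pr_map]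
      rw [aeval_def, ← eval_map] at h1
      exact h1
    refine pr_ne_zero (fun a ha => ?_) h2
    obtain ⟨b, hb, rfl⟩ := Multiset.mem_map.1 ha
    exact hcon b (hs b hb)

/-- `w = ρ - N - H_{n-2}` -/
noncomputable def ww (n κ : ℕ) : ℝ := rho n (κ + 1) - ((n + κ : ℕ) : ℝ) - H (n - 2)

lemma rho_root (m κ : ℕ) : (P (m + 1) (m + 2 + κ)).eval (rho (m + 2) (κ + 1)) = 0 := by
  have h := (greatest (m + 1) κ).1
  rw [root_set] at h
  exact h

lemma rho_le (m κ : ℕ) : rho (m + 2) (κ + 1) ≤ ((m + 2 + κ : ℕ) : ℝ) + H m := by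
  by_contra h
  push Not at h
  have := P_pos m (N := m + 2 + κ) (by omega) h
  rw [rho_root] at this
  exact lt_irrefl _ this

lemma le_rho {m κ : ℕ} {x : ℝ} (h : (P (m + 1) (m + 2 + κ)).eval x ≤ 0) :
    x ≤ rho (m + 2) (κ + 1) := by
  -- IVT between `x` and a large point
  by_contra hlt
  push Not at hlt
  set y : ℝ := max x (((m + 2 + κ : ℕ) : ℝ) + H m) + 1 with hy
  have hy1 : ((m + 2 + κ : ℕ) : ℝ) + H m < y := by
    have := le_max_right x (((m + 2 + κ : ℕ) : ℝ) + H m); linarith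
  have hxy : x ≤ y := by
    have := le_max_left x (((m + 2 + κ : ℕ) : ℝ) + H m); linarith
  have hpos := P_pos m (N := m + 2 + κ) (by omega) hy1
  have hivt := intermediate_value_Icc hxy
    ((P (m + 1) (m + 2 + κ)).continuous.continuousOn (s := Set.Icc x y))
  obtain ⟨z, hz, hz0⟩ := hivt ⟨h, hpos.le⟩
  have hmem : z ∈ {x : ℝ | aeval x (Lk (m + 1 + 1) (κ + 1)) = 0} := by
    rw [root_set]; exact hz0
  have := (greatest (m + 1) κ).2 hmem
  change z ≤ rho (m + 2) (κ + 1) at this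
  linarith [hz.1]

/-- the sum at `w = -1` -/
lemma sum_neg_one (hB1 : S_B1) (κ L : ℕ) : (fun n : ℕ => ∑ l ∈ range (L + 2), β (n - 2) l *
      q (((n + κ : ℕ) : ℝ) + (-1)) (n + κ) (l + 1) - 1 / (((n + κ : ℕ) : ℝ) + (-1))) =O[atTop]
      fun n : ℕ => (1 / (n : ℝ)) ^ 2 := by
  obtain ⟨b, hb, -⟩ := β_class hB1
  have hw : Cl 0 0 (fun _ _ => (-1 : ℝ)) := by
    refine Cl.of_O fun κ => ?_
    simp only [pow_zero]
    exact isBigO_const_const _ one_ne_zero _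
  have hQb : ∀ κ : ℕ, (fun n : ℕ => 1 / (((n + κ : ℕ) : ℝ) + (-1))) =O[atTop]
      fun n : ℕ => 1 / (n : ℝ) := by
    intro κ
    refine IsBigO.of_bound 2 ?_
    filter_upwards [eventually_ge_atTop 2] with n hn
    have h1 : (2 : ℝ) ≤ n := by exact_mod_cast hn
    have hk : (0 : ℝ) ≤ κ := Nat.cast_nonneg κ
    push_cast
    rw [Real.norm_of_nonneg (by apply one_div_nonneg.2; linarith),
      Real.norm_of_nonneg (by positivity), div_le_iff₀ (by linarith), mul_one_div, div_mul_eq_mul_div,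
      le_div_iff₀ (by linarith)]
    linarith
  have hQ : Cl 0 0 (fun n κ => 1 / (((n + κ : ℕ) : ℝ) + (-1))) := by
    refine Cl.of_O fun κ => (hQb κ).trans ?_
    have := uu_pow_mono (Nat.zero_le 1)
    simpa using this
  have hS : Cl 0 (∑ l ∈ range L, C (b (l + 2)) * C (eg l))
      (fun n κ => ∑ l ∈ range L, β (n - 2) (l + 2) *
        gF (1 / (((n + κ : ℕ) : ℝ) + (-1))) (-1) l) :=
    Cl.sum _ fun l _ => (hb (l + 2) 0).mul (gF_class hw hQ l)
  have h1 := ((hQb κ).pow 2).mul (hS.bdd κ)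
  simp only [mul_one] at h1
  refine h1.congr' ?_ EventuallyEq.rfl
  filter_upwards [eventually_ge_atTop 2] with n hn
  have h1 : (2 : ℝ) ≤ n := by exact_mod_cast hn
  have hk : (0 : ℝ) ≤ κ := Nat.cast_nonneg κ
  have hpos : 0 < ((n + κ : ℕ) : ℝ) + (-1) := by push_cast; linarith
  rw [Finset.sum_range_succ', Finset.sum_range_succ', β_zero, show 0 + 1 = 1 from rfl, β_one,
    Finset.mul_sum]
  have e2 : q (((n + κ : ℕ) : ℝ) + (-1)) (n + κ) 1 = 1 / (((n + κ : ℕ) : ℝ) + (-1)) := by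
    simp only [q]; ring
  rw [e2, zero_mul, add_zero, one_mul, add_sub_cancel_right]
  refine Finset.sum_congr rfl fun l _ => ?_
  rw [show l + 1 + 1 + 1 = l + 3 from rfl, q_eq_g _ _ hpos.ne']
  ring

lemma W2 (hA : S_A) (hB1 : S_B1) (κ : ℕ) : ∀ᶠ n : ℕ in atTop, ww n κ ∈ Set.Icc (-1 : ℝ) 0 := by
  obtain ⟨K, hK⟩ := hA κ 28
  have hs := sum_neg_one hB1 κ 26
  obtain ⟨K2, hK2⟩ := hs.bound
  have hK' : ∀ᶠ n : ℕ in atTop, ∀ w ∈ Set.Icc (-1 : ℝ) 0,
      |(((n - 2 : ℕ) : ℝ) + 1) * (P (n - 2 + 1) (n - 2 + 2 + κ)).eval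
          (((n - 2 + 2 + κ : ℕ) : ℝ) + w + H (n - 2))
        * Real.exp (-(H (n - 2))) / (((n - 2 + 2 + κ : ℕ) : ℝ) + w) ^ (n - 2 + 2 + κ)
      + ∑ l ∈ Finset.range 28, β (n - 2) l *
        q (((n - 2 + 2 + κ : ℕ) : ℝ) + w) (n - 2 + 2 + κ) (l + 1)|
    ≤ K * ((n - 2 : ℕ) : ℝ) ^ 12 / ((n - 2 : ℕ) : ℝ) ^ (28 / 2) :=
    (tendsto_sub_atTop_nat 2).eventually hK
  -- eventually `(|K2| + 4 |K|)/n^2 < 1/(2 (n + κ))`-type inequality
  have hsmall : ∀ᶠ n : ℕ in atTop, (K2 + 4 * |K|) * (1 / (n : ℝ)) ^ 2 <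
      1 / (((n + κ : ℕ) : ℝ) + (-1)) := by
    have hlim : Tendsto (fun n : ℕ => (K2 + 4 * |K|) * ((1 / (n : ℝ)) * (1 + (κ : ℝ) / n))) atTop
        (𝓝 ((K2 + 4 * |K|) * (0 * (1 + 0)))) :=
      (uu_tendsto.mul ((vv_tendsto κ).const_add 1)).const_mul _
    rw [zero_mul, mul_zero] at hlim
    filter_upwards [hlim.eventually (gt_mem_nhds (by norm_num : (0 : ℝ) < 1)),
      eventually_ge_atTop 2] with n hn hn2
    have h1 : (2 : ℝ) ≤ n := by exact_mod_cast hn2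
    have hk : (0 : ℝ) ≤ κ := Nat.cast_nonneg κ
    have hpos : 0 < ((n + κ : ℕ) : ℝ) + (-1) := by push_cast; linarith
    rw [lt_div_iff₀ hpos]
    by_cases hneg : K2 + 4 * |K| ≤ 0
    · have : (K2 + 4 * |K|) * (1 / (n : ℝ)) ^ 2 ≤ 0 :=
        mul_nonpos_of_nonpos_of_nonneg hneg (by positivity)
      nlinarith
    · push Not at hneg
      refine lt_of_le_of_lt ?_ hn
      have e : (K2 + 4 * |K|) * ((1 / (n : ℝ)) * (1 + (κ : ℝ) / n)) =
          (K2 + 4 * |K|) * (1 / (n : ℝ)) ^ 2 * (n + κ) := by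
        field_simp
      rw [e]
      refine mul_le_mul_of_nonneg_left ?_ (by positivity)
      push_cast; linarith
  filter_upwards [hK', hK2, hsmall, eventually_ge_atTop 4] with n h1 h2 h3 hn
  obtain ⟨m, rfl⟩ : ∃ m, n = m + 2 := ⟨n - 2, by omega⟩
  simp only [Nat.add_sub_cancel] at h1 h2 ⊢
  have hm2 : (2 : ℝ) ≤ m := by exact_mod_cast (by omega : 2 ≤ m)
  constructor
  · -- lower bound
    have h4 := h1 (-1) ⟨le_rfl, by norm_num⟩
    have hneg : (P (m + 1) (m + 2 + κ)).eval (((m + 2 + κ : ℕ) : ℝ) + (-1) + H m) ≤ 0 := by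
      by_contra hcon
      push Not at hcon
      have hk : (0 : ℝ) ≤ κ := Nat.cast_nonneg κ
      have hZ : 0 < ((m + 2 + κ : ℕ) : ℝ) + (-1) := by push_cast; linarith
      have hApos : 0 < ((m : ℝ) + 1) * eval (((m + 2 + κ : ℕ) : ℝ) + -1 + H m)
          (P (m + 1) (m + 2 + κ)) * Real.exp (-H m) /
          (((m + 2 + κ : ℕ) : ℝ) + -1) ^ (m + 2 + κ) := by positivity
      have e28 : K * (m : ℝ) ^ 12 / (m : ℝ) ^ (28 / 2) ≤ 4 * |K| * (1 / ((m + 2 : ℕ) : ℝ)) ^ 2 := by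
        have e1 : K * (m : ℝ) ^ 12 / (m : ℝ) ^ (28 / 2) = K * (1 / (m : ℝ)) ^ 2 := by
          norm_num
          field_simp
        have e2 : (1 / (m : ℝ)) ≤ 2 * (1 / ((m + 2 : ℕ) : ℝ)) := by
          push_cast
          rw [mul_one_div, div_le_div_iff₀ (by linarith) (by linarith)]
          linarith
        have e3 : (1 / (m : ℝ)) ^ 2 ≤ (2 * (1 / ((m + 2 : ℕ) : ℝ))) ^ 2 :=
          pow_le_pow_left₀ (by positivity) e2 2
        rw [e1]
        calc K * (1 / (m : ℝ)) ^ 2 ≤ |K| * (1 / (m : ℝ)) ^ 2 :=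
              mul_le_mul_of_nonneg_right (le_abs_self K) (by positivity)
          _ ≤ |K| * (2 * (1 / ((m + 2 : ℕ) : ℝ))) ^ 2 :=
              mul_le_mul_of_nonneg_left e3 (abs_nonneg K)
          _ = _ := by ring
      have h5 := (abs_le.1 (h4.trans e28)).2
      rw [Real.norm_eq_abs, Real.norm_of_nonneg (by positivity)] at h2
      have h6 := (abs_le.1 h2).1
      norm_num only [] at h6
      have h7 : ∑ x ∈ range (26 + 2), β m x * q (((m + 2 + κ : ℕ) : ℝ) + -1) (m + 2 + κ) (x + 1) =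
        ∑ x ∈ range 28, β m x * q (((m + 2 + κ : ℕ) : ℝ) + -1) (m + 2 + κ) (x + 1) := rfl
      nlinarith [h3, h5, h6, hApos]
    have := le_rho hneg
    unfold ww
    simp only [Nat.add_sub_cancel]
    linarith
  · unfold ww
    simp only [Nat.add_sub_cancel]
    have := rho_le m κ
    linarith

lemma W3 (hA : S_A) (hB1 : S_B1) (κ L : ℕ) : (fun n : ℕ => ∑ l ∈ range L, β (n - 2) l *
      q (((n + κ : ℕ) : ℝ) + ww n κ) (n + κ) (l + 1)) =O[atTop]
      fun n : ℕ => (n : ℝ) ^ 12 / (n : ℝ) ^ (L / 2) := by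
  obtain ⟨K, hK⟩ := hA κ L
  have hK' := (tendsto_sub_atTop_nat 2).eventually hK
  refine IsBigO.of_bound (|K| * 2 ^ (L / 2)) ?_
  filter_upwards [hK', W2 hA hB1 κ, eventually_ge_atTop 4] with n h1 h2 hn
  obtain ⟨m, rfl⟩ : ∃ m, n = m + 2 := ⟨n - 2, by omega⟩
  simp only [Nat.add_sub_cancel] at h1 ⊢
  have hm2 : (2 : ℝ) ≤ m := by exact_mod_cast (by omega : 2 ≤ m)
  have h3 := h1 _ h2
  have e0 : (((m + 2 + κ : ℕ) : ℝ) + ww (m + 2) κ + H m) = rho (m + 2) (κ + 1) := by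
    unfold ww
    simp only [Nat.add_sub_cancel]
    ring
  rw [e0, rho_root, mul_zero, zero_mul, zero_div, zero_add] at h3
  rw [Real.norm_eq_abs, Real.norm_of_nonneg (by positivity)]
  refine h3.trans ?_
  have hpos : 0 < (m : ℝ) ^ (L / 2) := by positivity
  have h4 : (m : ℝ) ^ 12 ≤ (((m + 2 : ℕ) : ℝ)) ^ 12 :=
    pow_le_pow_left₀ (by positivity) (by push_cast; linarith) _
  have h5 : (((m + 2 : ℕ) : ℝ)) ^ (L / 2) ≤ 2 ^ (L / 2) * (m : ℝ) ^ (L / 2) := by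
    rw [← mul_pow]
    exact pow_le_pow_left₀ (by positivity) (by push_cast; linarith) _
  calc K * (m : ℝ) ^ 12 / (m : ℝ) ^ (L / 2)
      ≤ |K| * (m : ℝ) ^ 12 / (m : ℝ) ^ (L / 2) := by
        gcongr; exact le_abs_self K
    _ ≤ |K| * (((m + 2 : ℕ) : ℝ)) ^ 12 / (m : ℝ) ^ (L / 2) := by gcongr
    _ ≤ _ := by
        rw [mul_assoc, ← mul_div_assoc, mul_div_assoc]
        refine mul_le_mul_of_nonneg_left ?_ (abs_nonneg K)
        rw [div_le_div_iff₀ hpos (by positivity)]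
        calc (((m + 2 : ℕ) : ℝ)) ^ 12 * (((m + 2 : ℕ) : ℝ)) ^ (L / 2)
            ≤ (((m + 2 : ℕ) : ℝ)) ^ 12 * (2 ^ (L / 2) * (m : ℝ) ^ (L / 2)) := by gcongr
          _ = _ := by ring

/-- `ζ(2)` -/
noncomputable def z2 : ℝ := ∑' i : ℕ, 1 / ((i : ℝ) + 1) ^ 2

/-- `ζ(3)` -/
noncomputable def z3 : ℝ := ∑' i : ℕ, 1 / ((i : ℝ) + 1) ^ 3

lemma z_pos : 0 < z2 + z3 := by
  have hs : ∀ r : ℕ, 1 < r → Summable fun i : ℕ => 1 / ((i : ℝ) + 1) ^ r := by
    intro r hr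
    have := (summable_nat_add_iff 1).2 (Real.summable_one_div_nat_pow.2 hr)
    simpa using this
  have h2 : 0 < z2 := (hs 2 (by norm_num)).tsum_pos (fun i => by positivity) 0 (by positivity)
  have h3 : 0 < z3 := (hs 3 (by norm_num)).tsum_pos (fun i => by positivity) 0 (by positivity)
  linarith

theorem expansion_of (hA : S_A) (hB1 : S_B1) :
    ∃ Cm : ℕ → ℝ[X], (∀ m, (Cm m).natDegree = m) ∧
      Cm 0 = C (-(3 / 2 + z2 + z3)) ∧
      (∀ m, 1 ≤ m → (Cm m).leadingCoeff = (-1) ^ (m + 1) * (z2 + z3)) ∧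
      ∀ k : ℕ, 1 ≤ k → ∀ M : ℕ,
        (fun n : ℕ => rho n k - ((n : ℝ) + Real.log n + Real.eulerMascheroniConstant + k - 1)
          - ∑ m ∈ range (M + 1), (Cm m).eval (k : ℝ) / (n : ℝ) ^ (m + 1)) =O[atTop]
        fun n : ℕ => 1 / (n : ℝ) ^ (M + 2) := by
  have hW2 := W2 hA hB1
  have hW3 := W3 hA hB1
  have hb := boot ww hB1 hW2 hW3
  set σ : ℕ → ℝ := fun m => if m = 0 then -(3 / 2 + z2 + z3) else (-1) ^ (m + 1) * (z2 + z3) with hσ
  have hσ0 : ∀ m, σ m ≠ 0 := by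
    intro m
    have := z_pos
    simp only [hσ]
    split_ifs
    · intro h; linarith
    · exact mul_ne_zero (pow_ne_zero _ (by norm_num)) this.ne'
  obtain ⟨c, hc, hcO⟩ := partB2
    (fun n κ => (n : ℝ) * ww n κ +
      (n : ℝ) * (H (n - 2) - Real.log n - Real.eulerMascheroniConstant))
    (fun j => C (-(z2 + z3)) * ∑ i ∈ range (j + 1), (-X) ^ i + C (-3 / 2 : ℝ)) σ
    (by
      intro j m hm
      have e : (∑ i ∈ range (j + 1), (-X : ℝ[X]) ^ i).coeff m = (-1) ^ m := by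
        rw [finsetSum_coeff, Finset.sum_eq_single m]
        · rw [neg_pow, show ((-1 : ℝ[X]) ^ m) = C ((-1) ^ m) by simp, coeff_C_mul, coeff_X_pow,
            if_pos rfl, mul_one]
        · intro i _ him
          rw [neg_pow, show ((-1 : ℝ[X]) ^ i) = C ((-1) ^ i) by simp, coeff_C_mul, coeff_X_pow,
            if_neg (Ne.symm him), mul_zero]
        · intro h; exact absurd (Finset.mem_range.2 (by omega)) h
      rw [coeff_add, coeff_C_mul, e, coeff_C]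
      simp only [hσ]
      split_ifs with h
      · subst h; ring
      · ring)
    (fun j => (hb j).add (hB1.2 j))
  have hnd : ∀ m, (c m).natDegree = m := by
    intro m
    refine le_antisymm (hc m).1 (le_natDegree_of_ne_zero ?_)
    rw [(hc m).2]; exact hσ0 m
  refine ⟨fun m => (c m).comp (X - C 1), fun m => ?_, ?_, fun m hm => ?_, ?_⟩
  · rw [natDegree_comp, hnd, natDegree_X_sub_C, mul_one]
  · have h0 : c 0 = C (-(3 / 2 + z2 + z3)) := by
      rw [eq_C_of_natDegree_eq_zero (hnd 0), (hc 0).2]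
      simp [hσ]
    simp only [h0, C_comp]
  · rw [leadingCoeff_comp (by rw [natDegree_X_sub_C]; norm_num), leadingCoeff_X_sub_C, one_pow,
      mul_one, leadingCoeff, hnd, (hc m).2]
    simp only [hσ]
    rw [if_neg (by omega)]
  · intro k hk M
    obtain ⟨κ, rfl⟩ : ∃ κ, k = κ + 1 := ⟨k - 1, by omega⟩
    have h1 := (isBigO_refl (fun n : ℕ => (1 / (n : ℝ))) atTop).mul (hcO κ (M + 1))
    refine h1.congr' ?_ ?_
    · filter_upwards [eventually_ge_atTop 2] with n hn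
      have hn0 : (n : ℝ) ≠ 0 := by positivity
      have e1 : ∑ m ∈ range (M + 1), ((c m).comp (X - C 1)).eval (((κ + 1 : ℕ) : ℝ)) /
          (n : ℝ) ^ (m + 1) = 1 / (n : ℝ) * ∑ m ∈ range (M + 1), (c m).eval (κ : ℝ) / (n : ℝ) ^ m := by
        rw [Finset.mul_sum]
        refine Finset.sum_congr rfl fun m _ => ?_
        rw [eval_comp, eval_sub, eval_X, eval_C]
        push_cast
        rw [add_sub_cancel_right, pow_succ]
        field_simp
      rw [e1, mul_sub]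
      congr 1
      unfold ww
      push_cast
      field_simp
      ring
    · filter_upwards [eventually_ge_atTop 1] with n hn
      have hn0 : (n : ℝ) ≠ 0 := by positivity
      rw [one_div_pow, show M + 2 = (M + 1) + 1 by ring, pow_succ (n : ℝ) (M + 1)]
      field_simp

end R308.LNK
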