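import Pool.Agent.R308.LNK.Defs

/-!
Piece A of the proof of MP_5c4bc0_an: the expansion with remainder `S_A`.
-/

namespace R308.LNK

open Polynomial Filter Asymptotics Finset

namespace PA

/-- `tp N a = (D-1)^a X^N` -/
noncomputable def tp (N : ℕ) : ℕ → ℝ[X]
  | 0 => X ^ N
  | (a + 1) => derivative (tp N a) - tp N a

theorem pow_apply_tp (N a : ℕ) : ((Dm - 1) ^ a) (X ^ N) = tp N a := by
  induction a with
  | zero => simp [tp]
  | succ a ih =>
    rw [pow_succ', Module.End.mul_apply, ih, tp]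
    simp [Dm]

theorem comp_G (m : ℕ) : C ((m : ℝ) + 1) * (G (m + 1)).comp (X + 1) = - X * G m := by
  induction m with
  | zero => simp [G]
  | succ m ih =>
    have h1 : G (m + 1 + 1) = G (m + 1) * (1 - C (1 / (((m + 1 : ℕ) : ℝ) + 1)) * X) := by
      unfold G; rw [Finset.prod_range_succ]
    have h2 : G (m + 1) = G m * (1 - C (1 / ((m : ℝ) + 1)) * X) := by
      unfold G; rw [Finset.prod_range_succ]
    have h3 : C (((m + 1 : ℕ) : ℝ) + 1) * (1 - C (1 / (((m + 1 : ℕ) : ℝ) + 1)) * X).comp (X + 1)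
        = C ((m : ℝ) + 1) * (1 - C (1 / ((m : ℝ) + 1)) * X) := by
      have e1 : C (((m + 1 : ℕ) : ℝ) + 1) * C (1 / (((m + 1 : ℕ) : ℝ) + 1)) = 1 := by
        rw [← C_mul, mul_one_div_cancel (by positivity), C_1]
      have e2 : C ((m : ℝ) + 1) * C (1 / ((m : ℝ) + 1)) = 1 := by
        rw [← C_mul, mul_one_div_cancel (by positivity), C_1]
      have e3 : C (((m + 1 : ℕ) : ℝ) + 1) = C ((m : ℝ) + 1) + 1 := by
        push_cast
        rw [C_add (a := (m : ℝ) + 1), C_1]
      simp only [sub_comp, one_comp, mul_comp, C_comp, X_comp]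
      generalize C (((m + 1 : ℕ) : ℝ) + 1) = A at *
      generalize C (1 / (((m + 1 : ℕ) : ℝ) + 1)) = a at *
      generalize C ((m : ℝ) + 1) = B at *
      generalize C (1 / ((m : ℝ) + 1)) = b at *
      linear_combination e3 - (X + 1) * e1 + X * e2
    rw [h1, mul_comp]
    generalize (1 - C (1 / (((m + 1 : ℕ) : ℝ) + 1)) * X).comp (X + 1) = U at *
    generalize (1 - C (1 / ((m : ℝ) + 1)) * X) = V at *
    generalize C (((m + 1 : ℕ) : ℝ) + 1) = A at *
    generalize C ((m : ℝ) + 1) = B at *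
    generalize (G (m + 1)).comp (X + 1) = W at *
    rw [h2]
    linear_combination W * h3 + V * ih

theorem natDegree_G (m : ℕ) : (G m).natDegree ≤ m := by
  induction m with
  | zero => simp [G]
  | succ m ih =>
    have h2 : G (m + 1) = G m * (1 - C (1 / ((m : ℝ) + 1)) * X) := by
      unfold G; rw [Finset.prod_range_succ]
    rw [h2]
    refine natDegree_mul_le.trans ?_
    have : (1 - C (1 / ((m : ℝ) + 1)) * X).natDegree ≤ 1 := by
      refine (natDegree_sub_le _ _).trans ?_
      rw [natDegree_one]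
      refine max_le (by norm_num) (by
        simpa using natDegree_C_mul_X_pow_le (1 / ((m : ℝ) + 1)) 1)
    omega

theorem P_eq (m N : ℕ) (x : ℝ) : ((m : ℝ) + 1) * (P (m + 1) N).eval x
    = - ∑ a ∈ range (m + 1), (G m).coeff a * (tp N (a + 1)).eval x := by
  have h1 : aeval Dm (G (m + 1)) = aeval (Dm - 1) ((G (m + 1)).comp (X + 1)) := by
    rw [aeval_comp]; simp
  have h2 : ((m : ℝ) + 1) • P (m + 1) N = aeval (Dm - 1) (- X * G m) (X ^ N) := by
    rw [← comp_G, map_mul, aeval_C, ← h1]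
    rw [Module.End.mul_apply, Module.algebraMap_end_apply]
    rfl
  have h3 : aeval (Dm - 1) (- X * G m) (X ^ N)
      = - ∑ a ∈ range (m + 1), (G m).coeff a • tp N (a + 1) := by
    rw [neg_mul, map_neg, mul_comm, map_mul, aeval_X,
      aeval_eq_sum_range' (Nat.lt_succ_of_le (natDegree_G m)), Finset.sum_mul]
    rw [LinearMap.neg_apply, LinearMap.sum_apply]
    congr 1
    apply Finset.sum_congr rfl
    intro a _
    rw [smul_mul_assoc, ← pow_succ, LinearMap.smul_apply, pow_apply_tp]
  have h4 := congrArg (fun p => eval x p) (h2.trans h3)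
  simp only [eval_smul, eval_neg, eval_finsetSum, smul_eq_mul] at h4
  exact h4

theorem tp_rec (N l : ℕ) : X * tp N (l + 2)
    = (C ((N : ℝ) - ((l : ℝ) + 1)) - X) * tp N (l + 1) - C ((l : ℝ) + 1) * tp N l := by
  have h0 : X * tp N 1 = (C (N : ℝ) - X) * tp N 0 := by
    simp only [tp, derivative_X_pow]
    rcases N with _ | N
    · simp
    · simp only [Nat.add_sub_cancel]
      rw [mul_sub, sub_mul]
      congr 1
      · rw [pow_succ]; ring
  induction l with
  | zero =>
    have h1 := congrArg derivative h0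
    rw [derivative_mul, derivative_mul, derivative_sub, derivative_C, derivative_X] at h1
    have e1 : derivative (tp N 1) = tp N 2 + tp N 1 := by
      show _ = (derivative (tp N 1) - tp N 1) + tp N 1
      ring
    have e0 : derivative (tp N 0) = tp N 1 + tp N 0 := by
      show _ = (derivative (tp N 0) - tp N 0) + tp N 0
      ring
    rw [e1, e0] at h1
    simp only [Nat.cast_zero, zero_add, C_sub, C_1]
    linear_combination h1 - h0
  | succ l ih =>
    have h1 := congrArg derivative ih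
    rw [derivative_mul, derivative_sub, derivative_mul, derivative_mul, derivative_sub,
      derivative_C, derivative_C, derivative_X] at h1
    have e (k : ℕ) : derivative (tp N k) = tp N (k + 1) + tp N k := by
      show _ = (derivative (tp N k) - tp N k) + tp N k
      ring
    rw [e, e, e] at h1
    push_cast
    simp only [C_sub, C_add, C_1] at ih h1 ⊢
    linear_combination h1 - ih

theorem eval_tp (N : ℕ) (x : ℝ) (hx : 0 < x) :
    ∀ l, (tp N l).eval x = x ^ N * q x N l := by
  have key : ∀ l, (tp N l).eval x = x ^ N * q x N l ∧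
      (tp N (l + 1)).eval x = x ^ N * q x N (l + 1) := by
    intro l
    induction l with
    | zero =>
      refine ⟨by simp [tp, q], ?_⟩
      simp only [tp, q, derivative_X_pow, eval_sub, eval_mul, eval_pow, eval_X, eval_C]
      rcases N with _ | N
      · simp; field_simp
      · simp only [Nat.add_sub_cancel]
        field_simp
        ring
    | succ l ih =>
      refine ⟨ih.2, ?_⟩
      have h := congrArg (fun p => eval x p) (tp_rec N l)
      simp only [eval_mul, eval_sub, eval_X, eval_C] at h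
      rw [ih.1, ih.2] at h
      have h2 : q x N (l + 1 + 1) = ((N - ((l : ℝ) + 1) - x) * q x N (l + 1)
        - ((l : ℝ) + 1) * q x N l) / x := rfl
      rw [h2]
      have h3 : (tp N (l + 1 + 1)).eval x
        = (x * (tp N (l + 2)).eval x) / x := by field_simp
      rw [h3, h]
      field_simp
  intro l
  exact (key l).1

theorem tp_succ' (N a : ℕ) : tp N (a + 1) = C (N : ℝ) * tp (N - 1) a - tp N a := by
  rw [← pow_apply_tp, ← pow_apply_tp, ← pow_apply_tp, pow_succ, Module.End.mul_apply]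
  have : (Dm - 1) (X ^ N : ℝ[X]) = (N : ℝ) • X ^ (N - 1) - X ^ N := by
    simp [Dm, derivative_X_pow, smul_eq_C_mul]
  rw [this, map_sub, map_smul, smul_eq_C_mul]

theorem q_succ' (x : ℝ) (hx : 0 < x) (N a : ℕ) :
    q x N (a + 1) = (N / x) * q x (N - 1) a - q x N a := by
  have h := congrArg (fun p => eval x p) (tp_succ' N a)
  simp only [eval_mul, eval_sub, eval_C] at h
  rw [eval_tp _ _ hx, eval_tp _ _ hx, eval_tp _ _ hx] at h
  have hN : x ^ N ≠ 0 := by positivity
  rcases N with _ | N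
  · simp at h ⊢; exact h
  · simp only [Nat.add_sub_cancel] at h ⊢
    have hN' : x ^ N ≠ 0 := by positivity
    have : x ^ (N + 1) * q x (N + 1) (a + 1)
        = x ^ (N + 1) * ((((N + 1 : ℕ) : ℝ) / x) * q x N a - q x (N + 1) a) := by
      rw [h, pow_succ]; field_simp
    exact mul_left_cancel₀ hN this

theorem q_bound (l : ℕ) : ∃ K : ℝ, 0 ≤ K ∧ ∀ x : ℝ, 1 ≤ x → ∀ N : ℕ,
    |q x N l| ≤ K * (1 + |x - N|) ^ l / x ^ (l / 2) := by
  have key : ∀ l, (∃ K : ℝ, 0 ≤ K ∧ ∀ x : ℝ, 1 ≤ x → ∀ N : ℕ,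
      |q x N l| ≤ K * (1 + |x - N|) ^ l / x ^ (l / 2)) ∧
      (∃ K : ℝ, 0 ≤ K ∧ ∀ x : ℝ, 1 ≤ x → ∀ N : ℕ,
      |q x N (l + 1)| ≤ K * (1 + |x - N|) ^ (l + 1) / x ^ ((l + 1) / 2)) := by
    intro l
    induction l with
    | zero =>
      refine ⟨⟨1, by norm_num, fun x hx N => by simp [q]⟩,
        ⟨1, by norm_num, fun x hx N => ?_⟩⟩
      have hx0 : 0 < x := by linarith
      simp only [q, zero_add, pow_one, Nat.reduceDiv, pow_zero, div_one, one_mul]
      rw [abs_div, abs_of_pos hx0, abs_sub_comm]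
      calc |x - N| / x ≤ |x - N| / 1 := by gcongr
        _ ≤ _ := by linarith
    | succ l ih =>
      refine ⟨ih.2, ?_⟩
      obtain ⟨⟨K1, hK1, h1⟩, ⟨K2, hK2, h2⟩⟩ := ih
      refine ⟨((l : ℝ) + 1) * (K2 + K1), by positivity, fun x hx N => ?_⟩
      have hx0 : 0 < x := by linarith
      have hr : q x N (l + 1 + 1) = ((N - ((l : ℝ) + 1) - x) * q x N (l + 1)
        - ((l : ℝ) + 1) * q x N l) / x := rfl
      rw [hr, abs_div, abs_of_pos hx0]
      set δ := |x - N| with hδ
      have hδ0 : 0 ≤ δ := abs_nonneg _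
      have ha := h1 x hx N
      have hb := h2 x hx N
      have hc : |(N : ℝ) - ((l : ℝ) + 1) - x| ≤ ((l : ℝ) + 1) * (1 + δ) := by
        have : (N : ℝ) - ((l : ℝ) + 1) - x = -((x - N) + ((l : ℝ) + 1)) := by ring
        rw [this, abs_neg]
        refine (abs_add_le _ _).trans ?_
        rw [abs_of_nonneg (by positivity : (0 : ℝ) ≤ (l : ℝ) + 1), ← hδ]
        nlinarith [mul_nonneg (Nat.cast_nonneg l : (0 : ℝ) ≤ l) hδ0]
      have hd : (l + 1 + 1) / 2 = l / 2 + 1 := by omega
      rw [hd]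
      have e1 : 1 / x ^ ((l + 1) / 2) ≤ 1 / x ^ (l / 2) := by
        apply one_div_le_one_div_of_le (by positivity)
        exact pow_le_pow_right₀ hx (by omega)
      have hstep : |(N - ((l : ℝ) + 1) - x) * q x N (l + 1) - ((l : ℝ) + 1) * q x N l|
          ≤ ((l : ℝ) + 1) * (K2 + K1) * (1 + δ) ^ (l + 1 + 1) / x ^ (l / 2) := by
        refine (abs_sub _ _).trans ?_
        rw [abs_mul, abs_mul, abs_of_nonneg (by positivity : (0 : ℝ) ≤ (l : ℝ) + 1)]
        have t1 : |(N : ℝ) - ((l : ℝ) + 1) - x| * |q x N (l + 1)|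
            ≤ (((l : ℝ) + 1) * (1 + δ)) * (K2 * (1 + δ) ^ (l + 1) / x ^ (l / 2)) := by
          apply mul_le_mul hc _ (abs_nonneg _) (by positivity)
          refine hb.trans ?_
          rw [div_eq_mul_one_div, div_eq_mul_one_div (K2 * (1 + δ) ^ (l + 1)) (x ^ (l / 2))]
          exact mul_le_mul_of_nonneg_left e1 (by positivity)
        have t2 : ((l : ℝ) + 1) * |q x N l|
            ≤ ((l : ℝ) + 1) * (K1 * (1 + δ) ^ (l + 1 + 1) / x ^ (l / 2)) := by
          apply mul_le_mul_of_nonneg_left _ (by positivity)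
          refine ha.trans ?_
          gcongr
          · linarith
          · omega
        calc _ ≤ (((l : ℝ) + 1) * (1 + δ)) * (K2 * (1 + δ) ^ (l + 1) / x ^ (l / 2))
              + ((l : ℝ) + 1) * (K1 * (1 + δ) ^ (l + 1 + 1) / x ^ (l / 2)) := add_le_add t1 t2
          _ = _ := by rw [pow_succ (1 + δ) (l + 1)]; ring
      calc _ ≤ (((l : ℝ) + 1) * (K2 + K1) * (1 + δ) ^ (l + 1 + 1) / x ^ (l / 2)) / x := by
            gcongr
        _ = _ := by rw [pow_succ x, div_div]
  exact (key l).1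

theorem pow_bound (L : ℕ) (i : ℕ) : (1 + (i : ℝ)) ^ L ≤ (L.factorial * 2 ^ L : ℝ) * 2 ^ i := by
  have h1 : (i + 1) ^ L ≤ (i + 1).ascFactorial L := Nat.pow_succ_le_ascFactorial _ _
  rw [Nat.ascFactorial_eq_factorial_mul_choose] at h1
  have h2 : (i + L).choose L ≤ 2 ^ (i + L) := Nat.choose_le_two_pow _ _
  have h3 : (i + 1) ^ L ≤ L.factorial * 2 ^ (i + L) :=
    h1.trans (Nat.mul_le_mul_left _ h2)
  have h4 : (((i + 1) ^ L : ℕ) : ℝ) ≤ ((L.factorial * 2 ^ (i + L) : ℕ) : ℝ) := by
    exact_mod_cast h3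
  push_cast at h4
  calc (1 + (i : ℝ)) ^ L = ((i : ℝ) + 1) ^ L := by rw [add_comm]
    _ ≤ _ := h4
    _ = _ := by rw [pow_add]; ring

theorem key_q (L : ℕ) : ∃ K : ℝ, 0 ≤ K ∧ ∀ x : ℝ, 1 ≤ x → ∀ N : ℕ, (N : ℝ) ≤ 2 * x →
    ∀ j : ℕ, |q x N (L + j)| ≤ K * (1 + |x - N|) ^ L / x ^ (L / 2) * 5 ^ j := by
  obtain ⟨K1, hK1, h1⟩ := q_bound L
  refine ⟨K1 * (L.factorial * 2 ^ L), by positivity, fun x hx N hN => ?_⟩
  have hx0 : 0 < x := by linarith
  set δ := |x - N| with hδ
  have hδ0 : 0 ≤ δ := abs_nonneg _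
  set B : ℝ := K1 * (L.factorial * 2 ^ L) * (1 + δ) ^ L / x ^ (L / 2) with hB
  have hB0 : 0 ≤ B := by positivity
  have key : ∀ j : ℕ, ∀ i : ℕ, |q x (N - i) (L + j)| ≤ B * 2 ^ i * 5 ^ j := by
    intro j
    induction j with
    | zero =>
      intro i
      have h := h1 x hx (N - i)
      simp only [add_zero, pow_zero, mul_one]
      refine h.trans ?_
      have hi : |x - ((N - i : ℕ) : ℝ)| ≤ δ + i := by
        have e : x - ((N - i : ℕ) : ℝ) = (x - N) + ((N : ℝ) - ((N - i : ℕ) : ℝ)) := by ring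
        rw [e]
        refine (abs_add_le _ _).trans ?_
        rw [← hδ]
        have e1 : ((N - i : ℕ) : ℝ) ≤ N := by exact_mod_cast Nat.sub_le _ _
        have e2 : (N : ℝ) ≤ ((N - i : ℕ) : ℝ) + i := by
          have : N ≤ (N - i) + i := by omega
          exact_mod_cast this
        rw [abs_of_nonneg (by linarith)]
        linarith
      have h2 : (1 + |x - ((N - i : ℕ) : ℝ)|) ^ L ≤ (1 + δ) ^ L * (1 + (i : ℝ)) ^ L := by
        rw [← mul_pow]
        apply pow_le_pow_left₀ (by positivity)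
        nlinarith [mul_nonneg hδ0 (Nat.cast_nonneg i : (0 : ℝ) ≤ i)]
      calc K1 * (1 + |x - ((N - i : ℕ) : ℝ)|) ^ L / x ^ (L / 2)
          ≤ K1 * ((1 + δ) ^ L * ((L.factorial * 2 ^ L : ℝ) * 2 ^ i)) / x ^ (L / 2) := by
            gcongr
            exact h2.trans (mul_le_mul_of_nonneg_left (pow_bound L i) (by positivity))
        _ = B * 2 ^ i := by rw [hB]; ring
    | succ j ih =>
      intro i
      rw [← add_assoc, q_succ' x hx0]
      refine (abs_sub _ _).trans ?_
      rw [abs_mul, Nat.sub_sub]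
      have h3 : |((N - i : ℕ) : ℝ) / x| ≤ 2 := by
        rw [abs_of_nonneg (by positivity), div_le_iff₀ hx0]
        have : ((N - i : ℕ) : ℝ) ≤ N := by exact_mod_cast Nat.sub_le _ _
        linarith
      calc |((N - i : ℕ) : ℝ) / x| * |q x (N - (i + 1)) (L + j)| + |q x (N - i) (L + j)|
          ≤ 2 * (B * 2 ^ (i + 1) * 5 ^ j) + B * 2 ^ i * 5 ^ j := by
            apply add_le_add _ (ih i)
            exact mul_le_mul h3 (ih (i + 1)) (abs_nonneg _) (by norm_num)
        _ = B * 2 ^ i * 5 ^ (j + 1) := by ring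
  intro j
  have := key j 0
  simpa using this

theorem taylor (ψ : ℕ → ℝ → ℝ) (hψ : ∀ a s, HasDerivAt (ψ a) (ψ (a + 1) s) s)
    (h : ℝ) (M : ℝ) : ∀ (L a : ℕ), (∀ s ∈ Set.Icc 0 h, |ψ (a + L) s| ≤ M) →
    ∀ s ∈ Set.Icc 0 h, |ψ a s - ∑ b ∈ range L, ψ (a + b) 0 * s ^ b / (b.factorial : ℝ)|
      ≤ M * s ^ L / (L.factorial : ℝ) := by
  intro L
  induction L with
  | zero =>
    intro a hM s hs
    simpa using hM s hs
  | succ L ih =>
    intro a hM s hs
    have hM' : ∀ s ∈ Set.Icc 0 h, |ψ (a + 1 + L) s| ≤ M := by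
      intro s hs
      have := hM s hs
      rwa [show a + (L + 1) = a + 1 + L by omega] at this
    have ih' := ih (a + 1) hM'
    set R : ℝ → ℝ := fun s => ψ a s - ∑ b ∈ range (L + 1), ψ (a + b) 0 * s ^ b / (b.factorial : ℝ)
      with hR
    set R' : ℝ → ℝ := fun s => ψ (a + 1) s
      - ∑ b ∈ range L, ψ (a + 1 + b) 0 * s ^ b / (b.factorial : ℝ) with hR'
    have hder : ∀ s, HasDerivAt R (R' s) s := by
      intro s
      have h1 : HasDerivAt (fun s : ℝ => ∑ b ∈ range (L + 1),
          ψ (a + b) 0 * s ^ b / (b.factorial : ℝ))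
          (∑ b ∈ range L, ψ (a + 1 + b) 0 * s ^ b / (b.factorial : ℝ)) s := by
        have h2 : ∀ b ∈ range (L + 1), HasDerivAt (fun s : ℝ =>
            ψ (a + b) 0 * s ^ b / (b.factorial : ℝ))
            (ψ (a + b) 0 * (b * s ^ (b - 1)) / (b.factorial : ℝ)) s := by
          intro b _
          exact ((hasDerivAt_pow b s).const_mul _).div_const _
        have h3 := HasDerivAt.fun_sum h2
        refine h3.congr_deriv ?_
        rw [Finset.sum_range_succ']
        simp only [Nat.cast_zero, zero_mul, mul_zero, zero_div, add_zero]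
        apply Finset.sum_congr rfl
        intro b _
        rw [Nat.factorial_succ]
        push_cast
        have : ((b : ℝ) + 1) ≠ 0 := by positivity
        have hb : ((b.factorial : ℝ)) ≠ 0 := by positivity
        rw [show a + 1 + b = a + (b + 1) by omega]
        field_simp
      exact (hψ a s).sub h1
    have hR0 : R 0 = 0 := by
      rw [hR]
      simp only
      rw [Finset.sum_range_succ']
      simp
    have hs0 : 0 ≤ s := hs.1
    have hpw : ∀ s : ℝ, HasDerivAt (fun s : ℝ => M * s ^ (L + 1) / ((L + 1).factorial : ℝ))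
        (M * s ^ L / (L.factorial : ℝ)) s := by
      intro s
      have := ((hasDerivAt_pow (L + 1) s).const_mul M).div_const ((L + 1).factorial : ℝ)
      refine this.congr_deriv ?_
      rw [Nat.factorial_succ]
      push_cast
      have : ((L : ℝ) + 1) ≠ 0 := by positivity
      have hb : ((L.factorial : ℝ)) ≠ 0 := by positivity
      field_simp
    have mono : ∀ (f f' : ℝ → ℝ), (∀ s, HasDerivAt f (f' s) s) →
        (∀ s ∈ Set.Icc 0 h, 0 ≤ f' s) → f 0 = 0 → 0 ≤ f s := by
      intro f f' hf hf' hf0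
      have : MonotoneOn f (Set.Icc 0 h) := by
        apply monotoneOn_of_deriv_nonneg (convex_Icc 0 h)
        · exact fun t _ => (hf t).continuousAt.continuousWithinAt
        · exact fun t _ => (hf t).differentiableAt.differentiableWithinAt
        · intro t ht
          rw [(hf t).deriv]
          exact hf' t (interior_subset ht)
      have h1 := this ⟨le_refl 0, hs.1.trans hs.2⟩ hs hs.1
      rwa [hf0] at h1
    rw [abs_le]
    constructor
    · have := mono (fun s => R s + M * s ^ (L + 1) / ((L + 1).factorial : ℝ))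
        (fun s => R' s + M * s ^ L / (L.factorial : ℝ)) (fun s => (hder s).add (hpw s))
        (fun t ht => by
          have := (abs_le.mp (ih' t ht)).1
          simp only [hR'] at *
          linarith) (by simp [hR0])
      simp only [hR] at this
      linarith
    · have := mono (fun s => M * s ^ (L + 1) / ((L + 1).factorial : ℝ) - R s)
        (fun s => M * s ^ L / (L.factorial : ℝ) - R' s) (fun s => (hpw s).sub (hder s))
        (fun t ht => by
          have := (abs_le.mp (ih' t ht)).2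
          simp only [hR'] at *
          linarith) (by simp [hR0])
      simp only [hR] at this
      linarith

theorem H_nonneg (m : ℕ) : 0 ≤ H m := by
  unfold H; positivity

theorem H_succ (m : ℕ) : H (m + 1) = H m + 1 / ((m : ℝ) + 1) := by
  unfold H; rw [Finset.sum_range_succ]

theorem H_le (m : ℕ) : H m ≤ m := by
  unfold H
  calc ∑ i ∈ range m, 1 / ((i : ℝ) + 1) ≤ ∑ i ∈ range m, (1 : ℝ) := by
        apply Finset.sum_le_sum
        intro i _
        rw [div_le_one (by positivity)]
        linarith [(Nat.cast_nonneg i : (0 : ℝ) ≤ i)]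
    _ = m := by simp

theorem H_log (m : ℕ) : H m ≤ 1 + Real.log m := by
  have h := harmonic_le_one_add_log m
  unfold H
  have : ((harmonic m : ℚ) : ℝ) = ∑ i ∈ range m, 1 / ((i : ℝ) + 1) := by
    unfold harmonic
    push_cast
    apply Finset.sum_congr rfl
    intro i _
    rw [one_div]
  rw [← this]; exact h

theorem sum_alpha (c : ℝ) (hc : 0 ≤ c) (m : ℕ) :
    ∑ a ∈ range (m + 1), |(G m).coeff a| * c ^ a ≤ Real.exp (c * H m) := by
  induction m with
  | zero => simp [G, H]
  | succ m ih =>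
    have h2 : G (m + 1) = G m * (1 - C (1 / ((m : ℝ) + 1)) * X) := by
      unfold G; rw [Finset.prod_range_succ]
    have hco0 : (G (m + 1)).coeff 0 = (G m).coeff 0 := by
      rw [h2]; simp [mul_sub, mul_coeff_zero]
    have hco : ∀ a, (G (m + 1)).coeff (a + 1)
        = (G m).coeff (a + 1) - 1 / ((m : ℝ) + 1) * (G m).coeff a := by
      intro a
      rw [h2, mul_sub, mul_one, coeff_sub]
      congr 1
      rw [show G m * (C (1 / ((m : ℝ) + 1)) * X) = C (1 / ((m : ℝ) + 1)) * (G m * X) by ring,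
        coeff_C_mul, coeff_mul_X]
    have hz : (G m).coeff (m + 1) = 0 :=
      coeff_eq_zero_of_natDegree_lt (Nat.lt_succ_of_le (natDegree_G m))
    have h3 : ∑ a ∈ range (m + 1 + 1), |(G (m + 1)).coeff a| * c ^ a
        ≤ (∑ a ∈ range (m + 1), |(G m).coeff a| * c ^ a) * (1 + c / ((m : ℝ) + 1)) := by
      rw [Finset.sum_range_succ', hco0]
      have h4 : ∀ a ∈ range (m + 1), |(G (m + 1)).coeff (a + 1)| * c ^ (a + 1)
          ≤ |(G m).coeff (a + 1)| * c ^ (a + 1)
            + c / ((m : ℝ) + 1) * (|(G m).coeff a| * c ^ a) := by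
        intro a _
        rw [hco]
        have h5 : |(G m).coeff (a + 1) - 1 / ((m : ℝ) + 1) * (G m).coeff a|
            ≤ |(G m).coeff (a + 1)| + 1 / ((m : ℝ) + 1) * |(G m).coeff a| := by
          refine (abs_sub _ _).trans ?_
          rw [abs_mul, abs_of_nonneg (by positivity : (0 : ℝ) ≤ 1 / ((m : ℝ) + 1))]
        calc _ ≤ (|(G m).coeff (a + 1)| + 1 / ((m : ℝ) + 1) * |(G m).coeff a|) * c ^ (a + 1) := by
              gcongr
          _ = _ := by rw [pow_succ]; ring
      have h6 := Finset.sum_le_sum h4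
      rw [Finset.sum_add_distrib, ← Finset.mul_sum] at h6
      have h7 : ∑ a ∈ range (m + 1), |(G m).coeff (a + 1)| * c ^ (a + 1)
          + |(G m).coeff 0| * c ^ 0 = ∑ a ∈ range (m + 1), |(G m).coeff a| * c ^ a := by
        rw [← Finset.sum_range_succ' (fun a => |(G m).coeff a| * c ^ a) (m + 1),
          Finset.sum_range_succ, hz]
        simp
      linarith
    rw [H_succ, mul_add, Real.exp_add]
    refine h3.trans ?_
    apply mul_le_mul ih _ (by positivity) (by positivity)
    have := Real.add_one_le_exp (c * (1 / ((m : ℝ) + 1)))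
    calc 1 + c / ((m : ℝ) + 1) = c * (1 / ((m : ℝ) + 1)) + 1 := by ring
      _ ≤ _ := this

theorem sum_beta (m L : ℕ) (hm : L ≤ m + 1) (Q : ℕ → ℝ) :
    ∑ l ∈ range L, β m l * Q (l + 1) = ∑ a ∈ range (m + 1), (G m).coeff a *
      ∑ b ∈ range L, if a + b < L then Q (a + 1 + b) * H m ^ b / (b.factorial : ℝ) else 0 := by
  have h1 : ∑ a ∈ range (m + 1), (G m).coeff a *
      ∑ b ∈ range L, (if a + b < L then Q (a + 1 + b) * H m ^ b / (b.factorial : ℝ) else 0)
      = ∑ p ∈ (range (m + 1) ×ˢ range L).filter (fun p => p.1 + p.2 < L),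
        (G m).coeff p.1 * H m ^ p.2 / (p.2.factorial : ℝ) * Q (p.1 + p.2 + 1) := by
    rw [Finset.sum_filter, Finset.sum_product]
    apply Finset.sum_congr rfl
    intro a _
    rw [Finset.mul_sum]
    apply Finset.sum_congr rfl
    intro b _
    split_ifs with h
    · rw [show a + 1 + b = a + b + 1 by omega]; ring
    · simp
  rw [h1, ← Finset.sum_fiberwise_of_maps_to (s := (range (m + 1) ×ˢ range L).filter
    (fun p => p.1 + p.2 < L)) (t := range L) (g := fun p => p.1 + p.2)
    (fun p hp => by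
      rw [Finset.mem_filter] at hp
      exact Finset.mem_range.mpr hp.2)]
  apply Finset.sum_congr rfl
  intro l hl
  rw [Finset.mem_range] at hl
  unfold β
  rw [Finset.sum_mul]
  apply Finset.sum_congr
  · ext p
    simp only [Finset.HasAntidiagonal.mem_antidiagonal, Finset.mem_filter, Finset.mem_product, Finset.mem_range]
    omega
  · intro p hp
    rw [(Finset.mem_filter.mp hp).2]

/-- The normalised functions. -/
noncomputable def ph (N : ℕ) (Z : ℝ) (a : ℕ) (s : ℝ) : ℝ :=
  Real.exp (-s) * (tp N a).eval (Z + s) / Z ^ N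

theorem ph_deriv (N : ℕ) (Z : ℝ) (a : ℕ) (s : ℝ) :
    HasDerivAt (ph N Z a) (ph N Z (a + 1) s) s := by
  have h1 : HasDerivAt (fun s : ℝ => Real.exp (-s)) (-Real.exp (-s)) s := by
    simpa using (hasDerivAt_id s).neg.exp
  have h2 : HasDerivAt (fun s : ℝ => (tp N a).eval (Z + s))
      ((derivative (tp N a)).eval (Z + s)) s := by
    have h3 := HasDerivAt.comp_const_add Z s (Polynomial.hasDerivAt (tp N a) (Z + s))
    exact h3
  have h4 := (h1.mul h2).div_const (Z ^ N)
  refine h4.congr_deriv ?_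
  unfold ph
  rw [show tp N (a + 1) = derivative (tp N a) - tp N a from rfl, eval_sub]
  ring

theorem ph_zero (N : ℕ) (Z : ℝ) (hZ : 0 < Z) (a : ℕ) : ph N Z a 0 = q Z N a := by
  unfold ph
  rw [add_zero, eval_tp N Z hZ]
  simp
  field_simp

theorem ph_le (N : ℕ) (Z s : ℝ) (hZ : 0 < Z) (hs : 0 ≤ s) (h1 : (N : ℝ) ≤ Z + 1) (hsZ : s ≤ Z)
    (a : ℕ) : |ph N Z a s| ≤ 3 * |q (Z + s) N a| := by
  unfold ph
  rw [eval_tp N (Z + s) (by linarith), ← mul_assoc, mul_div_right_comm, abs_mul]
  apply mul_le_mul_of_nonneg_right _ (abs_nonneg _)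
  rw [abs_of_nonneg (by positivity), mul_div_assoc, ← div_pow]
  have h2 : (Z + s) / Z ≤ Real.exp (s / Z) := by
    have := Real.add_one_le_exp (s / Z)
    calc (Z + s) / Z = s / Z + 1 := by field_simp; ring
      _ ≤ _ := this
  have h3 : ((Z + s) / Z) ^ N ≤ Real.exp (s / Z) ^ N := by
    apply pow_le_pow_left₀ _ h2
    positivity
  calc Real.exp (-s) * ((Z + s) / Z) ^ N ≤ Real.exp (-s) * Real.exp (s / Z) ^ N := by gcongr
    _ = Real.exp (-s + N * (s / Z)) := by rw [← Real.exp_nat_mul, Real.exp_add]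
    _ ≤ Real.exp 1 := by
        apply Real.exp_le_exp.mpr
        have h4 : (N : ℝ) * (s / Z) ≤ (Z + 1) * (s / Z) := by gcongr
        have h5 : (Z + 1) * (s / Z) = s + s / Z := by field_simp
        have h6 : s / Z ≤ 1 := by rw [div_le_one hZ]; exact hsZ
        linarith
    _ ≤ 3 := by linarith [Real.exp_one_lt_d9]

end PA

open PA in
theorem expansion : S_A := by
  intro κ L
  obtain ⟨K, hK0, hK⟩ := key_q L
  refine ⟨20 * K * (L.factorial : ℝ) * Real.exp 2 * Real.exp 11, ?_⟩
  filter_upwards [eventually_ge_atTop (L + 2)] with m hm w hw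
  set N : ℕ := m + 2 + κ with hN
  set h : ℝ := H m with hh
  have hh0 : 0 ≤ h := H_nonneg m
  have hhm : h ≤ m := H_le m
  set Z : ℝ := (N : ℝ) + w with hZ
  have hNm : (m : ℝ) + 2 ≤ N := by
    rw [hN]; push_cast; linarith [(Nat.cast_nonneg κ : (0 : ℝ) ≤ κ)]
  have hm1 : (2 : ℝ) ≤ m := by
    have : 2 ≤ m := by omega
    exact_mod_cast this
  have hw1 := hw.1
  have hw2 := hw.2
  have hZm : (m : ℝ) ≤ Z := by linarith
  have hZ0 : 0 < Z := by linarith
  have hZ1 : 1 ≤ Z := by linarith
  set B : ℝ := K * (2 + h) ^ L / Z ^ (L / 2) with hB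
  have hB0 : 0 ≤ B := by positivity
  -- bounds for q
  have hq : ∀ s : ℝ, 0 ≤ s → s ≤ h → ∀ j, |q (Z + s) N (L + j)| ≤ B * 5 ^ j := by
    intro s hs hsh j
    refine (hK (Z + s) (by linarith) N (by linarith) j).trans ?_
    apply mul_le_mul_of_nonneg_right _ (by positivity)
    have habs : |Z + s - N| ≤ 1 + h := by
      rw [abs_le]; constructor <;> rw [hZ] <;> linarith
    rw [hB]
    have h1 : (1 + |Z + s - N|) ^ L ≤ (2 + h) ^ L :=
      pow_le_pow_left₀ (by positivity) (by linarith) L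
    have h2 : Z ^ (L / 2) ≤ (Z + s) ^ (L / 2) :=
      pow_le_pow_left₀ hZ0.le (by linarith) _
    have h3 : 0 < Z ^ (L / 2) := by positivity
    exact div_le_div₀ (by positivity) (mul_le_mul_of_nonneg_left h1 hK0) h3 h2
  have hφ : ∀ j, ∀ s ∈ Set.Icc 0 h, |ph N Z (L + j) s| ≤ 3 * (B * 5 ^ j) := by
    intro j s hs
    refine (ph_le N Z s hZ0 hs.1 (by linarith) (by linarith [hs.2]) _).trans ?_
    exact mul_le_mul_of_nonneg_left (hq s hs.1 hs.2 j) (by norm_num)
  -- value at Z + h
  have hval : ((m : ℝ) + 1) * (P (m + 1) N).eval (Z + h) * Real.exp (-h) / Z ^ N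
      = - ∑ a ∈ range (m + 1), (G m).coeff a * ph N Z (a + 1) h := by
    rw [P_eq, neg_mul, neg_div, Finset.sum_mul, Finset.sum_div]
    congr 1
    apply Finset.sum_congr rfl
    intro a _
    unfold ph
    ring
  rw [hval, sum_beta m L (by omega) (fun n => q Z N n)]
  rw [neg_add_eq_sub, ← Finset.sum_sub_distrib]
  -- termwise estimate
  have hterm : ∀ a ∈ range (m + 1), |(G m).coeff a * (∑ b ∈ range L,
        if a + b < L then q Z N (a + 1 + b) * H m ^ b / (b.factorial : ℝ) else 0)
        - (G m).coeff a * ph N Z (a + 1) h|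
      ≤ (20 * B * Real.exp (5 * h)) * (|(G m).coeff a| * 5 ^ a) := by
    intro a _
    rw [← mul_sub, abs_mul]
    have ht := taylor (ph N Z) (ph_deriv N Z) h (3 * (B * 5 ^ (a + 1))) L (a + 1)
      (fun s hs => by rw [add_comm (a + 1) L]; exact hφ (a + 1) s hs) h ⟨hh0, le_refl h⟩
    have hsplit : ∑ b ∈ range L, ph N Z (a + 1 + b) 0 * h ^ b / (b.factorial : ℝ)
        = (∑ b ∈ range L,
          if a + b < L then q Z N (a + 1 + b) * H m ^ b / (b.factorial : ℝ) else 0)
          + ∑ b ∈ range L,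
          if a + b < L then 0 else q Z N (a + 1 + b) * h ^ b / (b.factorial : ℝ) := by
      rw [← Finset.sum_add_distrib]
      apply Finset.sum_congr rfl
      intro b _
      rw [ph_zero N Z hZ0]
      split_ifs <;> simp [hh]
    have htail : |∑ b ∈ range L,
          if a + b < L then 0 else q Z N (a + 1 + b) * h ^ b / (b.factorial : ℝ)|
        ≤ B * 5 ^ (a + 1) * Real.exp (5 * h) := by
      refine (Finset.abs_sum_le_sum_abs _ _).trans ?_
      have h1 : ∀ b ∈ range L,
          |if a + b < L then 0 else q Z N (a + 1 + b) * h ^ b / (b.factorial : ℝ)|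
          ≤ B * 5 ^ (a + 1) * ((5 * h) ^ b / (b.factorial : ℝ)) := by
        intro b _
        split_ifs with hab
        · rw [abs_zero]; positivity
        · have h2 := hq 0 le_rfl hh0 (a + 1 + b - L)
          rw [add_zero, show L + (a + 1 + b - L) = a + 1 + b by omega] at h2
          have h3 : (5 : ℝ) ^ (a + 1 + b - L) ≤ 5 ^ (a + 1 + b) :=
            pow_le_pow_right₀ (by norm_num) (by omega)
          rw [abs_div, abs_mul, abs_of_nonneg (by positivity : (0 : ℝ) ≤ h ^ b),
            abs_of_nonneg (by positivity : (0 : ℝ) ≤ (b.factorial : ℝ))]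
          calc |q Z N (a + 1 + b)| * h ^ b / (b.factorial : ℝ)
              ≤ (B * 5 ^ (a + 1 + b)) * h ^ b / (b.factorial : ℝ) := by
                gcongr
                exact h2.trans (mul_le_mul_of_nonneg_left h3 hB0)
            _ = _ := by rw [pow_add 5 (a + 1) b, mul_pow]; ring
      refine (Finset.sum_le_sum h1).trans ?_
      rw [← Finset.mul_sum]
      exact mul_le_mul_of_nonneg_left (Real.sum_le_exp_of_nonneg (by positivity) L) (by positivity)
    have hpf : h ^ L / (L.factorial : ℝ) ≤ Real.exp h := Real.pow_div_factorial_le_exp h hh0 L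
    have he : Real.exp h ≤ Real.exp (5 * h) := Real.exp_le_exp.mpr (by linarith)
    have hR : 3 * (B * 5 ^ (a + 1)) * h ^ L / (L.factorial : ℝ)
        ≤ 3 * (B * 5 ^ (a + 1)) * Real.exp (5 * h) := by
      rw [mul_div_assoc]
      exact mul_le_mul_of_nonneg_left (hpf.trans he) (by positivity)
    have htot : |(∑ b ∈ range L,
          if a + b < L then q Z N (a + 1 + b) * H m ^ b / (b.factorial : ℝ) else 0)
          - ph N Z (a + 1) h| ≤ 20 * B * 5 ^ a * Real.exp (5 * h) := by
      rw [hsplit] at ht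
      rw [abs_le] at ht htail ⊢
      have e5 : (5 : ℝ) ^ (a + 1) = 5 * 5 ^ a := by ring
      rw [e5] at ht htail hR
      constructor <;> nlinarith [ht.1, ht.2, htail.1, htail.2, hR]
    calc |(G m).coeff a| * _ ≤ |(G m).coeff a| * (20 * B * 5 ^ a * Real.exp (5 * h)) :=
          mul_le_mul_of_nonneg_left htot (abs_nonneg _)
      _ = _ := by ring
  refine (Finset.abs_sum_le_sum_abs _ _).trans ((Finset.sum_le_sum hterm).trans ?_)
  rw [← Finset.mul_sum]
  have hal := sum_alpha 5 (by norm_num) m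
  have h11 : Real.exp (11 * h) ≤ Real.exp 11 * (m : ℝ) ^ 11 := by
    have h1 : 11 * h ≤ 11 + 11 * Real.log m := by linarith [H_log m]
    refine (Real.exp_le_exp.mpr h1).trans ?_
    rw [Real.exp_add]
    apply le_of_eq
    congr 1
    rw [show (11 : ℝ) * Real.log m = ((11 : ℕ) : ℝ) * Real.log m by norm_num,
      Real.exp_nat_mul, Real.exp_log (by linarith)]
  have hBle : B ≤ K * ((L.factorial : ℝ) * (Real.exp 2 * Real.exp h)) / (m : ℝ) ^ (L / 2) := by
    rw [hB]
    have h1 : (2 + h) ^ L ≤ (L.factorial : ℝ) * (Real.exp 2 * Real.exp h) := by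
      have h2 := Real.pow_div_factorial_le_exp (2 + h) (by linarith) L
      rw [div_le_iff₀ (by positivity), Real.exp_add] at h2
      linarith
    have hmp : (0 : ℝ) < (m : ℝ) ^ (L / 2) := by
      have : (0 : ℝ) < m := by linarith
      positivity
    gcongr
  have hmp : (0 : ℝ) < (m : ℝ) ^ (L / 2) := by
    have : (0 : ℝ) < m := by linarith
    positivity
  have hm0 : (0 : ℝ) < m := by linarith
  calc (20 * B * Real.exp (5 * h)) * ∑ a ∈ range (m + 1), |(G m).coeff a| * 5 ^ a
      ≤ (20 * (K * ((L.factorial : ℝ) * (Real.exp 2 * Real.exp h)) / (m : ℝ) ^ (L / 2))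
          * Real.exp (5 * h)) * Real.exp (5 * h) := by
        gcongr
    _ = 20 * K * (L.factorial : ℝ) * Real.exp 2 * Real.exp (11 * h) / (m : ℝ) ^ (L / 2) := by
        have : Real.exp (11 * h) = Real.exp h * Real.exp (5 * h) * Real.exp (5 * h) := by
          rw [← Real.exp_add, ← Real.exp_add]; congr 1; ring
        rw [this]; ring
    _ ≤ 20 * K * (L.factorial : ℝ) * Real.exp 2 * (Real.exp 11 * (m : ℝ) ^ 12)
          / (m : ℝ) ^ (L / 2) := by
        have : (m : ℝ) ^ 11 ≤ (m : ℝ) ^ 12 := pow_le_pow_right₀ (by linarith) (by norm_num)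
        have h2 : Real.exp (11 * h) ≤ Real.exp 11 * (m : ℝ) ^ 12 :=
          h11.trans (mul_le_mul_of_nonneg_left this (by positivity))
        gcongr
    _ = _ := by ring

end R308.LNK
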