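import Pool.Agent.R308.LNK.Defs

/-! Part B1: expansions of power sums and harmonic numbers in powers of `1/n`. -/

namespace R308.LNK.B1

open Polynomial Filter Asymptotics Finset Topology

/-- `a n = Q (1/n) + O(n^{-j})` -/
def E (j : ℕ) (a : ℕ → ℝ) (Q : ℝ[X]) : Prop :=
  (fun n : ℕ => a n - Q.eval (1 / (n : ℝ))) =O[atTop] fun n : ℕ => (1 / (n : ℝ)) ^ j

theorem tendsto_u : Tendsto (fun n : ℕ => (1 / (n : ℝ))) atTop (𝓝 0) :=
  tendsto_one_div_atTop_nhds_zero_nat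

theorem bigO_le {i j : ℕ} (h : i ≤ j) :
    (fun n : ℕ => (1 / (n : ℝ)) ^ j) =O[atTop] fun n : ℕ => (1 / (n : ℝ)) ^ i := by
  refine IsBigO.of_bound 1 ?_
  filter_upwards [eventually_ge_atTop 1] with n hn
  have h1 : (1 : ℝ) ≤ n := by exact_mod_cast hn
  have h2 : 0 ≤ 1 / (n : ℝ) := by positivity
  have h3 : 1 / (n : ℝ) ≤ 1 := by rw [div_le_one (by linarith)]; exact h1
  rw [Real.norm_of_nonneg (by positivity), Real.norm_of_nonneg (by positivity), one_mul]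
  exact pow_le_pow_of_le_one h2 h3 h

theorem E.mono {i j : ℕ} (h : i ≤ j) {a : ℕ → ℝ} {Q : ℝ[X]} (ha : E j a Q) : E i a Q :=
  IsBigO.trans ha (bigO_le h)

theorem poly_bdd (Q : ℝ[X]) : (fun n : ℕ => Q.eval (1 / (n : ℝ))) =O[atTop] fun _ : ℕ => (1 : ℝ) := by
  have h : Tendsto (fun n : ℕ => Q.eval (1 / (n : ℝ))) atTop (𝓝 (Q.eval 0)) :=
    (Q.continuous.tendsto 0).comp tendsto_u
  exact h.isBigO_one ℝ

theorem E.poly (j : ℕ) (Q : ℝ[X]) : E j (fun n => Q.eval (1 / (n : ℝ))) Q := by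
  unfold E
  simp only [sub_self]
  exact isBigO_zero _ _

theorem E.add {j : ℕ} {a b : ℕ → ℝ} {Q R : ℝ[X]} (ha : E j a Q) (hb : E j b R) :
    E j (fun n => a n + b n) (Q + R) := by
  refine (IsBigO.add ha hb).congr_left fun n => ?_
  rw [eval_add]; ring

theorem E.sub {j : ℕ} {a b : ℕ → ℝ} {Q R : ℝ[X]} (ha : E j a Q) (hb : E j b R) :
    E j (fun n => a n - b n) (Q - R) := by
  refine (IsBigO.sub ha hb).congr_left fun n => ?_
  rw [eval_sub]; ring

theorem E.bdd {j : ℕ} {a : ℕ → ℝ} {Q : ℝ[X]} (ha : E j a Q) : a =O[atTop] fun _ : ℕ => (1 : ℝ) := by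
  have h1 : (fun n : ℕ => (a n - Q.eval (1 / (n : ℝ))) + Q.eval (1 / (n : ℝ))) =O[atTop]
      fun _ : ℕ => (1 : ℝ) := by
    refine IsBigO.add ?_ (poly_bdd Q)
    have := (ha.mono (Nat.zero_le j))
    unfold E at this
    simpa using this
  refine h1.congr_left fun n => ?_
  ring

theorem E.mul {j : ℕ} {a b : ℕ → ℝ} {Q R : ℝ[X]} (ha : E j a Q) (hb : E j b R) :
    E j (fun n => a n * b n) (Q * R) := by
  have h1 : (fun n : ℕ => (a n - Q.eval (1 / (n : ℝ))) * b n) =O[atTop]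
      fun n : ℕ => (1 / (n : ℝ)) ^ j * 1 := IsBigO.mul ha hb.bdd
  have h2 : (fun n : ℕ => Q.eval (1 / (n : ℝ)) * (b n - R.eval (1 / (n : ℝ)))) =O[atTop]
      fun n : ℕ => 1 * (1 / (n : ℝ)) ^ j := IsBigO.mul (poly_bdd Q) hb
  simp only [mul_one] at h1
  simp only [one_mul] at h2
  refine (IsBigO.add h1 h2).congr_left fun n => ?_
  rw [eval_mul]; ring

theorem E.pow {j : ℕ} {a : ℕ → ℝ} {Q : ℝ[X]} (ha : E j a Q) (r : ℕ) :
    E j (fun n => a n ^ r) (Q ^ r) := by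
  induction r with
  | zero =>
    have := E.poly j (1 : ℝ[X])
    simpa using this
  | succ r ih =>
    have := ih.mul ha
    simpa [pow_succ] using this

theorem E.comp {j : ℕ} {a : ℕ → ℝ} {R : ℝ[X]} (ha : E j a R) (Q : ℝ[X]) :
    E j (fun n => Q.eval (a n)) (Q.comp R) := by
  induction Q using Polynomial.induction_on' with
  | add p q hp hq =>
    have := hp.add hq
    simpa [eval_add, add_comp] using this
  | monomial n c =>
    have h1 := (E.poly j (C c)).mul (ha.pow n)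
    simpa [eval_monomial, monomial_comp] using h1

/-- `1/(n-1)` -/
noncomputable def RM (j : ℕ) : ℝ[X] := ∑ i ∈ range j, X ^ (i + 1)

theorem rm_exact (j : ℕ) {u : ℝ} (hu : u < 1) :
    u / (1 - u) - (RM j).eval u = u ^ (j + 1) / (1 - u) := by
  have h1 : (1 : ℝ) - u ≠ 0 := by linarith
  have h2 : (RM j).eval u = u * ∑ i ∈ range j, u ^ i := by
    rw [RM, eval_finsetSum, Finset.mul_sum]
    refine Finset.sum_congr rfl fun i _ => ?_
    rw [eval_pow, eval_X]; ring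
  have h3 : (∑ i ∈ range j, u ^ i) * (1 - u) = 1 - u ^ j := by
    have := geom_sum_mul u j
    linarith
  rw [h2, eq_div_iff h1, sub_mul, div_mul_cancel₀ _ h1, mul_assoc, h3]; ring

theorem u_half {n : ℕ} (hn : 2 ≤ n) : 0 < 1 / (n : ℝ) ∧ 1 / (n : ℝ) ≤ 1 / 2 := by
  have h1 : (2 : ℝ) ≤ n := by exact_mod_cast hn
  exact ⟨by positivity, one_div_le_one_div_of_le (by norm_num) h1⟩

theorem inv_sub_one {n : ℕ} (hn : 2 ≤ n) : 1 / ((n : ℝ) - 1) = (1 / (n : ℝ)) / (1 - 1 / (n : ℝ)) := by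
  have h1 : (2 : ℝ) ≤ n := by exact_mod_cast hn
  have h2 : (n : ℝ) ≠ 0 := by linarith
  have h3 : (n : ℝ) - 1 ≠ 0 := by linarith
  field_simp

theorem E_RM (j : ℕ) : E j (fun n => 1 / ((n : ℝ) - 1)) (RM j) := by
  refine IsBigO.of_bound 1 ?_
  filter_upwards [eventually_ge_atTop 2] with n hn
  obtain ⟨h1, h2⟩ := u_half hn
  rw [inv_sub_one hn, rm_exact j (by linarith)]
  set u := 1 / (n : ℝ)
  have h3 : 0 < 1 - u := by linarith
  rw [Real.norm_of_nonneg (by positivity), Real.norm_of_nonneg (by positivity), one_mul, pow_succ,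
    mul_div_assoc]
  refine mul_le_of_le_one_right (by positivity) ?_
  rw [div_le_one h3]; linarith

/-- `1/(n+1)` -/
noncomputable def RP (j : ℕ) : ℝ[X] := - (RM j).comp (-X)

theorem E_RP (j : ℕ) : E j (fun n => 1 / ((n : ℝ) + 1)) (RP j) := by
  refine IsBigO.of_bound 1 ?_
  filter_upwards [eventually_ge_atTop 2] with n hn
  obtain ⟨h1, h2⟩ := u_half hn
  have hn0 : (0 : ℝ) < n := by
    have : (2 : ℝ) ≤ n := by exact_mod_cast hn
    linarith
  have h4 : 1 / ((n : ℝ) + 1) = (1 / (n : ℝ)) / (1 + 1 / (n : ℝ)) := by field_simp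
  rw [h4, RP, eval_neg, eval_comp, eval_neg, eval_X]
  set u := 1 / (n : ℝ)
  have h3 : 0 < 1 + u := by linarith
  have h5 := rm_exact j (u := -u) (by linarith)
  have h6 : u / (1 + u) - -(RM j).eval (-u) = - ((-u) ^ (j + 1) / (1 + u)) := by
    have e1 : (1 : ℝ) - -u = 1 + u := by ring
    rw [e1] at h5
    have e2 : -u / (1 + u) = - (u / (1 + u)) := neg_div _ _
    rw [e2] at h5
    linarith
  rw [h6, norm_neg, norm_div, norm_pow, norm_neg, Real.norm_of_nonneg h1.le, Real.norm_of_nonneg h3.le,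
    norm_pow, Real.norm_of_nonneg h1.le, one_mul, pow_succ, mul_div_assoc]
  refine mul_le_of_le_one_right (by positivity) ?_
  rw [div_le_one h3]; linarith

/-- (U) -/
theorem dvd_of_bigO (j : ℕ) (Q : ℝ[X])
    (h : (fun n : ℕ => Q.eval (1 / (n : ℝ))) =O[atTop] fun n : ℕ => (1 / (n : ℝ)) ^ j) : X ^ j ∣ Q := by
  induction j with
  | zero => simp
  | succ j ih =>
    obtain ⟨R, hR⟩ := ih (h.trans (bigO_le (Nat.le_succ j)))
    have h1 : (fun n : ℕ => R.eval (1 / (n : ℝ))) =O[atTop] fun n : ℕ => 1 / (n : ℝ) := by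
      obtain ⟨C, hC⟩ := h.bound
      refine IsBigO.of_bound C ?_
      filter_upwards [hC, eventually_ge_atTop 2] with n hn hn2
      obtain ⟨h1, h2⟩ := u_half hn2
      rw [hR, eval_mul, eval_pow, eval_X, norm_mul, pow_succ, norm_mul, norm_pow,
        Real.norm_of_nonneg h1.le] at hn
      rw [Real.norm_of_nonneg h1.le]
      have h3 : 0 < (1 / (n : ℝ)) ^ j := by positivity
      refine le_of_mul_le_mul_left ?_ h3
      calc (1 / (n : ℝ)) ^ j * ‖eval (1 / (n : ℝ)) R‖ ≤ C * ((1 / (n : ℝ)) ^ j * (1 / (n : ℝ))) := hn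
        _ = (1 / (n : ℝ)) ^ j * (C * (1 / (n : ℝ))) := by ring
    have h2 : Tendsto (fun n : ℕ => R.eval (1 / (n : ℝ))) atTop (𝓝 0) := h1.trans_tendsto tendsto_u
    have h3 : Tendsto (fun n : ℕ => R.eval (1 / (n : ℝ))) atTop (𝓝 (R.eval 0)) :=
      (R.continuous.tendsto 0).comp tendsto_u
    have h4 := tendsto_nhds_unique h2 h3
    have h5 : X ∣ R := by
      rw [X_dvd_iff, coeff_zero_eq_eval_zero, ← h4]
    obtain ⟨S, hS⟩ := h5
    exact ⟨S, by rw [hR, hS, pow_succ]; ring⟩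

/-- consequence of (U) -/
theorem leading (j : ℕ) {a : ℕ → ℝ} {Q : ℝ[X]} (ha : E (j + 1) a Q)
    (hO : a =O[atTop] fun n : ℕ => (1 / (n : ℝ)) ^ j) :
    ∃ d : ℝ, (fun n : ℕ => a n - d * (1 / (n : ℝ)) ^ j) =O[atTop] fun n : ℕ => (1 / (n : ℝ)) ^ (j + 1) := by
  have h1 : (fun n : ℕ => Q.eval (1 / (n : ℝ))) =O[atTop] fun n : ℕ => (1 / (n : ℝ)) ^ j := by
    refine (hO.sub (ha.mono (Nat.le_succ j))).congr_left fun n => ?_
    ring
  obtain ⟨R, hR⟩ := dvd_of_bigO j Q h1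
  refine ⟨R.coeff 0, ?_⟩
  obtain ⟨S, hS⟩ : ∃ S, R = C (R.coeff 0) + X * S := ⟨R.divX, by
    have := R.divX_mul_X_add
    rw [add_comm, mul_comm] at this; exact this.symm⟩
  have h2 : (fun n : ℕ => (1 / (n : ℝ)) ^ (j + 1) * S.eval (1 / (n : ℝ))) =O[atTop]
      fun n : ℕ => (1 / (n : ℝ)) ^ (j + 1) * 1 := (isBigO_refl _ _).mul (poly_bdd S)
  simp only [mul_one] at h2
  refine (IsBigO.add ha h2).congr_left fun n => ?_
  rw [hR, hS, eval_mul, eval_add, eval_mul, eval_pow, eval_X, eval_C]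
  simp only [coeff_add, coeff_C_zero, coeff_X_mul_zero, add_zero]
  ring

theorem pow_diff (J : ℕ) : (fun n : ℕ => (1 / ((n : ℝ) + 1)) ^ J - (1 / (n : ℝ)) ^ J
    + J * (1 / (n : ℝ)) ^ (J + 1)) =O[atTop] fun n : ℕ => (1 / (n : ℝ)) ^ (J + 2) := by
  refine IsBigO.of_bound ((J : ℝ) ^ 2) ?_
  filter_upwards [eventually_ge_atTop 2] with n hn
  obtain ⟨h1, h2⟩ := u_half hn
  have hn0 : (0 : ℝ) < n := by
    have : (2 : ℝ) ≤ n := by exact_mod_cast hn
    linarith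
  have h4 : 1 / ((n : ℝ) + 1) = (1 / (n : ℝ)) * (1 + 1 / (n : ℝ))⁻¹ := by field_simp
  rw [h4]
  set u := 1 / (n : ℝ)
  have h3 : 0 < 1 + u := by linarith
  have e1 : (u * (1 + u)⁻¹) ^ J - u ^ J + J * u ^ (J + 1) = u ^ J * (((1 + u)⁻¹) ^ J - 1 + J * u) := by
    rw [mul_pow]; ring
  have hlow : 0 ≤ ((1 + u)⁻¹) ^ J - 1 + J * u := by
    have h5 : 1 - u ≤ (1 + u)⁻¹ := by
      rw [← one_div, le_div_iff₀ h3]; nlinarith
    have h6 := one_add_mul_le_pow (a := -u) (by linarith) J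
    have h7 : (1 + -u) ^ J ≤ ((1 + u)⁻¹) ^ J := pow_le_pow_left₀ (by linarith) (by linarith) J
    linarith
  have hup : ((1 + u)⁻¹) ^ J - 1 + J * u ≤ (J : ℝ) ^ 2 * u ^ 2 := by
    have h6 := one_add_mul_le_pow (a := u) (by linarith) J
    have hJ : (0 : ℝ) ≤ J := Nat.cast_nonneg _
    have h7 : 0 < 1 + J * u := by positivity
    have h8 : ((1 + u)⁻¹) ^ J ≤ 1 / (1 + J * u) := by
      rw [inv_pow, ← one_div]
      exact one_div_le_one_div_of_le h7 h6
    have h9 : 1 / (1 + J * u) ≤ 1 - J * u + (J * u) ^ 2 := by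
      rw [div_le_iff₀ h7]
      have : 0 ≤ (J * u) ^ 3 := by positivity
      nlinarith
    nlinarith
  rw [e1, Real.norm_of_nonneg (mul_nonneg (by positivity) hlow), Real.norm_of_nonneg (by positivity)]
  calc u ^ J * (((1 + u)⁻¹) ^ J - 1 + J * u) ≤ u ^ J * ((J : ℝ) ^ 2 * u ^ 2) :=
        mul_le_mul_of_nonneg_left hup (by positivity)
    _ = (J : ℝ) ^ 2 * u ^ (J + 2) := by ring

/-- (I) -/
theorem exists_sum (c : ℝ[X]) (hc : X ^ 2 ∣ c) (J : ℕ) (hJ : 1 ≤ J) :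
    ∃ Q : ℝ[X], Q.coeff 0 = 0 ∧ (fun n : ℕ => Q.eval (1 / ((n : ℝ) + 1)) - Q.eval (1 / (n : ℝ))
      - c.eval (1 / (n : ℝ))) =O[atTop] fun n : ℕ => (1 / (n : ℝ)) ^ (J + 1) := by
  induction J, hJ using Nat.le_induction with
  | base =>
    refine ⟨0, by simp, ?_⟩
    obtain ⟨d, rfl⟩ := hc
    have h2 : (fun n : ℕ => (1 / (n : ℝ)) ^ 2 * d.eval (1 / (n : ℝ))) =O[atTop]
        fun n : ℕ => (1 / (n : ℝ)) ^ 2 * 1 := (isBigO_refl _ _).mul (poly_bdd d)
    simp only [mul_one] at h2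
    refine h2.neg_left.congr_left fun n => ?_
    rw [eval_mul, eval_pow, eval_X]; simp
  | succ J hJ ih =>
    obtain ⟨Q, hQ0, hQ⟩ := ih
    have h1 : E (J + 2) (fun n : ℕ => Q.eval (1 / ((n : ℝ) + 1)) - Q.eval (1 / (n : ℝ)) - c.eval (1 / (n : ℝ)))
        (Q.comp (RP (J + 2)) - Q - c) :=
      (((E_RP (J + 2)).comp Q).sub (E.poly _ Q)).sub (E.poly _ c)
    obtain ⟨d, hd⟩ := leading (J + 1) h1 hQ
    have hJR : (J : ℝ) ≠ 0 := by
      have : J ≠ 0 := by omega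
      exact_mod_cast this
    refine ⟨Q + C (d / J) * X ^ J, ?_, ?_⟩
    · rw [coeff_add, hQ0, coeff_C_mul, coeff_X_pow, if_neg (by omega)]; simp
    · have h2 := (pow_diff J).const_mul_left (d / J)
      refine (hd.add h2).congr_left fun n => ?_
      simp only [eval_add, eval_mul, eval_C, eval_pow, eval_X]
      field_simp
      ring

/-- telescoping -/
theorem telescope (J : ℕ) (hJ : 1 ≤ J) {b : ℕ → ℝ} {l : ℝ}
    (h : (fun n : ℕ => b (n + 1) - b n) =O[atTop] fun n : ℕ => (1 / (n : ℝ)) ^ (J + 1))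
    (hl : Tendsto b atTop (𝓝 l)) : (fun n : ℕ => b n - l) =O[atTop] fun n : ℕ => (1 / (n : ℝ)) ^ J := by
  obtain ⟨K, hK0, hK⟩ := h.exists_nonneg
  rw [IsBigOWith, eventually_atTop] at hK
  obtain ⟨n0, hn0⟩ := hK
  set K' := 2 ^ J * K with hK'
  have hK'0 : 0 ≤ K' := by positivity
  have hstep : ∀ n ≥ max n0 2, |b (n + 1) - b n| ≤ K' * ((1 / (n : ℝ)) ^ J - (1 / ((n + 1 : ℕ) : ℝ)) ^ J) := by
    intro n hn
    have h1 := hn0 n ((le_max_left _ _).trans hn)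
    have hn2 : 2 ≤ n := (le_max_right _ _).trans hn
    have hnR : (2 : ℝ) ≤ n := by exact_mod_cast hn2
    have hnp : (0 : ℝ) < n := by linarith
    rw [Real.norm_eq_abs, Real.norm_of_nonneg (by positivity)] at h1
    refine h1.trans ?_
    rw [hK']
    have h2 : (1 / (n : ℝ)) ^ (J + 1) ≤ 2 ^ J * ((1 / (n : ℝ)) ^ J - (1 / ((n + 1 : ℕ) : ℝ)) ^ J) := by
      push_cast
      have hp1 : (0 : ℝ) < (n : ℝ) ^ J := by positivity
      have hp2 : (0 : ℝ) < ((n : ℝ) + 1) ^ J := by positivity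
      have e1 : (1 / (n : ℝ)) ^ J - (1 / ((n : ℝ) + 1)) ^ J =
          (((n : ℝ) + 1) ^ J - (n : ℝ) ^ J) / ((n : ℝ) ^ J * ((n : ℝ) + 1) ^ J) := by
        rw [div_pow, div_pow, one_pow]; field_simp
      have e2 : (n : ℝ) ^ (J - 1) ≤ ((n : ℝ) + 1) ^ J - (n : ℝ) ^ J := by
        obtain ⟨k, rfl⟩ : ∃ k, J = k + 1 := ⟨J - 1, by omega⟩
        rw [Nat.add_sub_cancel]
        have e3 : (n : ℝ) ^ k ≤ ((n : ℝ) + 1) ^ k := pow_le_pow_left₀ hnp.le (by linarith) k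
        have e4 : ((n : ℝ) + 1) ^ (k + 1) = ((n : ℝ) + 1) ^ k * (n : ℝ) + ((n : ℝ) + 1) ^ k := by ring
        have e5 : (n : ℝ) ^ (k + 1) = (n : ℝ) ^ k * (n : ℝ) := by ring
        have e6 : (n : ℝ) ^ k * (n : ℝ) ≤ ((n : ℝ) + 1) ^ k * (n : ℝ) := mul_le_mul_of_nonneg_right e3 hnp.le
        linarith
      have e3 : ((n : ℝ) + 1) ^ J ≤ 2 ^ J * (n : ℝ) ^ J := by
        rw [← mul_pow]
        exact pow_le_pow_left₀ (by positivity) (by linarith) J
      have e4 : (n : ℝ) ^ J = (n : ℝ) ^ (J - 1) * n := by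
        rw [← pow_succ]; congr 1; omega
      rw [e1, one_div, inv_pow, mul_div_assoc', le_div_iff₀ (by positivity), inv_mul_le_iff₀ (by positivity)]
      calc (n : ℝ) ^ J * ((n : ℝ) + 1) ^ J ≤ (n : ℝ) ^ J * (2 ^ J * (n : ℝ) ^ J) :=
            mul_le_mul_of_nonneg_left e3 hp1.le
        _ = (n : ℝ) ^ (J + 1) * (2 ^ J * (n : ℝ) ^ (J - 1)) := by rw [pow_succ, e4]; ring
        _ ≤ (n : ℝ) ^ (J + 1) * (2 ^ J * (((n : ℝ) + 1) ^ J - (n : ℝ) ^ J)) :=
            mul_le_mul_of_nonneg_left (mul_le_mul_of_nonneg_left e2 (by positivity)) (by positivity)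
    calc K * (1 / (n : ℝ)) ^ (J + 1) ≤ K * (2 ^ J * ((1 / (n : ℝ)) ^ J - (1 / ((n + 1 : ℕ) : ℝ)) ^ J)) :=
          mul_le_mul_of_nonneg_left h2 hK0
      _ = _ := by ring
  have hu0 : Tendsto (fun n : ℕ => K' * (1 / (n : ℝ)) ^ J) atTop (𝓝 0) := by
    have := (tendsto_u.pow J).const_mul K'
    rw [zero_pow (by omega), mul_zero] at this
    exact this
  refine IsBigO.of_bound K' ?_
  filter_upwards [eventually_ge_atTop (max n0 2)] with n hn
  have hA : ∀ m ≥ n, b m + K' * (1 / (m : ℝ)) ^ J ≤ b n + K' * (1 / (n : ℝ)) ^ J := by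
    intro m hm
    induction m, hm using Nat.le_induction with
    | base => exact le_refl _
    | succ m hm ih =>
      have h1 := hstep m (hn.trans hm)
      have h2 := le_abs_self (b (m + 1) - b m)
      linarith [h1, h2, ih]
  have hB : ∀ m ≥ n, b n - K' * (1 / (n : ℝ)) ^ J ≤ b m - K' * (1 / (m : ℝ)) ^ J := by
    intro m hm
    induction m, hm using Nat.le_induction with
    | base => exact le_refl _
    | succ m hm ih =>
      have h1 := hstep m (hn.trans hm)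
      have h2 := neg_abs_le (b (m + 1) - b m)
      linarith [h1, h2, ih]
  have hAl : l ≤ b n + K' * (1 / (n : ℝ)) ^ J := by
    have h1 : Tendsto (fun m : ℕ => b m + K' * (1 / (m : ℝ)) ^ J) atTop (𝓝 (l + 0)) := hl.add hu0
    rw [add_zero] at h1
    exact le_of_tendsto h1 (eventually_atTop.2 ⟨n, hA⟩)
  have hBl : b n - K' * (1 / (n : ℝ)) ^ J ≤ l := by
    have h1 : Tendsto (fun m : ℕ => b m - K' * (1 / (m : ℝ)) ^ J) atTop (𝓝 (l - 0)) := hl.sub hu0
    rw [sub_zero] at h1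
    exact ge_of_tendsto h1 (eventually_atTop.2 ⟨n, hB⟩)
  rw [Real.norm_eq_abs, Real.norm_of_nonneg (by positivity), abs_le]
  constructor <;> linarith

/-- (S) -/
theorem expand_of_increment (J : ℕ) (hJ : 1 ≤ J) {a : ℕ → ℝ} {l : ℝ} {c : ℝ[X]} (hc : X ^ 2 ∣ c)
    (h : E (J + 1) (fun n => a (n + 1) - a n) c) (hl : Tendsto a atTop (𝓝 l)) :
    ∃ Q : ℝ[X], Q.coeff 0 = l ∧ E J a Q := by
  obtain ⟨Q, hQ0, hQ⟩ := exists_sum c hc J hJ
  set b : ℕ → ℝ := fun n => a n - Q.eval (1 / (n : ℝ)) with hb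
  have h1 : (fun n : ℕ => b (n + 1) - b n) =O[atTop] fun n : ℕ => (1 / (n : ℝ)) ^ (J + 1) := by
    refine (IsBigO.sub h hQ).congr_left fun n => ?_
    simp only [hb]
    push_cast
    ring
  have h2 : Tendsto b atTop (𝓝 l) := by
    have h3 : Tendsto (fun n : ℕ => Q.eval (1 / (n : ℝ))) atTop (𝓝 (Q.eval 0)) :=
      (Q.continuous.tendsto 0).comp tendsto_u
    rw [← coeff_zero_eq_eval_zero, hQ0] at h3
    have := hl.sub h3
    rwa [sub_zero] at this
  have h3 := telescope J hJ h1 h2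
  refine ⟨Q + C l, by rw [coeff_add, hQ0, coeff_C_zero, zero_add], ?_⟩
  refine h3.congr_left fun n => ?_
  simp only [hb]
  rw [eval_add, eval_C]; ring

theorem Cl_of_E {j : ℕ} {a : ℕ → ℝ} {Q : ℝ[X]} (h : E j a Q) : Cl j (C (Q.coeff 0)) (fun n _ => a n) := by
  refine ⟨Q.map C, by rw [coeff_map], fun κ => ?_⟩
  refine h.congr_left fun n => ?_
  congr 1
  rw [evalEval, eval_map]
  have h1 : ∀ y : ℝ, eval₂ C (C y) Q = C (Q.eval y) := by
    intro y
    rw [← eval₂_at_apply]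
  rw [h1, eval_C]

theorem X_dvd_RM (j : ℕ) : X ∣ RM j := by
  rw [RM]
  exact Finset.dvd_sum fun i _ => ⟨X ^ i, by ring⟩

theorem tendsto_sub_two : Tendsto (fun n : ℕ => n - 2) atTop atTop := tendsto_sub_atTop_nat 2

theorem part_r (r : ℕ) (hr : 2 ≤ r) (j : ℕ) :
    Cl j (C (∑' i : ℕ, 1 / ((i : ℝ) + 1) ^ r)) (fun n _ => Hr r (n - 2)) := by
  have hsum : Summable (fun i : ℕ => 1 / ((i : ℝ) + 1) ^ r) := by
    have h1 : Summable (fun i : ℕ => 1 / (i : ℝ) ^ r) := Real.summable_one_div_nat_pow.2 (by omega)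
    have h2 := (summable_nat_add_iff 1).2 h1
    simpa using h2
  have hlim : Tendsto (fun n => Hr r (n - 2)) atTop (𝓝 (∑' i : ℕ, 1 / ((i : ℝ) + 1) ^ r)) :=
    hsum.hasSum.tendsto_sum_nat.comp tendsto_sub_two
  have hinc : E (j + 1 + 1) (fun n => Hr r (n + 1 - 2) - Hr r (n - 2)) (RM (j + 1 + 1) ^ r) := by
    have h1 := (E_RM (j + 1 + 1)).pow r
    refine h1.congr' ?_ (EventuallyEq.refl _ _)
    filter_upwards [eventually_ge_atTop 2] with n hn
    have h2 : n + 1 - 2 = (n - 2) + 1 := by omega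
    rw [h2, Hr, Hr, Finset.sum_range_succ, Nat.cast_sub hn, one_div_pow]
    push_cast
    ring
  obtain ⟨Q, hQ0, hQ⟩ := expand_of_increment (j + 1) (by omega)
    ((pow_dvd_pow X hr).trans (pow_dvd_pow_of_dvd (X_dvd_RM _) r)) hinc hlim
  have := Cl_of_E (hQ.mono (Nat.le_succ j))
  rwa [hQ0] at this

/-- the polynomial of `log (1 + u)` -/
noncomputable def LP (j : ℕ) : ℝ[X] := - ∑ i ∈ range j, C (1 / ((i : ℝ) + 1)) * (-X) ^ (i + 1)

theorem E_LP (j : ℕ) : E j (fun n => Real.log (1 + 1 / (n : ℝ))) (LP j) := by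
  refine IsBigO.of_bound 2 ?_
  filter_upwards [eventually_ge_atTop 2] with n hn
  obtain ⟨h1, h2⟩ := u_half hn
  set u := 1 / (n : ℝ)
  have h3 := Real.abs_log_sub_add_sum_range_le (x := -u) (by rw [abs_neg, abs_of_pos h1]; linarith) j
  rw [abs_neg, abs_of_pos h1, sub_neg_eq_add] at h3
  have h4 : (LP j).eval u = - ∑ i ∈ range j, (-u) ^ (i + 1) / ((i : ℝ) + 1) := by
    rw [LP, eval_neg, eval_finsetSum]
    congr 1
    refine Finset.sum_congr rfl fun i _ => ?_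
    rw [eval_mul, eval_C, eval_pow, eval_neg, eval_X]; ring
  rw [h4, Real.norm_eq_abs, Real.norm_of_nonneg (by positivity)]
  have h5 : Real.log (1 + u) - - ∑ i ∈ range j, (-u) ^ (i + 1) / ((i : ℝ) + 1) =
      ∑ i ∈ range j, (-u) ^ (i + 1) / ((i : ℝ) + 1) + Real.log (1 + u) := by ring
  rw [h5]
  refine h3.trans ?_
  have h6 : 0 < 1 - u := by linarith
  rw [div_le_iff₀ h6, pow_succ]
  have h7 : 0 < u ^ j := by positivity
  nlinarith

theorem inc_log {n : ℕ} (hn : 2 ≤ n) : (H (n + 1 - 2) - Real.log ((n + 1 : ℕ) : ℝ)) - (H (n - 2) - Real.log (n : ℝ)) =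
    1 / ((n : ℝ) - 1) - Real.log (1 + 1 / (n : ℝ)) := by
  have hn0 : (0 : ℝ) < n := by
    have : (2 : ℝ) ≤ n := by exact_mod_cast hn
    linarith
  have h2 : n + 1 - 2 = (n - 2) + 1 := by omega
  have h3 : Real.log (1 + 1 / (n : ℝ)) = Real.log ((n : ℝ) + 1) - Real.log n := by
    rw [← Real.log_div (by positivity) (by positivity)]
    congr 1
    field_simp
  rw [h2, H, H, Finset.sum_range_succ, Nat.cast_sub hn, h3]
  push_cast
  ring

theorem tendsto_H : Tendsto (fun n : ℕ => H (n - 2) - Real.log (n : ℝ)) atTop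
    (𝓝 Real.eulerMascheroniConstant) := by
  have h1 := Real.tendsto_harmonic_sub_log
  have h2 : Tendsto (fun n : ℕ => 1 / ((n : ℝ) - 1) + 1 / (n : ℝ)) atTop (𝓝 0) := by
    have h3 : Tendsto (fun n : ℕ => 1 / ((n : ℝ) - 1)) atTop (𝓝 0) := by
      have h4 := (E_RM 1)
      have h5 : Tendsto (fun n : ℕ => 1 / ((n : ℝ) - 1) - (RM 1).eval (1 / (n : ℝ))) atTop (𝓝 0) := by
        refine IsBigO.trans_tendsto h4 ?_
        simpa using tendsto_u
      have h6 : Tendsto (fun n : ℕ => (RM 1).eval (1 / (n : ℝ))) atTop (𝓝 0) := by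
        have h7 : Tendsto (fun n : ℕ => (RM 1).eval (1 / (n : ℝ))) atTop (𝓝 ((RM 1).eval 0)) :=
          ((RM 1).continuous.tendsto 0).comp tendsto_u
        simpa [RM] using h7
      have h7 := h5.add h6
      rw [add_zero] at h7
      refine h7.congr fun n => ?_
      ring
    have := h3.add tendsto_u
    rwa [add_zero] at this
  have h3 := h1.sub h2
  rw [sub_zero] at h3
  refine h3.congr' ?_
  filter_upwards [eventually_ge_atTop 2] with n hn
  have h4 : (harmonic n : ℝ) = H n := by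
    rw [harmonic, H]
    push_cast
    refine Finset.sum_congr rfl fun i _ => ?_
    rw [one_div]
  have h5 : H n = H (n - 2) + 1 / ((n : ℝ) - 1) + 1 / (n : ℝ) := by
    obtain ⟨k, rfl⟩ : ∃ k, n = k + 2 := ⟨n - 2, by omega⟩
    rw [Nat.add_sub_cancel, H, Finset.sum_range_succ, Finset.sum_range_succ, ← H]
    have e1 : (((k + 2 : ℕ) : ℝ)) - 1 = (k : ℝ) + 1 := by push_cast; ring
    have e2 : (((k + 1 : ℕ) : ℝ)) + 1 = ((k + 2 : ℕ) : ℝ) := by push_cast; ring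
    rw [e1, e2]
  rw [h4, h5]; ring

theorem dvd_c (j : ℕ) : X ^ 2 ∣ RM (j + 1) - LP (j + 1) := by
  rw [RM, LP, sub_neg_eq_add, Finset.sum_range_succ', Finset.sum_range_succ']
  have h1 : (∑ k ∈ range j, (X : ℝ[X]) ^ (k + 1 + 1) + X ^ (0 + 1) +
      (∑ k ∈ range j, C (1 / (((k + 1 : ℕ) : ℝ) + 1)) * (-X) ^ (k + 1 + 1) + C (1 / (((0 : ℕ) : ℝ) + 1)) * (-X) ^ (0 + 1))) =
      ∑ k ∈ range j, (X : ℝ[X]) ^ (k + 1 + 1) + ∑ k ∈ range j, C (1 / (((k + 1 : ℕ) : ℝ) + 1)) * (-X) ^ (k + 1 + 1) := by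
    simp only [Nat.cast_zero, zero_add, div_one, C_1, one_mul, pow_one]; ring
  rw [h1]
  refine dvd_add (Finset.dvd_sum fun i _ => ⟨X ^ i, by ring⟩)
    (Finset.dvd_sum fun i _ => ⟨C (1 / (((i + 1 : ℕ) : ℝ) + 1)) * (-1) ^ (i + 1 + 1) * X ^ i, ?_⟩)
  rw [neg_pow (X : ℝ[X])]; ring

theorem first_order : (fun n : ℕ => (n : ℝ) * (H (n - 2) - Real.log n - Real.eulerMascheroniConstant) - (-3 / 2))
    =O[atTop] fun n : ℕ => (1 / (n : ℝ)) ^ 1 := by
  have hb : Tendsto (fun n : ℕ => H (n - 2) - Real.log (n : ℝ) + (3 / 2) * (1 / (n : ℝ))) atTop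
      (𝓝 Real.eulerMascheroniConstant) := by
    have := tendsto_H.add (tendsto_u.const_mul (3 / 2))
    simpa using this
  have hinc : (fun n : ℕ => (H (n + 1 - 2) - Real.log ((n + 1 : ℕ) : ℝ) + (3 / 2) * (1 / ((n + 1 : ℕ) : ℝ))) -
      (H (n - 2) - Real.log (n : ℝ) + (3 / 2) * (1 / (n : ℝ)))) =O[atTop] fun n : ℕ => (1 / (n : ℝ)) ^ (2 + 1) := by
    have h1 := (E_RM 3).sub (E_LP 3)
    have h2 := (pow_diff 1).const_mul_left (3 / 2)
    -- the polynomial of the increment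
    have h3 : (fun n : ℕ => (RM 3 - LP 3 - C (3 / 2) * X ^ 2).eval (1 / (n : ℝ))) =O[atTop]
        fun n : ℕ => (1 / (n : ℝ)) ^ 3 := by
      have h4 : (RM 3 - LP 3 - C (3 / 2) * X ^ 2 : ℝ[X]) = X ^ 3 * C (2 / 3) := by
        have e1 : (RM 3 : ℝ[X]) = X + X ^ 2 + X ^ 3 := by
          rw [RM]; simp [Finset.sum_range_succ]
        have e2 : (LP 3 : ℝ[X]) = X - C (1 / 2) * X ^ 2 + C (1 / 3) * X ^ 3 := by
          rw [LP]
          simp only [Finset.sum_range_succ, Finset.sum_range_zero, Nat.cast_zero, Nat.cast_one, Nat.cast_ofNat, zero_add,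
            div_one, C_1, one_mul, pow_one]
          have e3 : (1 : ℝ) / (1 + 1) = 1 / 2 := by norm_num
          have e4 : (1 : ℝ) / (2 + 1) = 1 / 3 := by norm_num
          rw [e3, e4]; ring
        rw [e1, e2]
        have e5 : (C (3 / 2 : ℝ) : ℝ[X]) = 1 + C (1 / 2) := by
          rw [← C_1, ← C_add]; norm_num
        have e6 : (C (2 / 3 : ℝ) : ℝ[X]) = 1 - C (1 / 3) := by
          rw [← C_1, ← C_sub]; norm_num
        rw [e5, e6]; ring
      rw [h4]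
      refine IsBigO.of_bound (2 / 3) (Eventually.of_forall fun n => ?_)
      rw [eval_mul, eval_pow, eval_X, eval_C, norm_mul]
      have : ‖(2 / 3 : ℝ)‖ = 2 / 3 := by norm_num
      rw [this, mul_comm]
    have h5 : (fun n : ℕ => (1 / ((n : ℝ) - 1) - Real.log (1 + 1 / (n : ℝ)) - (RM 3 - LP 3).eval (1 / (n : ℝ))) +
        ((RM 3 - LP 3 - C (3 / 2) * X ^ 2).eval (1 / (n : ℝ)) +
        3 / 2 * ((1 / ((n : ℝ) + 1)) ^ 1 - (1 / (n : ℝ)) ^ 1 + (1 : ℕ) * (1 / (n : ℝ)) ^ (1 + 1)))) =O[atTop]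
        fun n : ℕ => (1 / (n : ℝ)) ^ 3 := IsBigO.add h1 (IsBigO.add h3 h2)
    refine h5.congr' ?_ (EventuallyEq.refl _ _)
    filter_upwards [eventually_ge_atTop 2] with n hn
    have h6 := inc_log hn
    have h7 : (H (n + 1 - 2) - Real.log ((n + 1 : ℕ) : ℝ) + (3 / 2) * (1 / ((n + 1 : ℕ) : ℝ))) -
      (H (n - 2) - Real.log (n : ℝ) + (3 / 2) * (1 / (n : ℝ))) =
      ((H (n + 1 - 2) - Real.log ((n + 1 : ℕ) : ℝ)) - (H (n - 2) - Real.log (n : ℝ))) +
        (3 / 2) * (1 / ((n : ℝ) + 1) - 1 / (n : ℝ)) := by push_cast; ring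
    rw [h7, h6, eval_sub (RM 3 - LP 3), eval_mul, eval_C, eval_pow, eval_X]
    push_cast
    ring
  have h1 := telescope 2 (by norm_num) hinc hb
  obtain ⟨K, hK⟩ := h1.bound
  refine IsBigO.of_bound K ?_
  filter_upwards [hK, eventually_ge_atTop 2] with n hn hn2
  have hn0 : (0 : ℝ) < n := by
    have : (2 : ℝ) ≤ n := by exact_mod_cast hn2
    linarith
  have e1 : (n : ℝ) * (H (n - 2) - Real.log n - Real.eulerMascheroniConstant) - (-3 / 2) =
      n * (H (n - 2) - Real.log (n : ℝ) + (3 / 2) * (1 / (n : ℝ)) - Real.eulerMascheroniConstant) := by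
    field_simp; ring
  rw [e1, norm_mul, Real.norm_of_nonneg hn0.le]
  rw [Real.norm_of_nonneg (by positivity : (0 : ℝ) ≤ (1 / (n : ℝ)) ^ 2)] at hn
  rw [Real.norm_of_nonneg (by positivity : (0 : ℝ) ≤ (1 / (n : ℝ)) ^ 1)]
  calc (n : ℝ) * ‖H (n - 2) - Real.log (n : ℝ) + (3 / 2) * (1 / (n : ℝ)) - Real.eulerMascheroniConstant‖
      ≤ n * (K * (1 / (n : ℝ)) ^ 2) := mul_le_mul_of_nonneg_left hn hn0.le
    _ = K * (1 / (n : ℝ)) ^ 1 := by field_simp

theorem part_log (j : ℕ) : Cl j (C (-3 / 2 : ℝ))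
    (fun n _ => (n : ℝ) * (H (n - 2) - Real.log n - Real.eulerMascheroniConstant)) := by
  have hinc : E (j + 2 + 1) (fun n => (H (n + 1 - 2) - Real.log ((n + 1 : ℕ) : ℝ)) - (H (n - 2) - Real.log (n : ℝ)))
      (RM (j + 2 + 1) - LP (j + 2 + 1)) := by
    refine ((E_RM (j + 2 + 1)).sub (E_LP (j + 2 + 1))).congr' ?_ (EventuallyEq.refl _ _)
    filter_upwards [eventually_ge_atTop 2] with n hn
    rw [inc_log hn]
  obtain ⟨Q, hQ0, hQ⟩ := expand_of_increment (a := fun n => H (n - 2) - Real.log (n : ℝ)) (j + 2) (by omega)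
    (dvd_c (j + 2)) hinc tendsto_H
  obtain ⟨S, hS⟩ : ∃ S, Q = C (Q.coeff 0) + X * S := ⟨Q.divX, by
    have := Q.divX_mul_X_add
    rw [add_comm, mul_comm] at this; exact this.symm⟩
  have hE : E (j + 1) (fun n => (n : ℝ) * (H (n - 2) - Real.log n - Real.eulerMascheroniConstant)) S := by
    obtain ⟨K, hK⟩ := hQ.bound
    refine IsBigO.of_bound K ?_
    filter_upwards [hK, eventually_ge_atTop 2] with n hn hn2
    have hn0 : (0 : ℝ) < n := by
      have : (2 : ℝ) ≤ n := by exact_mod_cast hn2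
      linarith
    have e0 : Q.eval (1 / (n : ℝ)) = Real.eulerMascheroniConstant + (1 / (n : ℝ)) * S.eval (1 / (n : ℝ)) := by
      rw [hS, eval_add, eval_mul, eval_C, eval_X, ← hQ0]
    have e1 : (n : ℝ) * (H (n - 2) - Real.log n - Real.eulerMascheroniConstant) - S.eval (1 / (n : ℝ)) =
        n * (H (n - 2) - Real.log (n : ℝ) - Q.eval (1 / (n : ℝ))) := by
      rw [e0]; field_simp; ring
    rw [e1, norm_mul, Real.norm_of_nonneg hn0.le]
    rw [Real.norm_of_nonneg (by positivity : (0 : ℝ) ≤ (1 / (n : ℝ)) ^ (j + 2))] at hn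
    rw [Real.norm_of_nonneg (by positivity : (0 : ℝ) ≤ (1 / (n : ℝ)) ^ (j + 1))]
    calc (n : ℝ) * ‖H (n - 2) - Real.log (n : ℝ) - Q.eval (1 / (n : ℝ))‖
        ≤ n * (K * (1 / (n : ℝ)) ^ (j + 2)) := mul_le_mul_of_nonneg_left hn hn0.le
      _ = K * (1 / (n : ℝ)) ^ (j + 1) := by rw [pow_succ _ (j + 1)]; field_simp
  have hS0 : S.coeff 0 = -3 / 2 := by
    have h1 : Tendsto (fun n : ℕ => (n : ℝ) * (H (n - 2) - Real.log n - Real.eulerMascheroniConstant)) atTop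
        (𝓝 (-3 / 2)) := by
      have h2 : Tendsto (fun n : ℕ => (n : ℝ) * (H (n - 2) - Real.log n - Real.eulerMascheroniConstant) - (-3 / 2))
          atTop (𝓝 0) := by
        refine first_order.trans_tendsto ?_
        simpa using tendsto_u
      have := h2.add_const (-3 / 2 : ℝ)
      simpa using this
    have h2 : Tendsto (fun n : ℕ => (n : ℝ) * (H (n - 2) - Real.log n - Real.eulerMascheroniConstant)
        - S.eval (1 / (n : ℝ))) atTop (𝓝 0) := by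
      refine IsBigO.trans_tendsto (hE.mono (Nat.le_add_left 1 j)) ?_
      simpa using tendsto_u
    have h3 : Tendsto (fun n : ℕ => S.eval (1 / (n : ℝ))) atTop (𝓝 (S.eval 0)) :=
      (S.continuous.tendsto 0).comp tendsto_u
    have h4 : Tendsto (fun n : ℕ => S.eval (1 / (n : ℝ))) atTop (𝓝 (-3 / 2 - 0)) := by
      refine (h1.sub h2).congr fun n => ?_
      ring
    rw [coeff_zero_eq_eval_zero, tendsto_nhds_unique h3 h4]; norm_num
  have := Cl_of_E (hE.mono (Nat.le_succ j))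
  rwa [hS0] at this

end R308.LNK.B1

namespace R308.LNK

/-- Part B1 -/
theorem partB1 : S_B1 := ⟨fun r hr j => B1.part_r r hr j, fun j => B1.part_log j⟩

end R308.LNK
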